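import Pool.Agent.helper47.Vis.Fill
import Pool.Agent.helper18.Vis.ModB
import Pool.Agent.helper95.Vis.Gap
import Pool.Agent.helper42.Vis.LemH
import Pool.Agent.helper76.Vis.Tprime
import Pool.Agent.helper77.Vis.Max
import Pool.Agent.helper43.Vis3.Clear3
import Pool.Agent.helper68.Vis.Vanishing

set_option autoImplicit false

/-! MP_6b3417_co: assembly of part III. -/

namespace Pool.Agent.helper47.Vis

theorem lemH {M R K : ℕ} (hp : Par M R K) (hM : 5 ≤ M) (G : Set (ℤ × ℤ)) (hfin : G.Finite)
    (hG : Good G) (hW : Box M ⊆ G) (hno : ¬ HasWindow G (M + 1)) (y : ℝ × ℝ)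
    (hK : K5free (insert y (toR '' G))) : Handled K y :=
  helper42.Vis.lemH_of helper95.Vis.gapLemma
    (fun hp G hG hW z hz hzh s hs0 hs1 f hf => fill hp G hG hW z hz hzh s hs0 hs1 f hf)
    helper18.Vis.corridor_window hp hM G hfin hG hW hno y hK

theorem exists_max_window : helper68.Vis.StatMax :=
  helper77.Vis.exists_max_window_of helper18.Vis.exists_par
    (fun hp hM G hfin hG hW hno y hK => lemH hp hM G hfin hG hW hno y hK)

theorem theoremA : helper68.Vis.StatA :=
  helper77.Vis.theoremA_of helper18.Vis.exists_par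
    (fun hp hM G hfin hG hW hno y hK => lemH hp hM G hfin hG hW hno y hK)
    (fun hp G hW x a hx ha hl hs hxh hah => twins hp G hW x a hx ha hl hs hxh hah)
    (fun hp hM G hW x hx hxW hxh => helper76.Vis.Tprime hp hM G hW x hx hxW hxh)

theorem clear_square : helper68.Vis.StatClear := by
  intro M R K hp hM G hfin hG hW hh y hy
  exact helper43.Clear.clear_square_of hp G
    (fun z hz hzh f hf => fill34 hp G hG hW z hz hzh f hf) hfin hW hh y hy

/-- Part III complete: a `K₅`-free set with a large projective lattice window is 6-colourable. -/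
theorem vanishing : ∃ M₀ : ℕ, ∀ M : ℕ, M₀ ≤ M → ∀ P : Set (ℝ × ℝ), P.Finite → K5free P →
    ∀ A : Matrix (Fin 3) (Fin 3) ℝ, WindowHyp P A M →
    ∃ col : ℝ × ℝ → Fin 6, ∀ p ∈ P, ∀ q ∈ P, Sees P p q → col p ≠ col q :=
  helper68.Vis.vanishing_window theoremA exists_max_window clear_square

end Pool.Agent.helper47.Vis
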