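import Pool.Agent.helper47.Vis.Cover
import Pool.Agent.helper47.Vis.Asm3

set_option autoImplicit false

/-!
# MP_6b3417_co: module Z, final assembly
-/

namespace Pool.Agent.helper47.Vis

open Pool.Agent.helper88.Vis

/-- Statement of `bigline`. -/
def BigLine : Prop := ∀ l : ℕ, ∃ N : ℕ, ∀ P : Finset (ℝ × ℝ), K5free (P : Set (ℝ × ℝ)) →
    NoLine P l → P.card ≤ N

/-- Statement of `partII`. -/
def PartII : Prop := ∀ M : ℕ, 1 ≤ M → ∃ l₀ K : ℕ, ∀ P : Finset (ℝ × ℝ),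
    K5free (P : Set (ℝ × ℝ)) → ∀ c₀ d₀ : ℝ × ℝ, d₀ ≠ 0 →
    l₀ ≤ (fil P (fun p => sd c₀ d₀ p = 0)).card →
    (∀ c' d' : ℝ × ℝ, d' ≠ 0 → (fil P (fun p => sd c' d' p = 0)).card ≤
      (fil P (fun p => sd c₀ d₀ p = 0)).card) →
    (∃ L : ℕ → (ℝ × ℝ) × (ℝ × ℝ), (∀ j, (L j).2 ≠ 0) ∧
      ∀ p ∈ P, 0 ≤ sd c₀ d₀ p → ∃ j ≤ K, sd (L j).1 (L j).2 p = 0) ∨
    (∃ A : Matrix (Fin 3) (Fin 3) ℝ, WindowHyp (P : Set (ℝ × ℝ)) A M)

/-- Proper colouring with `c` colours. -/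
def Col (P : Finset (ℝ × ℝ)) (c : ℕ) : Prop :=
  ∃ col : ℝ × ℝ → ℕ, (∀ p ∈ P, col p < c) ∧
    ∀ p ∈ P, ∀ q ∈ P, Sees (P : Set (ℝ × ℝ)) p q → col p ≠ col q

lemma Col.mono {P : Finset (ℝ × ℝ)} {c c' : ℕ} (h : Col P c) (hc : c ≤ c') : Col P c' := by
  obtain ⟨col, h1, h2⟩ := h
  exact ⟨col, fun p hp => lt_of_lt_of_le (h1 p hp) hc, h2⟩

lemma col_card (P : Finset (ℝ × ℝ)) : Col P P.card := by
  classical
  refine ⟨fun p => if h : p ∈ P then (P.equivFin ⟨p, h⟩ : ℕ) else 0, ?_, ?_⟩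
  · intro p hp
    simp only [hp, dif_pos]
    exact (P.equivFin ⟨p, hp⟩).2
  · intro p hp q hq hs heq
    simp only [hp, hq, dif_pos] at heq
    have := P.equivFin.injective (Fin.ext heq)
    exact hs.1 (by simpa using this)

lemma exists_longest (P : Finset (ℝ × ℝ)) : ∃ c d : ℝ × ℝ, d ≠ 0 ∧
    ∀ c' d' : ℝ × ℝ, d' ≠ 0 → (fil P (fun p => sd c' d' p = 0)).card ≤
      (fil P (fun p => sd c d p = 0)).card := by
  classical
  by_contra hcon
  push Not at hcon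
  have key : ∀ k : ℕ, ∃ c d : ℝ × ℝ, d ≠ 0 ∧ k ≤ (fil P (fun p => sd c d p = 0)).card := by
    intro k
    induction k with
    | zero => exact ⟨0, (1, 0), by simp, Nat.zero_le _⟩
    | succ k ih =>
      obtain ⟨c, d, hd, hk⟩ := ih
      obtain ⟨c', d', hd', hlt⟩ := hcon c d hd
      exact ⟨c', d', hd', by omega⟩
  obtain ⟨c, d, -, hk⟩ := key (P.card + 1)
  have := Finset.card_le_card (fil_subset P (fun p => sd c d p = 0))
  omega

lemma sd_neg (c d p : ℝ × ℝ) : sd c (-d) p = -sd c d p := by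
  simp only [sd, Prod.fst_neg, Prod.snd_neg]; ring

/-- The union of two parts covered by `K+1` lines each. -/
lemma col_two_sides (P : Finset (ℝ × ℝ)) (K : ℕ) (c₀ d₀ : ℝ × ℝ)
    (L L' : ℕ → (ℝ × ℝ) × (ℝ × ℝ)) (hL : ∀ j, (L j).2 ≠ 0) (hL' : ∀ j, (L' j).2 ≠ 0)
    (h1 : ∀ p ∈ P, 0 ≤ sd c₀ d₀ p → ∃ j ≤ K, sd (L j).1 (L j).2 p = 0)
    (h2 : ∀ p ∈ P, 0 ≤ sd c₀ (-d₀) p → ∃ j ≤ K, sd (L' j).1 (L' j).2 p = 0) :
    Col P (2 * (2 * (K + 1))) := by
  classical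
  refine cover_color P (2 * (K + 1)) (fun j => if j ≤ K then (L j).1 else (L' (j - (K + 1))).1)
    (fun j => if j ≤ K then (L j).2 else (L' (j - (K + 1))).2) ?_ ?_
  · intro i _
    show (if i ≤ K then (L i).2 else (L' (i - (K + 1))).2) ≠ 0
    split_ifs
    · exact hL _
    · exact hL' _
  · intro p hp
    rcases le_total 0 (sd c₀ d₀ p) with h | h
    · obtain ⟨j, hj, hs⟩ := h1 p hp h
      refine ⟨j, by omega, ?_⟩
      simp only [hj, if_true]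
      exact hs
    · obtain ⟨j, hj, hs⟩ := h2 p hp (by rw [sd_neg]; linarith)
      refine ⟨j + (K + 1), by omega, ?_⟩
      have : ¬ j + (K + 1) ≤ K := by omega
      simp only [this, if_false, Nat.add_sub_cancel]
      exact hs

/-- Module Z. -/
theorem final_of (hB : BigLine) (hII : PartII) :
    ∃ c : ℕ, ∀ P : Finset (ℝ × ℝ), K5free (P : Set (ℝ × ℝ)) → Col P c := by
  classical
  obtain ⟨M₀, hM₀⟩ := vanishing
  obtain ⟨l₀, K, hK⟩ := hII (max M₀ 1) (le_max_right _ _)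
  obtain ⟨N, hN⟩ := hB l₀
  refine ⟨max N (max 6 (2 * (2 * (K + 1)))), fun P hP => ?_⟩
  obtain ⟨c, d, hd, hmax⟩ := exists_longest P
  rcases Nat.lt_or_ge (fil P (fun p => sd c d p = 0)).card l₀ with h | h
  · refine (col_card P).mono (le_trans (hN P hP ?_) (le_max_left _ _))
    intro c' d' hd'
    exact lt_of_le_of_lt (hmax c' d' hd') h
  · have hwin : ∀ A : Matrix (Fin 3) (Fin 3) ℝ, WindowHyp (P : Set (ℝ × ℝ)) A (max M₀ 1) →
        Col P 6 := by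
      intro A hA
      obtain ⟨col, hcol⟩ := hM₀ (max M₀ 1) (le_max_left _ _) P P.finite_toSet hP A hA
      refine ⟨fun p => (col p : ℕ), fun p _ => (col p).2, fun p hp q hq hs heq => ?_⟩
      exact hcol p (by exact_mod_cast hp) q (by exact_mod_cast hq) hs (Fin.ext heq)
    have hneg : ∀ c' d' : ℝ × ℝ, fil P (fun p => sd c' (-d') p = 0) = fil P (fun p => sd c' d' p = 0) := by
      intro c' d'
      ext p
      rw [mem_fil, mem_fil, sd_neg, neg_eq_zero]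
    rcases hK P hP c d hd h hmax with ⟨L, hL, h1⟩ | ⟨A, hA⟩
    · rcases hK P hP c (-d) (neg_ne_zero.mpr hd) (by rw [hneg]; exact h)
        (fun c' d' hd' => by rw [hneg]; exact hmax c' d' hd') with ⟨L', hL', h2⟩ | ⟨A, hA⟩
      · exact (col_two_sides P K c d L L' hL hL' h1 h2).mono
          ((le_max_right _ _).trans (le_max_right _ _))
      · exact (hwin A hA).mono ((le_max_left _ _).trans (le_max_right _ _))
    · exact (hwin A hA).mono ((le_max_left _ _).trans (le_max_right _ _))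

/-- The frozen statement. -/
theorem frozen_of (hB : BigLine) (hII : PartII) :
    ∃ c : ℕ, ∀ P : Finset (ℝ × ℝ), ∀ G : SimpleGraph ↥P,
      (∀ p q : ↥P, G.Adj p q ↔
        (p ≠ q ∧ ∀ r ∈ P, r ∉ openSegment ℝ (p : ℝ × ℝ) (q : ℝ × ℝ))) →
      G.CliqueFree 5 → G.Colorable c := by
  obtain ⟨c, hc⟩ := final_of hB hII
  refine ⟨c, fun P G hG hF => ?_⟩
  obtain ⟨col, h1, h2⟩ := hc P (K5free_of_cliqueFree P G hG hF)
  exact colorable_of_col P G hG c col h1 h2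

end Pool.Agent.helper47.Vis
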