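import Pool.Agent.helper47.Vis.Sector
import Pool.Agent.helper47.Vis.Final
import Pool.Agent.helper18.Vis.ModF
import Pool.Agent.helper19.Vis.BigLine
import Pool.Agent.helper24.Vis.Pentagon
import Pool.Agent.helper26.Vis.WConv
import Pool.Agent.helper40.Vis.ChainCol
import Pool.Agent.helper68.Vis.Hull
import Pool.Agent.helper85.Vis.Layer

set_option autoImplicit false

/-! MP_6b3417_co: assembly of part I (big line theorem). -/

namespace Pool.Agent.helper47.Vis

open Pool.Agent.helper88.Vis

theorem sector (P : Finset (ℝ × ℝ)) (h : NonCol P) (z : ℝ × ℝ)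
    (hz : ∀ p q, Edge P p q → 0 < ori p q z) (x : ℝ × ℝ) (hx : x ≠ z) :
    ∃ p q, Edge P p q ∧ 0 ≤ ori z p x ∧ 0 < ori z x q :=
  sector_of (fun P h p hp => helper68.Vis.exists_edge P h p hp) P h z hz x hx

theorem facts : helper40.Vis.Facts where
  col := fun P h => helper68.Vis.mem_Bd_of_not_nonCol P h
  emem := fun h => helper68.Vis.edge_mem_Bd h
  eex := fun P h p hp => helper68.Vis.exists_edge P h p hp
  euniq := fun h _ _ _ h1 h2 => helper68.Vis.edge_unique h h1 h2
  eint := fun hz hzB _ _ h => helper68.Vis.edge_interior hz hzB h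
  sector := sector
  succ := fun P z hzP hz x y y' hy' hxy' he => succ_between P z hzP hz x y y' hy' hxy' he
  pent := fun P hK x y p q w h1 h2 h3 h4 h5 h6 h7 h8 =>
    helper24.Vis.pentagon P hK x y p q w h1 h2 h3 h4 h5 h6 h7 h8

/-- The big line theorem for `K₅`-free sets. -/
theorem bigline : BigLine := fun l =>
  helper19.Vis.bigline_of l
    (fun P hK hl => helper85.Vis.layer_bound_of helper26.Vis.wconv_K5
      (fun P h p q q' h1 h2 => helper68.Vis.edge_unique h h1 h2) sector l P hK hl)
    (fun P hK h1 h2 => helper40.Vis.chain_collinear_of facts P hK l h1 h2)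
    helper18.Vis.exists_wconv

end Pool.Agent.helper47.Vis
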