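import Pool.Agent.helper47.Vis.Trap
import Pool.Agent.helper40.Vis.RowMono
import Pool.Agent.helper40.Vis.EmptyTrap
import Pool.Agent.helper80.Vis.SL
import Pool.Agent.helper68.Vis.PsiCount
import Pool.Agent.helper45.Vis.P4
import Pool.Agent.helper24.Vis.ExactWindow
import Pool.Agent.helper68.Vis.Comp

set_option autoImplicit false

/-! MP_6b3417_co: assembly of the parallel rows part (II.6'-II.8). -/

namespace Pool.Agent.helper47.Vis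

theorem sizeStmt : SizeStmt := by
  intro V hK η n x hR h0 h1 h2
  obtain ⟨m1, m2⟩ := helper40.Vis.row_mono V hK η n x hR h1
  have hu : ∀ j k, j < k → k < n 1 → x 1 j < x 1 k := fun j k h h' => hR.hx 1 (by norm_num) j k h h'
  have := helper68.Vis.size_ineq (n 0) (n 2) (n 1) (by omega) (by omega)
    (fun j k => (pos (n 1) (x 1) (cross η x 0 j k) : ℤ))
    (fun j k hj hk => by exact_mod_cast m1 j k hj hk)
    (fun j k hj hk => by exact_mod_cast m2 j k hj hk)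
    (by positivity)
    (by exact_mod_cast helper40.Vis.pos_le (n 1) (x 1) _ hu)
  exact_mod_cast this

theorem trap_rows (J B : ℕ) (hJ : 3 ≤ J) (hB : 100 * J ^ 2 ≤ B) (V : Set (ℝ × ℝ))
    (hfin : V.Finite) (hK : K5free V) (η : ℕ → ℝ) (n : ℕ → ℕ) (x : ℕ → ℕ → ℝ)
    (hR : Rows V J η n x) (hn : ∀ i, i ≤ J → 1 ≤ n i) (p₀ q₀ p₁ q₁ : ℕ)
    (hq₀ : q₀ < n 0) (hq₁ : q₁ < n J) (h₀ : p₀ + B ≤ q₀ + 1) (h₁ : p₁ + B / 4 ≤ q₁ + 1) :
    ∃ l r : ℕ → ℕ, l 0 = p₀ ∧ r 0 = q₀ ∧ l J = p₁ ∧ r J = q₁ ∧ ∀ i, i ≤ J →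
      l i + B / 5 ≤ r i ∧ r i < n i ∧ ∀ j, j < n i → ((l i ≤ j ∧ j ≤ r i) ↔
        (side (η 0) (η J) (x 0 p₀) (x J p₁) (η i) ≤ x i j ∧
          x i j ≤ side (η 0) (η J) (x 0 q₀) (x J q₁) (η i))) :=
  trap_rows_of helper40.Vis.noEmptyTrap helper80.Vis.singleChain sizeStmt
    J B hJ hB V hfin hK η n x hR hn p₀ q₀ p₁ q₁ hq₀ hq₁ h₀ h₁

theorem exists_exact (J B : ℕ) (hJ : 3 ≤ J) (hB : 100 * J ^ 2 ≤ B) (V : Set (ℝ × ℝ))
    (hfin : V.Finite) (hK : K5free V) (η : ℕ → ℝ) (n : ℕ → ℕ) (x : ℕ → ℕ → ℝ)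
    (hR : Rows V J η n x) (N : ℕ) (hN : ∀ i, i ≤ J → n i ≤ N ∧ N ≤ 3 * n i)
    (hsl : 10 * (B : ℤ) * (1 + ∑ i ∈ Finset.range (J - 1),
      (2 * (n (i + 1) : ℤ) + 2 - n i - n (i + 2))) ≤ N) :
    ∃ l r : ℕ → ℕ, ∃ c : ℕ → ℤ, Exact J η n x l r c (B / 5) :=
  helper45.Vis.exists_exact_of helper68.Vis.psi_count helper40.Vis.pos_le helper40.Vis.pos_odd
    helper40.Vis.row_mono trap_rows J B hJ hB V hfin hK η n x hR N hN hsl

/-- Final statement of the parallel rows part. -/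
theorem parallel_rows (M : ℕ) (hM : 1 ≤ M) : ∃ S : ℕ, ∀ V : Set (ℝ × ℝ), V.Finite → K5free V →
    ∀ (η : ℕ → ℝ) (n : ℕ → ℕ) (x : ℕ → ℕ → ℝ), Rows V (M + 2) η n x → ∀ N : ℕ,
    (∀ i, i ≤ M + 2 → n i ≤ N ∧ N ≤ 3 * n i) →
    (S : ℤ) * (1 + ∑ i ∈ Finset.range (M + 1), (2 * (n (i + 1) : ℤ) + 2 - n i - n (i + 2))) ≤ N →
    ∃ A : Matrix (Fin 3) (Fin 3) ℝ, WindowHyp V A M := by
  set B : ℕ := max (100 * (M + 2) ^ 2) (5 * (10 * (M + 10) ^ 2)) with hBdef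
  refine ⟨10 * B, fun V hfin hK η n x hR N hN hsl => ?_⟩
  obtain ⟨l, r, c, hE⟩ := exists_exact (M + 2) B (by omega) (le_max_left _ _) V hfin hK η n x hR N hN
    (by rw [show M + 2 - 1 = M + 1 by omega]; push_cast at hsl ⊢; exact hsl)
  exact helper24.Vis.exact_window M (B / 5) hM (by
    rw [Nat.le_div_iff_mul_le (by norm_num)]
    have := le_max_right (100 * (M + 2) ^ 2) (5 * (10 * (M + 10) ^ 2))
    rw [← hBdef] at this
    linarith) V η n x hR l r c hE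

end Pool.Agent.helper47.Vis
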