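import Pool.Agent.helper88.Vis.Defs

set_option autoImplicit false

/-!
# MP_6b3417_co: colouring a set covered by few lines; bridging to the frozen statement
-/

namespace Pool.Agent.helper47.Vis

open Pool.Agent.helper88.Vis

/-- Coordinate along the direction `d`. -/
def al (d p : ℝ × ℝ) : ℝ := d.1 * p.1 + d.2 * p.2

lemma dd_pos {d : ℝ × ℝ} (hd : d ≠ 0) : 0 < d.1 * d.1 + d.2 * d.2 := by
  have h1 := mul_self_nonneg d.1
  have h2 := mul_self_nonneg d.2
  by_contra hcon
  apply hd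
  have h3 : d.1 * d.1 = 0 := by linarith
  have h4 : d.2 * d.2 = 0 := by linarith
  exact Prod.ext (mul_self_eq_zero.mp h3) (mul_self_eq_zero.mp h4)

/-- On a line, `p + t d`. -/
lemma on_line {c d p q : ℝ × ℝ} (hd : d ≠ 0) (hp : sd c d p = 0) (hq : sd c d q = 0) :
    q.1 - p.1 = (al d q - al d p) / (d.1 * d.1 + d.2 * d.2) * d.1 ∧
    q.2 - p.2 = (al d q - al d p) / (d.1 * d.1 + d.2 * d.2) * d.2 := by
  have h := dd_pos hd
  unfold sd at hp hq
  unfold al
  constructor
  · rw [div_mul_eq_mul_div, eq_div_iff h.ne']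
    linear_combination d.2 * hp - d.2 * hq
  · rw [div_mul_eq_mul_div, eq_div_iff h.ne']
    linear_combination -d.1 * hp + d.1 * hq

lemma mem_openSegment_on_line {c d p q r : ℝ × ℝ} (hd : d ≠ 0) (hp : sd c d p = 0)
    (hq : sd c d q = 0) (hr : sd c d r = 0) (h1 : al d p < al d r) (h2 : al d r < al d q) :
    r ∈ openSegment ℝ p q := by
  have hD := dd_pos hd
  obtain ⟨e1, e2⟩ := on_line hd hp hq
  obtain ⟨e3, e4⟩ := on_line hd hp hr
  have hpq : 0 < al d q - al d p := by linarith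
  refine ⟨(al d q - al d r) / (al d q - al d p), (al d r - al d p) / (al d q - al d p),
    div_pos (by linarith) hpq, div_pos (by linarith) hpq, ?_, ?_⟩
  · rw [← add_div, div_eq_one_iff_eq hpq.ne']
    ring
  · have f1 : q.1 = p.1 + (al d q - al d p) / (d.1 * d.1 + d.2 * d.2) * d.1 := by linarith
    have f2 : q.2 = p.2 + (al d q - al d p) / (d.1 * d.1 + d.2 * d.2) * d.2 := by linarith
    have f3 : r.1 = p.1 + (al d r - al d p) / (d.1 * d.1 + d.2 * d.2) * d.1 := by linarith
    have f4 : r.2 = p.2 + (al d r - al d p) / (d.1 * d.1 + d.2 * d.2) * d.2 := by linarith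
    ext
    · simp only [Prod.fst_add, Prod.smul_fst, smul_eq_mul]
      rw [f1, f3]
      field_simp
      ring
    · simp only [Prod.snd_add, Prod.smul_snd, smul_eq_mul]
      rw [f2, f4]
      field_simp
      ring

/-- A set covered by `m` lines is `2m`-colourable. -/
theorem cover_color (P : Finset (ℝ × ℝ)) (m : ℕ) (c d : ℕ → ℝ × ℝ) (hd : ∀ i < m, d i ≠ 0)
    (hcov : ∀ p ∈ P, ∃ i < m, sd (c i) (d i) p = 0) :
    ∃ col : ℝ × ℝ → ℕ, (∀ p ∈ P, col p < 2 * m) ∧
      ∀ p ∈ P, ∀ q ∈ P, Sees (P : Set (ℝ × ℝ)) p q → col p ≠ col q := by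
  classical
  have hcov' : ∀ p : ℝ × ℝ, ∃ i, p ∈ P → (i < m ∧ sd (c i) (d i) p = 0) := by
    intro p
    by_cases hp : p ∈ P
    · obtain ⟨i, h1, h2⟩ := hcov p hp
      exact ⟨i, fun _ => ⟨h1, h2⟩⟩
    · exact ⟨0, fun h => absurd h hp⟩
  choose f hf using hcov'
  let rk : ℕ → ℝ × ℝ → ℕ := fun i p =>
    (P.filter (fun r => sd (c i) (d i) r = 0 ∧ al (d i) r < al (d i) p)).card
  refine ⟨fun p => 2 * f p + rk (f p) p % 2, fun p hp => ?_, ?_⟩
  · have := (hf p hp).1
    have h2 : rk (f p) p % 2 < 2 := Nat.mod_lt _ (by norm_num)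
    simp only
    omega
  · -- the key step
    have key : ∀ i p q, p ∈ P → q ∈ P → i < m → sd (c i) (d i) p = 0 → sd (c i) (d i) q = 0 →
        Sees (P : Set (ℝ × ℝ)) p q → al (d i) p < al (d i) q → rk i q = rk i p + 1 := by
      intro i p q hp hq hi hp0 hq0 hs hlt
      have : (P.filter (fun r => sd (c i) (d i) r = 0 ∧ al (d i) r < al (d i) q)) =
          insert p (P.filter (fun r => sd (c i) (d i) r = 0 ∧ al (d i) r < al (d i) p)) := by
        ext r
        simp only [Finset.mem_filter, Finset.mem_insert]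
        constructor
        · rintro ⟨h1, h2, h3⟩
          rcases lt_trichotomy (al (d i) r) (al (d i) p) with h | h | h
          · right; exact ⟨h1, h2, h⟩
          · left
            obtain ⟨e1, e2⟩ := on_line (hd i hi) hp0 h2
            rw [h, sub_self, zero_div, zero_mul] at e1 e2
            exact Prod.ext (by linarith) (by linarith)
          · exact absurd (mem_openSegment_on_line (hd i hi) hp0 hq0 h2 h h3)
              (hs.2 r (by exact_mod_cast h1))
        · rintro (rfl | ⟨h1, h2, h3⟩)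
          · exact ⟨hp, hp0, hlt⟩
          · exact ⟨h1, h2, h3.trans hlt⟩
      simp only [rk]
      rw [this, Finset.card_insert_of_notMem]
      intro hmem
      exact lt_irrefl _ (Finset.mem_filter.mp hmem).2.2
    intro p hp q hq hs heq
    simp only at heq
    have h1 : rk (f p) p % 2 < 2 := Nat.mod_lt _ (by norm_num)
    have h2 : rk (f q) q % 2 < 2 := Nat.mod_lt _ (by norm_num)
    have hfe : f p = f q := by omega
    rw [← hfe] at heq h2
    have hp' := hf p hp
    have hq' := hf q hq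
    rw [← hfe] at hq'
    rcases lt_trichotomy (al (d (f p)) p) (al (d (f p)) q) with h | h | h
    · have := key (f p) p q hp hq hp'.1 hp'.2 hq'.2 hs h
      omega
    · obtain ⟨e1, e2⟩ := on_line (hd _ hp'.1) hp'.2 hq'.2
      rw [h, sub_self, zero_div, zero_mul] at e1 e2
      exact hs.1 (Prod.ext (by linarith) (by linarith))
    · have := key (f p) q p hq hp hp'.1 hq'.2 hp'.2 hs.symm h
      omega

/-- The same for a subset `Q` of `P` that is the part of `P` on a family of lines: colouring of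
the points of `Q ⊆ P`, with visibility in `P`. -/
theorem lines_colouring (K : ℕ) (P : Finset (ℝ × ℝ)) (Q : Finset (ℝ × ℝ)) (hQ : Q ⊆ P)
    (L : ℕ → (ℝ × ℝ) × (ℝ × ℝ)) (hL : ∀ j, (L j).2 ≠ 0)
    (hcov : ∀ p ∈ Q, ∃ j ≤ K, sd (L j).1 (L j).2 p = 0) :
    ∃ col : ℝ × ℝ → Fin (2 * (K + 1)), ∀ p ∈ Q, ∀ q ∈ Q, Sees (P : Set (ℝ × ℝ)) p q →
      col p ≠ col q := by
  classical
  obtain ⟨col, h1, h2⟩ := cover_color Q (K + 1) (fun j => (L j).1) (fun j => (L j).2)
    (fun i _ => hL i) (fun p hp => by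
      obtain ⟨j, hj, hs⟩ := hcov p hp
      exact ⟨j, by omega, hs⟩)
  refine ⟨fun p => if h : col p < 2 * (K + 1) then ⟨col p, h⟩ else ⟨0, by omega⟩, ?_⟩
  intro p hp q hq hs heq
  simp only [h1 p hp, h1 q hq, dif_pos, Fin.mk.injEq] at heq
  exact h2 p hp q hq (hs.mono (by exact_mod_cast hQ)) heq

/-- Bridging: clique-freeness gives `K5free`. -/
theorem K5free_of_cliqueFree (P : Finset (ℝ × ℝ)) (G : SimpleGraph ↥P)
    (hG : ∀ p q : ↥P, G.Adj p q ↔
        (p ≠ q ∧ ∀ r ∈ P, r ∉ openSegment ℝ (p : ℝ × ℝ) (q : ℝ × ℝ)))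
    (hF : G.CliqueFree 5) : K5free (P : Set (ℝ × ℝ)) := by
  classical
  rintro ⟨f, hf, hs⟩
  have hinj : Function.Injective f := by
    intro i j hij
    by_contra hne
    exact (hs i j hne).1 hij
  have hf' : ∀ i, f i ∈ P := fun i => by exact_mod_cast hf i
  apply hF (Finset.univ.image (fun i => (⟨f i, hf' i⟩ : ↥P)))
  constructor
  · intro a ha b hb hab
    rw [Finset.mem_coe, Finset.mem_image] at ha hb
    obtain ⟨i, -, rfl⟩ := ha
    obtain ⟨j, -, rfl⟩ := hb
    have hij : i ≠ j := by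
      rintro rfl; exact hab rfl
    rw [hG]
    exact ⟨hab, fun r hr => (hs i j hij).2 r (by exact_mod_cast hr)⟩
  · rw [Finset.card_image_of_injective]
    · simp
    · intro i j hij
      apply hinj
      simpa using hij

/-- Bridging: a colouring of the points gives colourability of the graph. -/
theorem colorable_of_col (P : Finset (ℝ × ℝ)) (G : SimpleGraph ↥P)
    (hG : ∀ p q : ↥P, G.Adj p q ↔
        (p ≠ q ∧ ∀ r ∈ P, r ∉ openSegment ℝ (p : ℝ × ℝ) (q : ℝ × ℝ)))
    (c : ℕ) (col : ℝ × ℝ → ℕ) (h1 : ∀ p ∈ P, col p < c)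
    (h2 : ∀ p ∈ P, ∀ q ∈ P, Sees (P : Set (ℝ × ℝ)) p q → col p ≠ col q) : G.Colorable c := by
  refine ⟨SimpleGraph.Coloring.mk (fun p => (⟨col p, h1 p p.2⟩ : Fin c)) ?_⟩
  intro p q hpq heq
  rw [hG] at hpq
  have hs : Sees (P : Set (ℝ × ℝ)) (p : ℝ × ℝ) (q : ℝ × ℝ) :=
    ⟨fun h => hpq.1 (Subtype.ext h), fun r hr => hpq.2 r (by exact_mod_cast hr)⟩
  exact h2 p p.2 q q.2 hs (by simpa using heq)

/-- Bridging: few points. -/
theorem colorable_of_card (P : Finset (ℝ × ℝ)) (G : SimpleGraph ↥P) (c : ℕ) (h : P.card ≤ c) :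
    G.Colorable c := by
  classical
  have := G.colorable_of_fintype
  rw [Fintype.card_coe] at this
  exact this.mono h

end Pool.Agent.helper47.Vis
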