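import Pool.Agent.helper47.Vis.Sieve

set_option autoImplicit false

/-!
# MP_6b3417_co, part III: definitions and basic lemmas
-/

namespace Pool.Agent.helper47.Vis

/-- `p` sees `q` in `P`. -/
def Sees (P : Set (ℝ × ℝ)) (p q : ℝ × ℝ) : Prop := p ≠ q ∧ ∀ r ∈ P, r ∉ openSegment ℝ p q

/-- No five pairwise visible points. -/
def K5free (P : Set (ℝ × ℝ)) : Prop :=
  ¬ ∃ f : Fin 5 → ℝ × ℝ, (∀ i, f i ∈ P) ∧ ∀ i j, i ≠ j → Sees P (f i) (f j)

/-- Embedding of `ℤ²` in `ℝ²`. -/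
def toR (p : ℤ × ℤ) : ℝ × ℝ := ((p.1 : ℝ), (p.2 : ℝ))

/-- Same label (mod 2). -/
def SameLab (a b : ℤ × ℤ) : Prop := (2 : ℤ) ∣ a.1 - b.1 ∧ (2 : ℤ) ∣ a.2 - b.2

/-- Good lattice set: same-label points never see each other. -/
def Good (G : Set (ℤ × ℤ)) : Prop :=
  ∀ a ∈ G, ∀ b ∈ G, a ≠ b → SameLab a b → ∃ c ∈ G, toR c ∈ openSegment ℝ (toR a) (toR b)

/-- The lattice box `[0,M]²`. -/
def Box (M : ℕ) : Set (ℤ × ℤ) := {p | 0 ≤ p.1 ∧ p.1 ≤ M ∧ 0 ≤ p.2 ∧ p.2 ≤ M}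

/-- The affine map `p ↦ o + p.1 u + p.2 v` on `ℤ²`. -/
def umap (o u v : ℤ × ℤ) (p : ℤ × ℤ) : ℤ × ℤ :=
  (o.1 + p.1 * u.1 + p.2 * v.1, o.2 + p.1 * u.2 + p.2 * v.2)

/-- The affine map `p ↦ o + p.1 u + p.2 v` on `ℝ²`. -/
def umapR (o u v : ℤ × ℤ) (p : ℝ × ℝ) : ℝ × ℝ :=
  (o.1 + p.1 * u.1 + p.2 * v.1, o.2 + p.1 * u.2 + p.2 * v.2)

/-- `(u, v)` is a basis of `ℤ²`. -/
def IsBas (u v : ℤ × ℤ) : Prop := u.1 * v.2 - u.2 * v.1 = 1 ∨ u.1 * v.2 - u.2 * v.1 = -1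

/-- `G` contains a window of size `M`. -/
def HasWindow (G : Set (ℤ × ℤ)) (M : ℕ) : Prop :=
  ∃ o u v : ℤ × ℤ, IsBas u v ∧ ∀ p ∈ Box M, umap o u v p ∈ G

/-- Parameters: `M` size of the window, `R` side of the sieve boxes, `2 ^ K` the distance bound. -/
structure Par (M R K : ℕ) : Prop where
  sieve : (128 * SQ) * (8 * K + 1) ≤ R
  MR : 1000 * R ≤ M
  D : 10 ^ 6 * M ^ 10 ≤ 2 ^ K

/-- Handled points. -/
def Handled (K : ℕ) (y : ℝ × ℝ) : Prop := |y.1| ≤ 2 ^ K ∨ |y.2| ≤ 2 ^ K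

/-- `f = s z + t` with `t ∈ [μ, (1-s) M - μ]²`. -/
def InS (M : ℕ) (z : ℤ × ℤ) (s μ : ℝ) (f : ℤ × ℤ) : Prop :=
  μ ≤ f.1 - s * z.1 ∧ f.1 - s * z.1 ≤ (1 - s) * M - μ ∧
  μ ≤ f.2 - s * z.2 ∧ f.2 - s * z.2 ≤ (1 - s) * M - μ

/-! ### Basic lemmas -/

lemma Sees.symm {P : Set (ℝ × ℝ)} {p q : ℝ × ℝ} (h : Sees P p q) : Sees P q p :=
  ⟨h.1.symm, fun r hr hq => h.2 r hr (by rwa [openSegment_symm])⟩

lemma Sees.mono {P Q : Set (ℝ × ℝ)} {p q : ℝ × ℝ} (h : Sees P p q) (hQ : Q ⊆ P) : Sees Q p q :=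
  ⟨h.1, fun r hr => h.2 r (hQ hr)⟩

lemma K5free.elim5 {P : Set (ℝ × ℝ)} (h : K5free P) {a b c d e : ℝ × ℝ}
    (ha : a ∈ P) (hb : b ∈ P) (hc : c ∈ P) (hd : d ∈ P) (he : e ∈ P)
    (hab : Sees P a b) (hac : Sees P a c) (had : Sees P a d) (hae : Sees P a e)
    (hbc : Sees P b c) (hbd : Sees P b d) (hbe : Sees P b e)
    (hcd : Sees P c d) (hce : Sees P c e) (hde : Sees P d e) : False := by
  apply h
  refine ⟨![a, b, c, d, e], ?_, ?_⟩
  · intro i; fin_cases i <;> simpa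
  · have key : ∀ i j : Fin 5, i < j →
        Sees P ((![a, b, c, d, e] : Fin 5 → ℝ × ℝ) i) ((![a, b, c, d, e] : Fin 5 → ℝ × ℝ) j) := by
      intro i j hij
      fin_cases i <;> fin_cases j <;> first | exact absurd hij (by decide) | assumption
    intro i j hij
    rcases lt_or_gt_of_ne hij with h | h
    · exact key i j h
    · exact (key j i h).symm

lemma toR_injective : Function.Injective toR := by
  intro a b h
  simp only [toR, Prod.mk.injEq, Int.cast_inj] at h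
  exact Prod.ext h.1 h.2

@[simp] lemma toR_fst (p : ℤ × ℤ) : (toR p).1 = (p.1 : ℝ) := rfl
@[simp] lemma toR_snd (p : ℤ × ℤ) : (toR p).2 = (p.2 : ℝ) := rfl

lemma mem_toR_image {G : Set (ℤ × ℤ)} {p : ℤ × ℤ} : toR p ∈ toR '' G ↔ p ∈ G :=
  toR_injective.mem_set_image

/-- If a lattice point `c` lies strictly between distinct lattice points `a` and `b`, then, for
`g = gcd (b - a)`, `b - a = g e`, we have `c = a + k e` with `0 < k < g`. -/
lemma between_form (a b c : ℤ × ℤ) (hab : a ≠ b) (hc : toR c ∈ openSegment ℝ (toR a) (toR b)) :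
    ∃ e : ℤ × ℤ, ∃ k : ℤ, 0 < k ∧ k < (Int.gcd (b.1 - a.1) (b.2 - a.2) : ℤ) ∧
      b.1 - a.1 = (Int.gcd (b.1 - a.1) (b.2 - a.2) : ℤ) * e.1 ∧
      b.2 - a.2 = (Int.gcd (b.1 - a.1) (b.2 - a.2) : ℤ) * e.2 ∧ Int.gcd e.1 e.2 = 1 ∧
      c.1 = a.1 + k * e.1 ∧ c.2 = a.2 + k * e.2 := by
  obtain ⟨s, t, hs, ht, hst, hx⟩ := hc
  have hx1 : s * (a.1 : ℝ) + t * (b.1 : ℝ) = c.1 := by
    have := congrArg Prod.fst hx; simpa using this
  have hx2 : s * (a.2 : ℝ) + t * (b.2 : ℝ) = c.2 := by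
    have := congrArg Prod.snd hx; simpa using this
  have hs' : s = 1 - t := by linarith
  subst hs'
  have y1 : (c.1 : ℝ) - a.1 = t * ((b.1 : ℝ) - a.1) := by linarith
  have y2 : (c.2 : ℝ) - a.2 = t * ((b.2 : ℝ) - a.2) := by linarith
  have hcross : (c.1 - a.1) * (b.2 - a.2) = (c.2 - a.2) * (b.1 - a.1) := by
    have : ((c.1 : ℝ) - a.1) * ((b.2 : ℝ) - a.2) = ((c.2 : ℝ) - a.2) * ((b.1 : ℝ) - a.1) := by
      rw [y1, y2]; ring
    exact_mod_cast this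
  have hg0 : 0 < Int.gcd (b.1 - a.1) (b.2 - a.2) := by
    rcases Nat.eq_zero_or_pos (Int.gcd (b.1 - a.1) (b.2 - a.2)) with h | h
    · rw [Int.gcd_eq_zero_iff] at h
      exact absurd (Prod.ext (by linarith [h.1]) (by linarith [h.2])) hab
    · exact h
  obtain ⟨e1, e2, he, hb1, hb2⟩ := Int.exists_gcd_one hg0
  set g : ℤ := (Int.gcd (b.1 - a.1) (b.2 - a.2) : ℤ) with hg
  have hgpos : 0 < g := by rw [hg]; exact_mod_cast hg0
  have hbez := Int.gcd_eq_gcd_ab e1 e2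
  rw [he] at hbez
  set α := Int.gcdA e1 e2
  set β := Int.gcdB e1 e2
  have hbez' : e1 * α + e2 * β = 1 := by simpa using hbez.symm
  have hcr : (c.1 - a.1) * e2 = (c.2 - a.2) * e1 := by
    rw [hb1, hb2] at hcross
    have : g * ((c.1 - a.1) * e2) = g * ((c.2 - a.2) * e1) := by linarith
    exact mul_left_cancel₀ hgpos.ne' this
  refine ⟨(e1, e2), α * (c.1 - a.1) + β * (c.2 - a.2), ?_, ?_, ?_, ?_, he, ?_, ?_⟩
  rotate_left 2
  · rw [hb1]; ring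
  · rw [hb2]; ring
  · simp only
    have : (α * (c.1 - a.1) + β * (c.2 - a.2)) * e1
        = (c.1 - a.1) * (e1 * α) + β * ((c.2 - a.2) * e1) := by ring
    rw [this, ← hcr]
    have : (c.1 - a.1) * (e1 * α) + β * ((c.1 - a.1) * e2)
        = (c.1 - a.1) * (e1 * α + e2 * β) := by ring
    rw [this, hbez']; ring
  · simp only
    have : (α * (c.1 - a.1) + β * (c.2 - a.2)) * e2
        = α * ((c.1 - a.1) * e2) + (c.2 - a.2) * (e2 * β) := by ring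
    rw [this, hcr]
    have : α * ((c.2 - a.2) * e1) + (c.2 - a.2) * (e2 * β)
        = (c.2 - a.2) * (e1 * α + e2 * β) := by ring
    rw [this, hbez']; ring
  all_goals
    have hk : ((α * (c.1 - a.1) + β * (c.2 - a.2) : ℤ) : ℝ) = t * g := by
      push_cast
      rw [y1, y2]
      have b1 : (b.1 : ℝ) - a.1 = g * e1 := by
        have : ((b.1 - a.1 : ℤ) : ℝ) = ((e1 * g : ℤ) : ℝ) := by rw [hb1]
        push_cast at this; linarith
      have b2 : (b.2 : ℝ) - a.2 = g * e2 := by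
        have : ((b.2 - a.2 : ℤ) : ℝ) = ((e2 * g : ℤ) : ℝ) := by rw [hb2]
        push_cast at this; linarith
      rw [b1, b2]
      have hbezR : (e1 : ℝ) * α + e2 * β = 1 := by exact_mod_cast hbez'
      linear_combination (t * g) * hbezR
    have hgR : (0 : ℝ) < g := by exact_mod_cast hgpos
  · have : (0 : ℝ) < ((α * (c.1 - a.1) + β * (c.2 - a.2) : ℤ) : ℝ) := by
      rw [hk]; positivity
    exact_mod_cast this
  · have : ((α * (c.1 - a.1) + β * (c.2 - a.2) : ℤ) : ℝ) < (g : ℝ) := by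
      rw [hk]; nlinarith
    exact_mod_cast this

/-- Primitive differences: no lattice point strictly between. -/
lemma not_between_of_gcd_one (a b c : ℤ × ℤ) (h : Int.gcd (b.1 - a.1) (b.2 - a.2) = 1) :
    toR c ∉ openSegment ℝ (toR a) (toR b) := by
  intro hc
  have hab : a ≠ b := by
    rintro rfl; simp at h
  obtain ⟨e, k, h1, h2, -⟩ := between_form a b c hab hc
  rw [h] at h2
  norm_num at h2
  omega

lemma sees_of_gcd_one (G : Set (ℤ × ℤ)) (a b : ℤ × ℤ)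
    (h : Int.gcd (b.1 - a.1) (b.2 - a.2) = 1) : Sees (toR '' G) (toR a) (toR b) := by
  refine ⟨?_, ?_⟩
  · intro hab
    have := toR_injective hab
    subst this
    simp at h
  · rintro _ ⟨c, -, rfl⟩
    exact not_between_of_gcd_one a b c h

/-- Basic fact (B): the midpoint of a pair at primitive half-distance belongs to `G`. -/
lemma Good.mid {G : Set (ℤ × ℤ)} (hG : Good G) {a b f : ℤ × ℤ} (ha : a ∈ G) (hb : b ∈ G)
    (h1 : a.1 + b.1 = 2 * f.1) (h2 : a.2 + b.2 = 2 * f.2)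
    (h : Int.gcd (f.1 - a.1) (f.2 - a.2) = 1) : f ∈ G := by
  have e1 : b.1 - a.1 = 2 * (f.1 - a.1) := by linarith
  have e2 : b.2 - a.2 = 2 * (f.2 - a.2) := by linarith
  have hgcd : Int.gcd (b.1 - a.1) (b.2 - a.2) = 2 := by
    rw [e1, e2, Int.gcd_mul_left, h]; rfl
  have hab : a ≠ b := by
    rintro rfl; simp at hgcd
  obtain ⟨c, hc, hcs⟩ := hG a ha b hb hab ⟨⟨a.1 - f.1, by linarith⟩, ⟨a.2 - f.2, by linarith⟩⟩
  obtain ⟨e, k, k1, k2, k3, k4, -, k5, k6⟩ := between_form a b c hab hcs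
  rw [hgcd] at k2 k3 k4
  have hk : k = 1 := by omega
  subst hk
  have : c = f := by
    apply Prod.ext
    · push_cast at k3; linarith
    · push_cast at k4; linarith
  rwa [← this]

/-- Conversely the midpoint of two distinct lattice points is strictly between them. -/
lemma mid_mem_openSegment (a b f : ℤ × ℤ)
    (h1 : a.1 + b.1 = 2 * f.1) (h2 : a.2 + b.2 = 2 * f.2) :
    toR f ∈ openSegment ℝ (toR a) (toR b) := by
  refine ⟨1 / 2, 1 / 2, by norm_num, by norm_num, by norm_num, ?_⟩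
  have h1' : (a.1 : ℝ) + b.1 = 2 * f.1 := by exact_mod_cast h1
  have h2' : (a.2 : ℝ) + b.2 = 2 * f.2 := by exact_mod_cast h2
  ext
  · simp [toR]; linarith
  · simp [toR]; linarith

end Pool.Agent.helper47.Vis
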