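import Pool.Agent.helper47.Vis.Defs

set_option autoImplicit false

/-!
# MP_6b3417_co, III.2 (twins) and III.3 (fill in)
-/

namespace Pool.Agent.helper47.Vis

lemma Par.R_pos {M R K : ℕ} (hp : Par M R K) : 128 ≤ R := by
  have h1 := hp.sieve
  have h2 := SQ_pos
  calc 128 = 128 * 1 * 1 := by norm_num
    _ ≤ (128 * SQ) * (8 * K + 1) := by
        apply Nat.mul_le_mul
        · exact Nat.mul_le_mul_left _ h2
        · omega
    _ ≤ R := h1

lemma Par.M_pos {M R K : ℕ} (hp : Par M R K) : 128000 ≤ M := by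
  have := hp.R_pos
  have := hp.MR
  omega

lemma Par.M_le {M R K : ℕ} (hp : Par M R K) : 1000 * M ≤ 2 ^ K := by
  refine le_trans ?_ hp.D
  have h1 : M ≤ M ^ 10 := Nat.le_self_pow (by norm_num) M
  calc 1000 * M ≤ 10 ^ 6 * M := by
        apply Nat.mul_le_mul_right; norm_num
    _ ≤ 10 ^ 6 * M ^ 10 := Nat.mul_le_mul_left _ h1

lemma Par.K_pos {M R K : ℕ} (hp : Par M R K) : 20 ≤ K := by
  by_contra h
  push Not at h
  have h1 := hp.M_le
  have h2 := hp.M_pos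
  have h3 : 2 ^ K ≤ 2 ^ 20 := Nat.pow_le_pow_right (by norm_num) h.le
  norm_num at h3
  omega

lemma Par.pow_bound {M R K : ℕ} (hp : Par M R K) : (8 : ℝ) * 2 ^ K < 2 ^ (8 * K) := by
  have h := hp.K_pos
  have h1 : (2 : ℝ) ^ (K + 3) < 2 ^ (8 * K) := by
    apply pow_lt_pow_right₀ (by norm_num)
    omega
  calc (8 : ℝ) * 2 ^ K = 2 ^ (K + 3) := by rw [pow_add]; norm_num; ring
    _ < _ := h1

/-- An interval of a family avoiding finitely many integers. -/
lemma exists_interval_avoid (S : Finset ℤ) (R : ℕ) (s : ℤ) :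
    ∃ j : ℕ, j ≤ S.card ∧ ∀ v ∈ S, ¬ (s + j * R ≤ v ∧ v < s + j * R + R) := by
  classical
  by_contra hcon
  push Not at hcon
  have h1 : ∀ j : Fin (S.card + 1), ∃ v ∈ S, s + (j : ℕ) * R ≤ v ∧ v < s + (j : ℕ) * R + R :=
    fun j => hcon j (by have := j.2; omega)
  choose f hf hf2 using h1
  have hinj : Function.Injective f := by
    intro i j hij
    have a1 := hf2 i
    have a2 := hf2 j
    rw [← hij] at a2
    by_contra hne
    rcases lt_or_gt_of_ne hne with h | h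
    · have h' : ((i : ℕ) : ℤ) + 1 ≤ ((j : ℕ) : ℤ) := by
        have : (i : ℕ) < (j : ℕ) := h
        omega
      have : (((i : ℕ) : ℤ) + 1) * R ≤ ((j : ℕ) : ℤ) * R :=
        mul_le_mul_of_nonneg_right h' (by positivity)
      nlinarith
    · have h' : ((j : ℕ) : ℤ) + 1 ≤ ((i : ℕ) : ℤ) := by
        have : (j : ℕ) < (i : ℕ) := h
        omega
      have : (((j : ℕ) : ℤ) + 1) * R ≤ ((i : ℕ) : ℤ) * R :=
        mul_le_mul_of_nonneg_right h' (by positivity)
      nlinarith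
  have h2 := Finset.card_le_card_of_injOn (s := Finset.univ) (t := S) f
    (fun i _ => hf i) (fun i _ j _ h => hinj h)
  simp at h2

lemma abs_lt_of_real {n : ℤ} {K : ℕ} (h : |(n : ℝ)| < 2 ^ K) : |n| < 2 ^ K := by
  exact_mod_cast h

/-- III.2 -/
theorem twins {M R K : ℕ} (hp : Par M R K) (G : Set (ℤ × ℤ)) (hW : Box M ⊆ G) (x a : ℤ × ℤ)
    (hx : x ∈ G) (ha : a ∈ G) (hl : SameLab x a) (hs : Sees (toR '' G) (toR x) (toR a))
    (hxh : Handled K (toR x)) (hah : Handled K (toR a)) : ¬ K5free (toR '' G) := by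
  intro hK5
  have hR := hp.R_pos
  have hMR := hp.MR
  have hML := hp.M_le
  obtain ⟨j1, hj1, hj1'⟩ := exists_interval_avoid {x.1, x.1 - 1, a.1, a.1 - 1} R 0
  obtain ⟨j2, hj2, hj2'⟩ := exists_interval_avoid {x.2, x.2 - 1, a.2, a.2 - 1} R 0
  have hc1 : ({x.1, x.1 - 1, a.1, a.1 - 1} : Finset ℤ).card ≤ 4 := Finset.card_le_four
  have hc2 : ({x.2, x.2 - 1, a.2, a.2 - 1} : Finset ℤ).card ≤ 4 := Finset.card_le_four
  simp only [zero_add] at hj1' hj2'
  have hjb : ∀ j : ℕ, j ≤ 4 → (j : ℤ) * R + R + 1 ≤ M := by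
    intro j hj
    have h1 : (j : ℤ) * R ≤ 4 * R := by
      apply mul_le_mul_of_nonneg_right _ (by positivity)
      exact_mod_cast hj
    have h2 : (1000 : ℤ) * R ≤ M := by exact_mod_cast hMR
    have h3 : (128 : ℤ) ≤ R := by exact_mod_cast hR
    linarith
  have hb1 := hjb j1 (hj1.trans hc1)
  have hb2 := hjb j2 (hj2.trans hc2)
  have hMR' : (M : ℝ) ≤ 2 ^ K := by
    have : M ≤ 2 ^ K := by omega
    exact_mod_cast this
  have hpb := hp.pow_bound
  -- size bound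
  have hsize : ∀ (v s c : ℤ), |(v : ℝ)| ≤ 2 ^ K → (s = 0 ∨ s = 1) → 0 ≤ c → c ≤ M →
      |v - s - c| < 2 ^ (8 * K) := by
    intro v s c hv hs h0 hc
    apply abs_lt_of_real
    push_cast
    have hs' : |(s : ℝ)| ≤ 1 := by rcases hs with rfl | rfl <;> simp
    have hc' : |(c : ℝ)| ≤ M := by
      rw [abs_of_nonneg (by exact_mod_cast h0)]; exact_mod_cast hc
    have h1 : |(v : ℝ) - s - c| ≤ |(v : ℝ)| + |(s : ℝ)| + |(c : ℝ)| := by
      refine (abs_sub _ _).trans ?_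
      have := abs_sub (v : ℝ) s
      linarith
    have h2K : (1 : ℝ) ≤ 2 ^ K := one_le_pow₀ (by norm_num)
    linarith
  let sh : Fin 3 → ℤ × ℤ := ![(0, 0), (1, 0), (0, 1)]
  have hsh : ∀ k, ((sh k).1 = 0 ∨ (sh k).1 = 1) ∧ ((sh k).2 = 0 ∨ (sh k).2 = 1) ∧
      ¬ ((sh k).1 = 1 ∧ (sh k).2 = 1) := by
    intro k; fin_cases k <;> simp [sh]
  have hl1 := hl.1
  have hl2 := hl.2
  obtain ⟨w, w1, w2, w3, w4, w5, w6, w7⟩ := SA R (8 * K) hp.sieve (ι := Bool × Fin 3) (by simp)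
    (fun i => ((cond i.1 x a).1 - (sh i.2).1, (cond i.1 x a).2 - (sh i.2).2))
    (x.1 + 1, x.2 + 1) (by
      rintro ⟨b, k⟩ ⟨h1, h2⟩
      obtain ⟨s1, s2, s3⟩ := hsh k
      simp only at h1 h2
      cases b <;> simp only [cond_true, cond_false] at h1 h2 <;> omega)
    (j1 * R) (j2 * R) (by
      rintro ⟨b, k⟩
      obtain ⟨s1, s2, s3⟩ := hsh k
      have hyh : Handled K (toR (cond b x a)) := by cases b <;> assumption
      have hv1 : ∀ s : ℤ, (s = 0 ∨ s = 1) → (cond b x a).1 - s ∈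
          ({x.1, x.1 - 1, a.1, a.1 - 1} : Finset ℤ) := by
        intro s hs
        cases b <;> rcases hs with rfl | rfl <;> simp
      have hv2 : ∀ s : ℤ, (s = 0 ∨ s = 1) → (cond b x a).2 - s ∈
          ({x.2, x.2 - 1, a.2, a.2 - 1} : Finset ℤ) := by
        intro s hs
        cases b <;> rcases hs with rfl | rfl <;> simp
      rcases hyh with h | h
      · left
        intro c hc1 hc2
        refine ⟨?_, ?_⟩
        · intro h0
          exact hj1' _ (hv1 _ s1) ⟨by simp only at h0; linarith, by simp only at h0; linarith⟩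
        · apply hsize _ _ _ h s1
          · have : (0 : ℤ) ≤ j1 * R := by positivity
            linarith
          · linarith
      · right
        intro c hc1 hc2
        refine ⟨?_, ?_⟩
        · intro h0
          exact hj2' _ (hv2 _ s2) ⟨by simp only at h0; linarith, by simp only at h0; linarith⟩
        · apply hsize _ _ _ h s2
          · have : (0 : ℤ) ≤ j2 * R := by positivity
            linarith
          · linarith)
  have p1 : (0 : ℤ) ≤ j1 * R := by positivity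
  have p2 : (0 : ℤ) ≤ j2 * R := by positivity
  have hwG : ∀ k, (w.1 + (sh k).1, w.2 + (sh k).2) ∈ G := by
    intro k
    obtain ⟨s1, s2, -⟩ := hsh k
    apply hW
    simp only [Box, Set.mem_ofPred_eq]
    refine ⟨?_, ?_, ?_, ?_⟩ <;> omega
  have hsee : ∀ (b : Bool) k, Sees (toR '' G) (toR (cond b x a))
      (toR (w.1 + (sh k).1, w.2 + (sh k).2)) := by
    intro b k
    apply sees_of_gcd_one
    have := w7 (b, k)
    simp only at this ⊢
    rw [← this]
    have e1 : w.1 + (sh k).1 - (cond b x a).1 = -((cond b x a).1 - (sh k).1 - w.1) := by ring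
    have e2 : w.2 + (sh k).2 - (cond b x a).2 = -((cond b x a).2 - (sh k).2 - w.2) := by ring
    rw [e1, e2, Int.gcd_neg, Int.neg_gcd]
  have hpair : ∀ k l : Fin 3, k ≠ l → Sees (toR '' G) (toR (w.1 + (sh k).1, w.2 + (sh k).2))
      (toR (w.1 + (sh l).1, w.2 + (sh l).2)) := by
    intro k l hkl
    apply sees_of_gcd_one
    simp only
    have e1 : w.1 + (sh l).1 - (w.1 + (sh k).1) = (sh l).1 - (sh k).1 := by ring
    have e2 : w.2 + (sh l).2 - (w.2 + (sh k).2) = (sh l).2 - (sh k).2 := by ring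
    rw [e1, e2]
    fin_cases k <;> fin_cases l <;> first | exact absurd rfl hkl | simp [sh]
  exact hK5.elim5 (mem_toR_image.mpr hx) (mem_toR_image.mpr ha)
    (mem_toR_image.mpr (hwG 0)) (mem_toR_image.mpr (hwG 1)) (mem_toR_image.mpr (hwG 2))
    hs (hsee true 0) (hsee true 1) (hsee true 2) (hsee false 0) (hsee false 1) (hsee false 2)
    (hpair 0 1 (by decide)) (hpair 0 2 (by decide)) (hpair 1 2 (by decide))


/-- Midpoint filling with the sieve: one target. -/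
lemma mid_box {M R K : ℕ} (hp : Par M R K) (G : Set (ℤ × ℤ)) (hG : Good G) (f A : ℤ × ℤ)
    (hbox : ∀ a : ℤ × ℤ, A.1 ≤ a.1 → a.1 < A.1 + R → A.2 ≤ a.2 → a.2 < A.2 + R →
      a ∈ G ∧ (2 * f.1 - a.1, 2 * f.2 - a.2) ∈ G)
    (hh : (∀ c : ℤ, A.1 ≤ c → c < A.1 + R → f.1 - c ≠ 0 ∧ |f.1 - c| < 2 ^ (8 * K)) ∨
      (∀ c : ℤ, A.2 ≤ c → c < A.2 + R → f.2 - c ≠ 0 ∧ |f.2 - c| < 2 ^ (8 * K))) :
    f ∈ G := by
  obtain ⟨w, w1, w2, w3, w4, -, -, w7⟩ := SA R (8 * K) hp.sieve (ι := Unit) (by simp)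
    (fun _ => f) (f.1 + 1, f.2 + 1) (by
      rintro _ ⟨h1, h2⟩
      simp only at h1
      omega) A.1 A.2 (fun _ => hh)
  obtain ⟨g1, g2⟩ := hbox w w1 w2 w3 w4
  exact hG.mid g1 g2 (by simp only; ring) (by simp only; ring) (w7 ())

/-- Choice of an integer interval of length `R` inside a real interval, avoiding an integer. -/
lemma exists_sub_interval (R : ℕ) (lo hi : ℝ) (v : ℤ) (h : lo + 3 * R ≤ hi) (hR : 1 ≤ R) :
    ∃ A : ℤ, ∀ c : ℤ, A ≤ c → c < A + R → lo ≤ c ∧ (c : ℝ) ≤ hi ∧ v ≠ c := by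
  have hR' : (1 : ℝ) ≤ R := by exact_mod_cast hR
  have h1 := Int.le_ceil lo
  have h2 := Int.ceil_lt_add_one lo
  by_cases hv : ⌈lo⌉ ≤ v ∧ v < ⌈lo⌉ + R
  · refine ⟨⌈lo⌉ + R, fun c hc1 hc2 => ⟨?_, ?_, ?_⟩⟩
    · have : ((⌈lo⌉ + R : ℤ) : ℝ) ≤ c := by exact_mod_cast hc1
      push_cast at this; linarith
    · have : (c : ℝ) < ((⌈lo⌉ + R + R : ℤ) : ℝ) := by exact_mod_cast hc2
      push_cast at this; linarith
    · rintro rfl; omega
  · refine ⟨⌈lo⌉, fun c hc1 hc2 => ⟨?_, ?_, ?_⟩⟩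
    · have : ((⌈lo⌉ : ℤ) : ℝ) ≤ c := by exact_mod_cast hc1
      linarith
    · have : (c : ℝ) < ((⌈lo⌉ + R : ℤ) : ℝ) := by exact_mod_cast hc2
      push_cast at this; linarith
    · rintro rfl; exact hv ⟨hc1, hc2⟩

/-- III.3 Lemma F2. -/
lemma fill_two {M R K : ℕ} (hp : Par M R K) (G : Set (ℤ × ℤ)) (hG : Good G) (z f : ℤ × ℤ)
    (hz : z ∈ G)
    (hg : |((z.1 - f.1 : ℤ) : ℝ)| ≤ 2 * 2 ^ K ∨ |((z.2 - f.2 : ℤ) : ℝ)| ≤ 2 * 2 ^ K)
    (hv : ∀ h : ℤ × ℤ, |h.1| ≤ 2 * R → |h.2| ≤ 2 * R →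
      (2 * f.1 - z.1 + 2 * h.1, 2 * f.2 - z.2 + 2 * h.2) ∈ G) : f ∈ G := by
  have hR := hp.R_pos
  have hRZ : (128 : ℤ) ≤ R := by exact_mod_cast hR
  have hML := hp.M_le
  have hMR := hp.MR
  have hRK : (R : ℝ) ≤ 2 ^ K := by
    have : R ≤ 2 ^ K := by omega
    exact_mod_cast this
  have hpb := hp.pow_bound
  set g : ℤ × ℤ := (z.1 - f.1, z.2 - f.2) with hgdef
  -- a class different from 0 and g
  obtain ⟨e, he0, heg⟩ : ∃ e : ℤ × ℤ, ¬ ((2 : ℤ) ∣ e.1 ∧ (2 : ℤ) ∣ e.2) ∧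
      ¬ ((2 : ℤ) ∣ g.1 - e.1 ∧ (2 : ℤ) ∣ g.2 - e.2) := by
    by_cases h : (2 : ℤ) ∣ g.1
    · refine ⟨(1, 0), by norm_num, ?_⟩
      rintro ⟨h1, -⟩
      simp only at h1
      omega
    · refine ⟨(0, 1), by norm_num, ?_⟩
      rintro ⟨h1, -⟩
      simp only [sub_zero] at h1
      exact h h1
  -- ranges
  have hrange : ∀ n : ℤ, ∃ A : ℤ, 1 ≤ A ∧ A ≤ R + 1 ∧ ∀ c : ℤ, A ≤ c → c < A + R →
      n - c ≠ 0 ∧ -n - c ≠ 0 := by
    intro n
    by_cases h : 1 ≤ |n| ∧ |n| < 1 + R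
    · refine ⟨R + 1, by linarith, le_refl _, fun c hc1 hc2 => ⟨?_, ?_⟩⟩
      · intro h0
        have : |n| = |c| := by rw [show n = c by linarith]
        rw [abs_of_pos (by linarith : 0 < c)] at this
        omega
      · intro h0
        have : |n| = |c| := by rw [show n = -c by linarith, abs_neg]
        rw [abs_of_pos (by linarith : 0 < c)] at this
        omega
    · refine ⟨1, le_refl _, by linarith, fun c hc1 hc2 => ⟨?_, ?_⟩⟩
      · intro h0
        apply h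
        rw [show n = c by linarith, abs_of_pos (by linarith : 0 < c)]
        exact ⟨hc1, by linarith⟩
      · intro h0
        apply h
        rw [show n = -c by linarith, abs_neg, abs_of_pos (by linarith : 0 < c)]
        exact ⟨hc1, by linarith⟩
  obtain ⟨A1, hA1, hA1', hA1''⟩ := hrange g.1
  obtain ⟨A2, hA2, hA2', hA2''⟩ := hrange g.2
  have hsize : ∀ (A n c : ℤ), 1 ≤ A → A ≤ R + 1 → A ≤ c → c < A + R → |(n : ℝ)| ≤ 2 * 2 ^ K →
      |n - c| < 2 ^ (8 * K) := by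
    intro A n c h1 h2 h3 h4 h5
    apply abs_lt_of_real
    push_cast
    have hc0 : (0 : ℝ) ≤ (c : ℝ) := by exact_mod_cast (by linarith : 0 ≤ c)
    have hc1 : (c : ℝ) ≤ 2 * R := by
      have : c ≤ 2 * R := by linarith
      exact_mod_cast this
    have := abs_sub (n : ℝ) c
    rw [abs_of_nonneg hc0] at this
    linarith
  let T : Fin 3 → ℤ × ℤ := ![(0, 0), g, (-g.1, -g.2)]
  obtain ⟨w, w1, w2, w3, w4, -, -, w7⟩ := SA R (8 * K) hp.sieve (ι := Fin 3) (by simp)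
    T e (by
      intro i
      fin_cases i
      · rintro ⟨h1, h2⟩
        simp only [T, Fin.zero_eta, Matrix.cons_val_zero] at h1 h2
        exact he0 ⟨by omega, by omega⟩
      · simpa [T] using heg
      · rintro ⟨h1, h2⟩
        simp [T] at h1 h2
        exact heg ⟨by omega, by omega⟩) A1 A2 (by
      intro i
      have hz0 : |((0 : ℤ) : ℝ)| ≤ 2 * 2 ^ K := by simp
      fin_cases i
      · left
        intro c hc1 hc2
        simp only [T, Fin.zero_eta, Matrix.cons_val_zero]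
        exact ⟨by omega, hsize A1 0 c hA1 hA1' hc1 hc2 hz0⟩
      · rcases hg with h | h
        · left
          intro c hc1 hc2
          simp only [T, Fin.mk_one, Matrix.cons_val_one]
          exact ⟨(hA1'' c hc1 hc2).1, hsize A1 _ c hA1 hA1' hc1 hc2 h⟩
        · right
          intro c hc1 hc2
          simp only [T, Fin.mk_one, Matrix.cons_val_one]
          exact ⟨(hA2'' c hc1 hc2).1, hsize A2 _ c hA2 hA2' hc1 hc2 h⟩
      · rcases hg with h | h
        · left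
          intro c hc1 hc2
          have hh : |((-g.1 : ℤ) : ℝ)| ≤ 2 * 2 ^ K := by push_cast; rw [abs_neg]; exact_mod_cast h
          simp only [T, Fin.reduceFinMk, Matrix.cons_val]
          exact ⟨(hA1'' c hc1 hc2).2, hsize A1 _ c hA1 hA1' hc1 hc2 hh⟩
        · right
          intro c hc1 hc2
          have hh : |((-g.2 : ℤ) : ℝ)| ≤ 2 * 2 ^ K := by push_cast; rw [abs_neg]; exact_mod_cast h
          simp only [T, Fin.reduceFinMk, Matrix.cons_val]
          exact ⟨(hA2'' c hc1 hc2).2, hsize A2 _ c hA2 hA2' hc1 hc2 hh⟩)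
  have g0 := w7 0
  have g1 := w7 1
  have g2 := w7 2
  simp only [T, Matrix.cons_val_zero, zero_sub, Matrix.cons_val_one, Matrix.cons_val] at g0 g1 g2
  have hw1 : |w.1| ≤ 2 * R := by
    rw [abs_of_pos (by linarith)]; omega
  have hw2 : |w.2| ≤ 2 * R := by
    rw [abs_of_pos (by linarith)]; omega
  have q1 := hv w hw1 hw2
  have q2 := hv (-w.1, -w.2) (by simpa using hw1) (by simpa using hw2)
  -- f + w
  have f1 : (f.1 + w.1, f.2 + w.2) ∈ G := by
    apply hG.mid hz q1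
    · simp only; ring
    · simp only; ring
    · simp only
      rw [← g1]
      have e1 : f.1 + w.1 - z.1 = -(g.1 - w.1) := by simp only [g]; ring
      have e2 : f.2 + w.2 - z.2 = -(g.2 - w.2) := by simp only [g]; ring
      rw [e1, e2, Int.gcd_neg, Int.neg_gcd]
  have f2 : (f.1 - w.1, f.2 - w.2) ∈ G := by
    apply hG.mid hz q2
    · simp only; ring
    · simp only; ring
    · simp only
      rw [← g2]
      have e1 : f.1 - w.1 - z.1 = -g.1 - w.1 := by simp only [g]; ring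
      have e2 : f.2 - w.2 - z.2 = -g.2 - w.2 := by simp only [g]; ring
      rw [e1, e2]
  apply hG.mid f1 f2
  · simp only; ring
  · simp only; ring
  · simp only
    rw [← g0]
    have e1 : f.1 - (f.1 + w.1) = -w.1 := by ring
    have e2 : f.2 - (f.2 + w.2) = -w.2 := by ring
    rw [e1, e2]

lemma fill_half {M R K : ℕ} (hp : Par M R K) (G : Set (ℤ × ℤ)) (hG : Good G) (hW : Box M ⊆ G)
    (z : ℤ × ℤ) (hz : z ∈ G) (hzh : Handled K (toR z)) (f : ℤ × ℤ)
    (hf : InS M z (1 / 2) (2 * R) f) : f ∈ G := by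
  obtain ⟨f1, f2, f3, f4⟩ := hf
  have hML : (1000 : ℝ) * M ≤ 2 ^ K := by exact_mod_cast hp.M_le
  have hM0 : (0 : ℝ) ≤ M := by positivity
  have hR0 : (0 : ℝ) ≤ R := by positivity
  apply fill_two hp G hG z f hz
  · rcases hzh with h | h
    · left
      simp only [toR_fst] at h
      rw [abs_le] at h ⊢
      push_cast
      constructor <;> linarith
    · right
      simp only [toR_snd] at h
      rw [abs_le] at h ⊢
      push_cast
      constructor <;> linarith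
  · intro h h1 h2
    apply hW
    simp only [Box, Set.mem_ofPred_eq]
    rw [abs_le] at h1 h2
    have k1 : -(2 * (R : ℝ)) ≤ h.1 ∧ (h.1 : ℝ) ≤ 2 * R := by
      constructor
      · exact_mod_cast h1.1
      · exact_mod_cast h1.2
    have k2 : -(2 * (R : ℝ)) ≤ h.2 ∧ (h.2 : ℝ) ≤ 2 * R := by
      constructor
      · exact_mod_cast h2.1
      · exact_mod_cast h2.2
    refine ⟨?_, ?_, ?_, ?_⟩
    · have : (0 : ℝ) ≤ ((2 * f.1 - z.1 + 2 * h.1 : ℤ) : ℝ) := by push_cast; linarith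
      exact_mod_cast this
    · have : ((2 * f.1 - z.1 + 2 * h.1 : ℤ) : ℝ) ≤ (M : ℝ) := by push_cast; linarith
      exact_mod_cast this
    · have : (0 : ℝ) ≤ ((2 * f.2 - z.2 + 2 * h.2 : ℤ) : ℝ) := by push_cast; linarith
      exact_mod_cast this
    · have : ((2 * f.2 - z.2 + 2 * h.2 : ℤ) : ℝ) ≤ (M : ℝ) := by push_cast; linarith
      exact_mod_cast this

/-- III.3, the slice `s = 3/4` with the thin margin `3R`. -/
theorem fill34 {M R K : ℕ} (hp : Par M R K) (G : Set (ℤ × ℤ)) (hG : Good G) (hW : Box M ⊆ G)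
    (z : ℤ × ℤ) (hz : z ∈ G) (hzh : Handled K (toR z)) (f : ℤ × ℤ)
    (hf : InS M z (3 / 4) (3 * R) f) : f ∈ G := by
  obtain ⟨f1, f2, f3, f4⟩ := hf
  have hML : (1000 : ℝ) * M ≤ 2 ^ K := by exact_mod_cast hp.M_le
  have hM0 : (0 : ℝ) ≤ M := by positivity
  have hR0 : (0 : ℝ) ≤ R := by positivity
  apply fill_two hp G hG z f hz
  · rcases hzh with h | h
    · left
      simp only [toR_fst] at h
      rw [abs_le] at h ⊢
      push_cast
      constructor <;> linarith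
    · right
      simp only [toR_snd] at h
      rw [abs_le] at h ⊢
      push_cast
      constructor <;> linarith
  · intro h h1 h2
    apply fill_half hp G hG hW z hz hzh
    rw [abs_le] at h1 h2
    have k1 : -(2 * (R : ℝ)) ≤ h.1 ∧ (h.1 : ℝ) ≤ 2 * R := by
      constructor
      · exact_mod_cast h1.1
      · exact_mod_cast h1.2
    have k2 : -(2 * (R : ℝ)) ≤ h.2 ∧ (h.2 : ℝ) ≤ 2 * R := by
      constructor
      · exact_mod_cast h2.1
      · exact_mod_cast h2.2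
    refine ⟨?_, ?_, ?_, ?_⟩ <;> (push_cast; linarith)

/-- First doubling step. -/
lemma step_low {M R K : ℕ} (hp : Par M R K) (G : Set (ℤ × ℤ)) (hG : Good G) (hW : Box M ⊆ G)
    (z : ℤ × ℤ) (hzh : Handled K (toR z)) (s : ℝ) (hs0 : 0 ≤ s) (hs1 : s ≤ 3 / 8)
    (ih : ∀ f : ℤ × ℤ, InS M z (2 * s) (8 * R) f → f ∈ G) (f : ℤ × ℤ)
    (hf : InS M z s (8 * R) f) : f ∈ G := by
  obtain ⟨f1, f2, f3, f4⟩ := hf
  have hML : (1000 : ℝ) * M ≤ 2 ^ K := by exact_mod_cast hp.M_le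
  have hMR : (1000 : ℝ) * R ≤ M := by exact_mod_cast hp.MR
  have hM0 : (0 : ℝ) ≤ M := by positivity
  have hR0 : (0 : ℝ) ≤ R := by positivity
  have hR1 : 1 ≤ R := by have := hp.R_pos; omega
  have hsM : s * M ≤ 3 / 8 * M := mul_le_mul_of_nonneg_right hs1 hM0
  have hsM0 : 0 ≤ s * M := mul_nonneg hs0 hM0
  have hpb := hp.pow_bound
  -- one coordinate
  have key : ∀ (φ ζ : ℤ), 8 * (R : ℝ) ≤ φ - s * ζ → (φ : ℝ) - s * ζ ≤ (1 - s) * M - 8 * R →
      ∃ A : ℤ, ∀ c : ℤ, A ≤ c → c < A + R →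
        (0 ≤ c ∧ c ≤ M) ∧ (8 * (R : ℝ) ≤ ((2 * φ - c : ℤ) : ℝ) - (2 * s) * ζ ∧
          ((2 * φ - c : ℤ) : ℝ) - (2 * s) * ζ ≤ (1 - 2 * s) * M - 8 * R) ∧ φ ≠ c := by
    intro φ ζ h1 h2
    set t : ℝ := φ - s * ζ with ht
    obtain ⟨A, hA⟩ := exists_sub_interval R (max 0 (2 * t - (1 - 2 * s) * M + 8 * R))
      (min M (2 * t - 8 * R)) φ (by
        rw [← max_add_add_right, max_le_iff]
        constructor
        · rw [le_min_iff]; constructor <;> linarith
        · rw [le_min_iff]; constructor <;> linarith) hR1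
    refine ⟨A, fun c hc1 hc2 => ?_⟩
    obtain ⟨g1, g2, g3⟩ := hA c hc1 hc2
    rw [max_le_iff] at g1
    rw [le_min_iff] at g2
    refine ⟨⟨by exact_mod_cast g1.1, by exact_mod_cast g2.1⟩, ⟨?_, ?_⟩, g3⟩
    · push_cast; linarith
    · push_cast; linarith
  obtain ⟨A1, hA1⟩ := key f.1 z.1 f1 f2
  obtain ⟨A2, hA2⟩ := key f.2 z.2 f3 f4
  apply mid_box hp G hG f (A1, A2)
  · intro a a1 a2 a3 a4
    obtain ⟨b1, b2, -⟩ := hA1 a.1 a1 a2
    obtain ⟨b3, b4, -⟩ := hA2 a.2 a3 a4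
    refine ⟨hW ⟨b1.1, b1.2, b3.1, b3.2⟩, ih _ ⟨b2.1, b2.2, b4.1, b4.2⟩⟩
  · have hsz : ∀ (φ ζ c : ℤ), |(ζ : ℝ)| ≤ 2 ^ K → 8 * (R : ℝ) ≤ φ - s * ζ →
        (φ : ℝ) - s * ζ ≤ (1 - s) * M - 8 * R → 0 ≤ c → c ≤ M → |φ - c| < 2 ^ (8 * K) := by
      intro φ ζ c h1 h2 h3 h4 h5
      apply abs_lt_of_real
      push_cast
      have h4' : (0 : ℝ) ≤ c := by exact_mod_cast h4
      have h5' : (c : ℝ) ≤ M := by exact_mod_cast h5
      have h6 : |s * ζ| ≤ 2 ^ K := by
        rw [abs_mul, abs_of_nonneg hs0]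
        have h7 : (0 : ℝ) ≤ |(ζ : ℝ)| := abs_nonneg _
        nlinarith
      rw [abs_le] at h6
      rw [abs_lt]
      constructor <;> linarith
    rcases hzh with h | h
    · left
      intro c hc1 hc2
      obtain ⟨b1, b2, b3⟩ := hA1 c hc1 hc2
      exact ⟨sub_ne_zero.mpr b3, hsz f.1 z.1 c h f1 f2 b1.1 b1.2⟩
    · right
      intro c hc1 hc2
      obtain ⟨b1, b2, b3⟩ := hA2 c hc1 hc2
      exact ⟨sub_ne_zero.mpr b3, hsz f.2 z.2 c h f3 f4 b1.1 b1.2⟩

/-- Second doubling step. -/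
lemma step_high {M R K : ℕ} (hp : Par M R K) (G : Set (ℤ × ℤ)) (hG : Good G) (hW : Box M ⊆ G)
    (z : ℤ × ℤ) (hz : z ∈ G) (hzh : Handled K (toR z)) (s : ℝ) (hs0 : 3 / 8 ≤ s)
    (hs1 : s ≤ 3 / 4)
    (ih : ∀ f : ℤ × ℤ, InS M z (2 * s - 3 / 4) (8 * R) f → f ∈ G) (f : ℤ × ℤ)
    (hf : InS M z s (8 * R) f) : f ∈ G := by
  obtain ⟨f1, f2, f3, f4⟩ := hf
  have hML : (1000 : ℝ) * M ≤ 2 ^ K := by exact_mod_cast hp.M_le
  have hMR : (1000 : ℝ) * R ≤ M := by exact_mod_cast hp.MR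
  have hM0 : (0 : ℝ) ≤ M := by positivity
  have hR0 : (0 : ℝ) ≤ R := by positivity
  have hR1 : 1 ≤ R := by have := hp.R_pos; omega
  have hsM : s * M ≤ 3 / 4 * M := mul_le_mul_of_nonneg_right hs1 hM0
  have hsM0 : 3 / 8 * M ≤ s * M := mul_le_mul_of_nonneg_right hs0 hM0
  have hpb := hp.pow_bound
  have key : ∀ (φ ζ : ℤ), 8 * (R : ℝ) ≤ φ - s * ζ → (φ : ℝ) - s * ζ ≤ (1 - s) * M - 8 * R →
      ∃ A : ℤ, ∀ c : ℤ, A ≤ c → c < A + R →
        (3 * (R : ℝ) ≤ (c : ℝ) - 3 / 4 * ζ ∧ (c : ℝ) - 3 / 4 * ζ ≤ (1 - 3 / 4) * M - 3 * R) ∧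
        (8 * (R : ℝ) ≤ ((2 * φ - c : ℤ) : ℝ) - (2 * s - 3 / 4) * ζ ∧
          ((2 * φ - c : ℤ) : ℝ) - (2 * s - 3 / 4) * ζ ≤ (1 - (2 * s - 3 / 4)) * M - 8 * R) ∧
        φ ≠ c := by
    intro φ ζ h1 h2
    set t : ℝ := φ - s * ζ with ht
    obtain ⟨A, hA⟩ := exists_sub_interval R
      ((3 / 4 : ℝ) * ζ + max (3 * (R : ℝ)) (2 * t - (1 - (2 * s - 3 / 4)) * M + 8 * R))
      ((3 / 4 : ℝ) * ζ + min ((1 - 3 / 4) * (M : ℝ) - 3 * R) (2 * t - 8 * R)) φ (by
        rw [add_assoc, add_le_add_iff_left, ← max_add_add_right, max_le_iff]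
        constructor
        · rw [le_min_iff]; constructor <;> linarith
        · rw [le_min_iff]; constructor <;> linarith) hR1
    refine ⟨A, fun c hc1 hc2 => ?_⟩
    obtain ⟨g1, g2, g3⟩ := hA c hc1 hc2
    have g1' : max (3 * (R : ℝ)) (2 * t - (1 - (2 * s - 3 / 4)) * M + 8 * R) ≤ c - 3 / 4 * ζ := by
      linarith
    have g2' : (c : ℝ) - 3 / 4 * ζ ≤ min ((1 - 3 / 4) * (M : ℝ) - 3 * R) (2 * t - 8 * R) := by
      linarith
    rw [max_le_iff] at g1'
    rw [le_min_iff] at g2'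
    refine ⟨⟨g1'.1, g2'.1⟩, ⟨?_, ?_⟩, g3⟩
    · push_cast; linarith
    · push_cast; linarith
  obtain ⟨A1, hA1⟩ := key f.1 z.1 f1 f2
  obtain ⟨A2, hA2⟩ := key f.2 z.2 f3 f4
  apply mid_box hp G hG f (A1, A2)
  · intro a a1 a2 a3 a4
    obtain ⟨b1, b2, -⟩ := hA1 a.1 a1 a2
    obtain ⟨b3, b4, -⟩ := hA2 a.2 a3 a4
    refine ⟨fill34 hp G hG hW z hz hzh a ⟨b1.1, b1.2, b3.1, b3.2⟩,
      ih _ ⟨b2.1, b2.2, b4.1, b4.2⟩⟩
  · have hsz : ∀ (φ ζ c : ℤ), |(ζ : ℝ)| ≤ 2 ^ K → 8 * (R : ℝ) ≤ φ - s * ζ →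
        (φ : ℝ) - s * ζ ≤ (1 - s) * M - 8 * R → 3 * (R : ℝ) ≤ (c : ℝ) - 3 / 4 * ζ →
        (c : ℝ) - 3 / 4 * ζ ≤ (1 - 3 / 4) * M - 3 * R → |φ - c| < 2 ^ (8 * K) := by
      intro φ ζ c h1 h2 h3 h4 h5
      apply abs_lt_of_real
      push_cast
      have h6 : |s * ζ| ≤ 2 ^ K := by
        rw [abs_mul, abs_of_nonneg (by linarith)]
        have h7 : (0 : ℝ) ≤ |(ζ : ℝ)| := abs_nonneg _
        nlinarith
      rw [abs_le] at h6 h1
      rw [abs_lt]
      constructor <;> linarith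
    rcases hzh with h | h
    · left
      intro c hc1 hc2
      obtain ⟨b1, b2, b3⟩ := hA1 c hc1 hc2
      exact ⟨sub_ne_zero.mpr b3, hsz f.1 z.1 c h f1 f2 b1.1 b1.2⟩
    · right
      intro c hc1 hc2
      obtain ⟨b1, b2, b3⟩ := hA2 c hc1 hc2
      exact ⟨sub_ne_zero.mpr b3, hsz f.2 z.2 c h f3 f4 b1.1 b1.2⟩


lemma fill_zero {M R K : ℕ} (_hp : Par M R K) (G : Set (ℤ × ℤ)) (hW : Box M ⊆ G)
    (z f : ℤ × ℤ) (hf : InS M z 0 (8 * R) f) : f ∈ G := by
  obtain ⟨f1, f2, f3, f4⟩ := hf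
  have hR0 : (0 : ℝ) ≤ R := by positivity
  apply hW
  refine ⟨?_, ?_, ?_, ?_⟩
  · have : (0 : ℝ) ≤ (f.1 : ℝ) := by linarith
    exact_mod_cast this
  · have : (f.1 : ℝ) ≤ (M : ℝ) := by linarith
    exact_mod_cast this
  · have : (0 : ℝ) ≤ (f.2 : ℝ) := by linarith
    exact_mod_cast this
  · have : (f.2 : ℝ) ≤ (M : ℝ) := by linarith
    exact_mod_cast this

lemma InS.mono {M : ℕ} {z : ℤ × ℤ} {s μ ν : ℝ} {f : ℤ × ℤ} (h : InS M z s μ f) (hν : ν ≤ μ) :
    InS M z s ν f := by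
  obtain ⟨f1, f2, f3, f4⟩ := h
  exact ⟨by linarith, by linarith, by linarith, by linarith⟩

/-- Dyadic slices. -/
lemma fill_dyadic {M R K : ℕ} (hp : Par M R K) (G : Set (ℤ × ℤ)) (hG : Good G) (hW : Box M ⊆ G)
    (z : ℤ × ℤ) (hz : z ∈ G) (hzh : Handled K (toR z)) (m : ℕ) :
    ∀ j : ℕ, (j : ℝ) / 2 ^ m ≤ 3 / 4 → ∀ f : ℤ × ℤ, InS M z ((j : ℝ) / 2 ^ m) (8 * R) f →
      f ∈ G := by
  have hR0 : (0 : ℝ) ≤ R := by positivity
  have h0 : ∀ f : ℤ × ℤ, InS M z 0 (8 * R) f → f ∈ G := fun f hf => fill_zero hp G hW z f hf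
  have h12 : ∀ f : ℤ × ℤ, InS M z (1 / 2) (8 * R) f → f ∈ G := fun f hf =>
    fill_half hp G hG hW z hz hzh f (hf.mono (by linarith))
  have h34 : ∀ f : ℤ × ℤ, InS M z (3 / 4) (8 * R) f → f ∈ G := fun f hf =>
    fill34 hp G hG hW z hz hzh f (hf.mono (by linarith))
  have h14 : ∀ f : ℤ × ℤ, InS M z (1 / 4) (8 * R) f → f ∈ G := fun f hf =>
    step_low hp G hG hW z hzh (1 / 4) (by norm_num) (by norm_num)
      (fun f' hf' => h12 f' (by norm_num at hf' ⊢; exact hf')) f hf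
  induction m with
  | zero =>
    intro j hj f hf
    have hj0 : j = 0 := by
      by_contra hne
      have : (1 : ℝ) ≤ j := by exact_mod_cast Nat.one_le_iff_ne_zero.mpr hne
      norm_num at hj
      linarith
    subst hj0
    apply h0
    simpa using hf
  | succ m ih =>
    intro j hj f hf
    have h2m : (0 : ℝ) < 2 ^ m := by positivity
    by_cases hlow : (j : ℝ) / 2 ^ (m + 1) ≤ 3 / 8
    · apply step_low hp G hG hW z hzh _ (by positivity) hlow _ f hf
      intro f' hf'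
      have e : 2 * ((j : ℝ) / 2 ^ (m + 1)) = (j : ℝ) / 2 ^ m := by
        rw [pow_succ]; field_simp
      rw [e] at hf'
      apply ih j _ f' hf'
      rw [← e]; linarith
    · push Not at hlow
      rcases Nat.lt_or_ge m 2 with hm | hm
      · -- m + 1 = 1 or 2 : slices 1/2 or 3/4
        interval_cases m
        · norm_num at hj hlow
          have hj1 : j = 1 := by
            have a1 : (j : ℝ) < 2 := by linarith
            have a2 : (0 : ℝ) < j := by linarith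
            have a1' : j < 2 := by exact_mod_cast a1
            have a2' : 0 < j := by exact_mod_cast a2
            omega
          subst hj1
          apply h12
          norm_num at hf ⊢
          exact hf
        · norm_num at hj hlow
          have a1 : (j : ℝ) < 4 := by linarith
          have a2 : (1 : ℝ) < j := by linarith
          have a1' : j < 4 := by exact_mod_cast a1
          have a2' : 1 < j := by exact_mod_cast a2
          interval_cases j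
          · apply h12
            norm_num at hf ⊢
            exact hf
          · apply h34
            norm_num at hf ⊢
            exact hf
      · obtain ⟨n, rfl⟩ := Nat.exists_eq_add_of_le hm
        have h2n : (0 : ℝ) < 2 ^ n := by positivity
        have hjbig : 3 * 2 ^ n ≤ j := by
          have : (3 : ℝ) * 2 ^ n < j := by
            have e : (2 : ℝ) ^ (2 + n + 1) = 8 * 2 ^ n := by
              rw [show 2 + n + 1 = n + 3 by ring, pow_add]; norm_num; ring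
            rw [e, lt_div_iff₀ (by positivity)] at hlow
            linarith
          have h' : (3 * 2 ^ n : ℕ) < j := by exact_mod_cast this
          exact h'.le
        apply step_high hp G hG hW z hz hzh _ hlow.le hj _ f hf
        intro f' hf'
        have e : 2 * ((j : ℝ) / 2 ^ (2 + n + 1)) - 3 / 4
            = ((j - 3 * 2 ^ n : ℕ) : ℝ) / 2 ^ (2 + n) := by
          rw [Nat.cast_sub hjbig]
          push_cast
          have e1 : (2 : ℝ) ^ (2 + n + 1) = 8 * 2 ^ n := by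
            rw [show 2 + n + 1 = n + 3 by ring, pow_add]; norm_num; ring
          have e2 : (2 : ℝ) ^ (2 + n) = 4 * 2 ^ n := by
            rw [pow_add]; norm_num
          rw [e1, e2]
          field_simp
          ring
        rw [e] at hf'
        apply ih _ _ f' hf'
        rw [← e]; linarith

/-- III.3, all slices. -/
theorem fill {M R K : ℕ} (hp : Par M R K) (G : Set (ℤ × ℤ)) (hG : Good G) (hW : Box M ⊆ G)
    (z : ℤ × ℤ) (hz : z ∈ G) (hzh : Handled K (toR z)) (s : ℝ) (hs0 : 0 ≤ s) (hs1 : s ≤ 3 / 4)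
    (f : ℤ × ℤ) (hf : InS M z s (9 * R) f) : f ∈ G := by
  have hR1 : (1 : ℝ) ≤ R := by
    have := hp.R_pos
    exact_mod_cast (by omega : 1 ≤ R)
  have hM0 : (0 : ℝ) ≤ M := by positivity
  -- a dyadic approximation
  obtain ⟨m, hm⟩ := pow_unbounded_of_one_lt (|(z.1 : ℝ)| + |(z.2 : ℝ)| + M) (one_lt_two : (1 : ℝ) < 2)
  have h2m : (0 : ℝ) < 2 ^ m := by positivity
  set j : ℕ := ⌊s * 2 ^ m⌋₊ with hj
  have hj1 : (j : ℝ) ≤ s * 2 ^ m := Nat.floor_le (by positivity)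
  have hj2 : s * 2 ^ m < j + 1 := Nat.lt_floor_add_one _
  have hs' : (j : ℝ) / 2 ^ m ≤ s := by rw [div_le_iff₀ h2m]; exact hj1
  have hs'' : s - (j : ℝ) / 2 ^ m < 1 / 2 ^ m := by
    have : s < ((j : ℝ) + 1) / 2 ^ m := by rw [lt_div_iff₀ h2m]; exact hj2
    rw [add_div] at this
    linarith
  apply fill_dyadic hp G hG hW z hz hzh m j (hs'.trans hs1)
  set s' : ℝ := (j : ℝ) / 2 ^ m
  obtain ⟨f1, f2, f3, f4⟩ := hf
  have hδ : ∀ ζ : ℝ, |ζ| ≤ 2 ^ m → |(s - s') * ζ| ≤ 1 := by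
    intro ζ hζ
    rw [abs_mul, abs_of_nonneg (by linarith)]
    have h0 : 0 ≤ |ζ| := abs_nonneg _
    calc (s - s') * |ζ| ≤ (1 / 2 ^ m) * 2 ^ m := by
          apply mul_le_mul hs''.le hζ h0 (by positivity)
      _ = 1 := by field_simp
  have b1 := hδ z.1 (by have := abs_nonneg (z.2 : ℝ); linarith)
  have b2 := hδ z.2 (by have := abs_nonneg (z.1 : ℝ); linarith)
  rw [abs_le] at b1 b2
  have hsM : s' * M ≤ s * M := mul_le_mul_of_nonneg_right hs' hM0
  refine ⟨?_, ?_, ?_, ?_⟩ <;> nlinarith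

end Pool.Agent.helper47.Vis
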