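import Pool.Agent.helper47.Vis.Defs

set_option autoImplicit false

/-!
# MP_6b3417_co, part II.6-II.9 (parallel rows): definitions
-/

namespace Pool.Agent.helper47.Vis

/-- Affine functional number `i` of the projective map with matrix `A`. -/
def aff (A : Matrix (Fin 3) (Fin 3) ℝ) (i : Fin 3) (p : ℝ × ℝ) : ℝ :=
  A i 0 * p.1 + A i 1 * p.2 + A i 2

/-- The projective map with matrix `A`. -/
noncomputable def pmap (A : Matrix (Fin 3) (Fin 3) ℝ) (p : ℝ × ℝ) : ℝ × ℝ :=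
  (aff A 0 p / aff A 2 p, aff A 1 p / aff A 2 p)

/-- The hypothesis of the theorem `vanishing`: the positive side of `P` contains, in the
projective chart `A`, exactly the lattice points of the square `[0,M]²`. -/
def WindowHyp (P : Set (ℝ × ℝ)) (A : Matrix (Fin 3) (Fin 3) ℝ) (M : ℕ) : Prop :=
  A.det ≠ 0 ∧ toR '' Box M ⊆ pmap A '' {p ∈ P | 0 < aff A 2 p} ∧
  ∀ p ∈ P, 0 < aff A 2 p → 0 ≤ (pmap A p).1 → (pmap A p).1 ≤ M → 0 ≤ (pmap A p).2 →
      (pmap A p).2 ≤ M → pmap A p ∈ toR '' Box M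

/-- The points of `V` with heights in `[η 0, η J]` form `J + 1` horizontal rows; row `i` is
`x i 0 < ... < x i (n i - 1)` at height `η i`. -/
structure Rows (V : Set (ℝ × ℝ)) (J : ℕ) (η : ℕ → ℝ) (n : ℕ → ℕ) (x : ℕ → ℕ → ℝ) : Prop where
  hη : ∀ i, i < J → η i < η (i + 1)
  hx : ∀ i, i ≤ J → ∀ j k, j < k → k < n i → x i j < x i k
  mem : ∀ i, i ≤ J → ∀ j, j < n i → (x i j, η i) ∈ V
  only : ∀ p ∈ V, η 0 ≤ p.2 → p.2 ≤ η J → ∃ i ≤ J, ∃ j < n i, p = (x i j, η i)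

/-- Position of `y` with respect to the increasing sequence `u 0 < ... < u (n - 1)`:
`2 m` if `u (m-1) < y < u m`, and `2 m + 1` if `y = u m`. -/
noncomputable def pos (n : ℕ) (u : ℕ → ℝ) (y : ℝ) : ℕ :=
  2 * Set.ncard {m : ℕ | m < n ∧ u m < y} + Set.ncard {m : ℕ | m < n ∧ u m = y}

/-- Abscissa at height `η (i+1)` of the segment from point `j` of row `i` to point `k` of row
`i + 2`. -/
noncomputable def cross (η : ℕ → ℝ) (x : ℕ → ℕ → ℝ) (i j k : ℕ) : ℝ :=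
  ((η (i + 2) - η (i + 1)) * x i j + (η (i + 1) - η i) * x (i + 2) k) / (η (i + 2) - η i)

/-- Abscissa at height `h` of the segment from `(a, η₀)` to `(c, η₁)`. -/
noncomputable def side (η₀ η₁ a c h : ℝ) : ℝ := ((η₁ - h) * a + (h - η₀) * c) / (η₁ - η₀)

/-- An exact system of windows `[l i, r i]` in the rows: the pair `(j, k)` of points of the rows
`i` and `i + 2` is blocked whenever `j + k + c i` is odd, by the point number
`(j + k + c i - 1) / 2` of row `i + 1`, which belongs to the window of row `i + 1`. -/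
structure Exact (J : ℕ) (η : ℕ → ℝ) (n : ℕ → ℕ) (x : ℕ → ℕ → ℝ) (l r : ℕ → ℕ) (c : ℕ → ℤ)
    (W : ℕ) : Prop where
  len : ∀ i, i ≤ J → l i + W ≤ r i ∧ r i < n i
  rel : ∀ i, i + 2 ≤ J → ∀ j k : ℕ, l i ≤ j → j ≤ r i → l (i + 2) ≤ k → k ≤ r (i + 2) →
    ∀ m : ℤ, (j : ℤ) + k + c i = 2 * m + 1 →
      ∃ m' : ℕ, (m' : ℤ) = m ∧ l (i + 1) ≤ m' ∧ m' ≤ r (i + 1) ∧ x (i + 1) m' = cross η x i j k

end Pool.Agent.helper47.Vis
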