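import Pool.Agent.helper88.Vis.Defs

set_option autoImplicit false

/-!
# MP_6b3417_co, module I-B2: sector lemma and successor lemma
-/

namespace Pool.Agent.helper47.Vis

open Pool.Agent.helper88.Vis

/-- `p` is in the half-open half-plane (seen from `z`) before the direction of `x`. -/
def Before (z x p : ℝ × ℝ) : Prop :=
  0 < ori z p x ∨ (ori z p x = 0 ∧ 0 < (p.1 - z.1) * (x.1 - z.1) + (p.2 - z.2) * (x.2 - z.2))

lemma sq_pos_of_inner (a1 a2 d1 d2 : ℝ) (h : 0 < a1 * d1 + a2 * d2) : 0 < d1 * d1 + d2 * d2 := by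
  have h1 := mul_self_nonneg d1
  have h2 := mul_self_nonneg d2
  by_contra hcon
  have h3 : d1 * d1 = 0 := by linarith
  have h4 : d2 * d2 = 0 := by linarith
  rw [mul_self_eq_zero.mp h3, mul_self_eq_zero.mp h4] at h
  simp at h

lemma before_trans {z x p q r : ℝ × ℝ} (hp : Before z x p) (hq : Before z x q)
    (hr : Before z x r) (h1 : 0 < ori z p q) (h2 : 0 < ori z q r) : 0 < ori z p r := by
  unfold Before at hp hq hr
  unfold ori at *
  set a1 := p.1 - z.1
  set a2 := p.2 - z.2
  set b1 := q.1 - z.1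
  set b2 := q.2 - z.2
  set c1 := r.1 - z.1
  set c2 := r.2 - z.2
  set d1 := x.1 - z.1
  set d2 := x.2 - z.2
  -- Pluecker identity
  have key : (a1 * c2 - a2 * c1) * (b1 * d2 - b2 * d1) =
      (a1 * b2 - a2 * b1) * (c1 * d2 - c2 * d1) + (b1 * c2 - b2 * c1) * (a1 * d2 - a2 * d1) := by
    ring
  have hp0 : 0 ≤ a1 * d2 - a2 * d1 := by rcases hp with h | h <;> linarith
  have hq0 : 0 ≤ b1 * d2 - b2 * d1 := by rcases hq with h | h <;> linarith
  have hr0 : 0 ≤ c1 * d2 - c2 * d1 := by rcases hr with h | h <;> linarith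
  -- q is not on the ray of x, because r comes after q
  have hqpos : 0 < b1 * d2 - b2 * d1 := by
    rcases hq with h | ⟨h, h'⟩
    · exact h
    · exfalso
      -- b = lambda d with lambda > 0, so det(b,c) = lambda det(d,c) <= 0
      have hd : 0 < d1 * d1 + d2 * d2 := sq_pos_of_inner _ _ _ _ h'
      have e : (b1 * c2 - b2 * c1) * (d1 * d1 + d2 * d2)
          = -((b1 * d1 + b2 * d2) * (c1 * d2 - c2 * d1)) + (b1 * d2 - b2 * d1) * (c1 * d1 + c2 * d2) := by
        ring
      rw [h, zero_mul, add_zero] at e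
      have h5 : 0 < (b1 * c2 - b2 * c1) * (d1 * d1 + d2 * d2) := mul_pos h2 hd
      have h6 : 0 ≤ (b1 * d1 + b2 * d2) * (c1 * d2 - c2 * d1) := mul_nonneg h'.le hr0
      linarith
  by_contra hcon
  push Not at hcon
  have h7 : (a1 * c2 - a2 * c1) * (b1 * d2 - b2 * d1) ≤ 0 :=
    mul_nonpos_of_nonpos_of_nonneg hcon hqpos.le
  rw [key] at h7
  have h8 : 0 ≤ (a1 * b2 - a2 * b1) * (c1 * d2 - c2 * d1) := mul_nonneg h1.le hr0
  have h9 : 0 ≤ (b1 * c2 - b2 * c1) * (a1 * d2 - a2 * d1) := mul_nonneg h2.le hp0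
  have h10 : (b1 * c2 - b2 * c1) * (a1 * d2 - a2 * d1) = 0 := by linarith
  have h11 : (a1 * b2 - a2 * b1) * (c1 * d2 - c2 * d1) = 0 := by linarith
  have ha : a1 * d2 - a2 * d1 = 0 := by
    rcases mul_eq_zero.mp h10 with h | h
    · linarith
    · exact h
  -- then a is on the ray of x, so det(a,b) = lambda det(d,b) < 0
  rcases hp with h | ⟨-, h'⟩
  · linarith
  · have hd : 0 < d1 * d1 + d2 * d2 := sq_pos_of_inner _ _ _ _ h'
    have e : (a1 * b2 - a2 * b1) * (d1 * d1 + d2 * d2)
        = -((a1 * d1 + a2 * d2) * (b1 * d2 - b2 * d1)) + (a1 * d2 - a2 * d1) * (b1 * d1 + b2 * d2) := by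
      ring
    rw [ha, zero_mul, add_zero] at e
    have h5 : 0 < (a1 * b2 - a2 * b1) * (d1 * d1 + d2 * d2) := mul_pos h1 hd
    have h6 : 0 < (a1 * d1 + a2 * d2) * (b1 * d2 - b2 * d1) := mul_pos h' hqpos
    linarith

/-- In a finite nonempty set of points before `x` there is a last one. -/
lemma exists_last (z x : ℝ × ℝ) (S : Finset (ℝ × ℝ)) (hne : S.Nonempty)
    (hS : ∀ p ∈ S, Before z x p) : ∃ p ∈ S, ∀ q ∈ S, ¬ 0 < ori z p q := by
  classical
  induction S using Finset.induction_on with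
  | empty => exact absurd hne (by simp)
  | insert a S ha ih =>
    rcases S.eq_empty_or_nonempty with h | h
    · subst h
      refine ⟨a, by simp, fun q hq => ?_⟩
      simp only [insert_empty_eq, Finset.mem_singleton] at hq
      subst hq
      unfold ori
      intro h
      linarith
    · obtain ⟨p, hp, hmax⟩ := ih h (fun p hp => hS p (Finset.mem_insert_of_mem hp))
      by_cases hpa : 0 < ori z p a
      · refine ⟨a, Finset.mem_insert_self _ _, fun q hq hq' => ?_⟩
        rcases Finset.mem_insert.mp hq with rfl | hq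
        · unfold ori at hq'
          linarith
        · exact hmax q hq (before_trans (hS p (Finset.mem_insert_of_mem hp))
            (hS a (Finset.mem_insert_self _ _)) (hS q (Finset.mem_insert_of_mem hq)) hpa hq')
      · refine ⟨p, Finset.mem_insert_of_mem hp, fun q hq => ?_⟩
        rcases Finset.mem_insert.mp hq with rfl | hq
        · exact hpa
        · exact hmax q hq

/-- The statement of `exists_edge`. -/
def ExistsEdge : Prop := ∀ (P : Finset (ℝ × ℝ)), NonCol P → ∀ p ∈ Bd P, ∃ q, Edge P p q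

/-- The statement `Edge.mem_Bd` (right end point). -/
lemma edge_right_mem' {P : Finset (ℝ × ℝ)} {p q : ℝ × ℝ} (h : Edge P p q) : q ∈ Bd P := by
  unfold Bd
  rw [mem_fil]
  refine ⟨h.hq, (-(q.2 - p.2), q.1 - p.1), ?_, ?_⟩
  · intro h0
    apply h.ne
    simp only [Prod.mk_eq_zero, neg_eq_zero] at h0
    exact Prod.ext (by linarith [h0.2]) (by linarith [h0.1])
  · intro r hr
    have h1 := h.left r hr
    unfold ori at h1
    simp only
    nlinarith

lemma ori_self_mid (p q : ℝ × ℝ) : ori p q p = 0 := by unfold ori; ring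

/-- If some boundary point is before `x`, an edge crosses the border of the half-plane. -/
lemma exists_crossing (hE : ExistsEdge) (P : Finset (ℝ × ℝ)) (h : NonCol P) (z : ℝ × ℝ)
    (hz : ∀ p q, Edge P p q → 0 < ori p q z) (x : ℝ × ℝ)
    (hex : ∃ p ∈ Bd P, Before z x p) :
    ∃ p q, Edge P p q ∧ Before z x p ∧ ¬ Before z x q := by
  classical
  set S : Finset (ℝ × ℝ) := fil (Bd P) (fun p => Before z x p) with hSdef
  obtain ⟨p, hp, hmax⟩ := exists_last z x S (by
    obtain ⟨p, hp, hb⟩ := hex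
    exact ⟨p, by rw [hSdef, mem_fil]; exact ⟨hp, hb⟩⟩) (fun p hp => by
    rw [hSdef, mem_fil] at hp; exact hp.2)
  rw [hSdef, mem_fil] at hp
  obtain ⟨q, hq⟩ := hE P h p hp.1
  refine ⟨p, q, hq, hp.2, fun hb => ?_⟩
  have h1 : q ∈ S := by rw [hSdef, mem_fil]; exact ⟨edge_right_mem' hq, hb⟩
  apply hmax q h1
  have := hz p q hq
  unfold ori at this ⊢
  linarith

/-- Sector lemma: every direction from an interior point `z` lies in the half-open sector
`[p, q)` of an edge. -/
theorem sector_of (hE : ExistsEdge) (P : Finset (ℝ × ℝ)) (h : NonCol P) (z : ℝ × ℝ)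
    (hz : ∀ p q, Edge P p q → 0 < ori p q z) (x : ℝ × ℝ) (hx : x ≠ z) :
    ∃ p q, Edge P p q ∧ 0 ≤ ori z p x ∧ 0 < ori z x q := by
  -- a boundary point before `x`
  have hneB : ∀ q ∈ Bd P, q ≠ z := by
    rintro q hq rfl
    obtain ⟨r, hr⟩ := hE P h q hq
    have := hz q r hr
    rw [ori_self_mid] at this
    exact lt_irrefl _ this
  have hd : 0 < (x.1 - z.1) * (x.1 - z.1) + (x.2 - z.2) * (x.2 - z.2) := by
    by_contra hcon
    apply hx
    have g1 := mul_self_nonneg (x.1 - z.1)
    have g2 := mul_self_nonneg (x.2 - z.2)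
    have h3 : (x.1 - z.1) * (x.1 - z.1) = 0 := by linarith
    have h4 : (x.2 - z.2) * (x.2 - z.2) = 0 := by linarith
    have h3' := mul_self_eq_zero.mp h3
    have h4' := mul_self_eq_zero.mp h4
    exact Prod.ext (by linarith) (by linarith)
  -- a boundary point on the border line opposite to `x`
  have hopp : ∀ q : ℝ × ℝ, q ≠ z → ori z q x = 0 →
      ¬ 0 < (q.1 - z.1) * (x.1 - z.1) + (q.2 - z.2) * (x.2 - z.2) →
      (q.1 - z.1) * (x.1 - z.1) + (q.2 - z.2) * (x.2 - z.2) < 0 := by
    intro q hq h0 hn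
    rcases lt_or_eq_of_le (not_lt.mp hn) with h' | h'
    · exact h'
    · exfalso
      apply hq
      unfold ori at h0
      have e1 : (q.1 - z.1) * ((x.1 - z.1) * (x.1 - z.1) + (x.2 - z.2) * (x.2 - z.2)) = 0 := by
        linear_combination (x.1 - z.1) * h' + (x.2 - z.2) * h0
      have e2 : (q.2 - z.2) * ((x.1 - z.1) * (x.1 - z.1) + (x.2 - z.2) * (x.2 - z.2)) = 0 := by
        linear_combination (x.2 - z.2) * h' - (x.1 - z.1) * h0
      rcases mul_eq_zero.mp e1 with h1 | h1
      · rcases mul_eq_zero.mp e2 with h2 | h2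
        · exact Prod.ext (by linarith) (by linarith)
        · linarith
      · linarith
  set x' : ℝ × ℝ := (2 * z.1 - x.1, 2 * z.2 - x.2) with hx'
  have hcompl : ∀ q ∈ Bd P, ¬ Before z x q → Before z x' q := by
    intro q hq hb
    unfold Before at hb ⊢
    push Not at hb
    obtain ⟨hb1, hb2⟩ := hb
    have e1 : ori z q x' = -ori z q x := by simp only [ori, hx']; ring
    have e2 : (q.1 - z.1) * (x'.1 - z.1) + (q.2 - z.2) * (x'.2 - z.2)
        = -((q.1 - z.1) * (x.1 - z.1) + (q.2 - z.2) * (x.2 - z.2)) := by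
      simp only [hx']; ring
    rw [e1, e2]
    rcases lt_or_eq_of_le hb1 with h' | h'
    · left; linarith
    · right
      exact ⟨by linarith, by linarith [hopp q (hneB q hq) h' (not_lt.mpr (hb2 h'))]⟩
  have hneBd : (Bd P).Nonempty := by
    -- a point minimising the first coordinate
    obtain ⟨a, ha, -⟩ := h
    obtain ⟨p, hp, hmin⟩ := P.exists_min_image (fun p => p.1) ⟨a, ha⟩
    refine ⟨p, ?_⟩
    unfold Bd
    rw [mem_fil]
    refine ⟨hp, (1, 0), by simp, fun r hr => ?_⟩
    simpa using hmin r hr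
  have hex : ∃ p ∈ Bd P, Before z x p := by
    by_contra hcon
    push Not at hcon
    obtain ⟨p0, hp0⟩ := hneBd
    obtain ⟨p, q, he, hb1, hb2⟩ := exists_crossing hE P h z hz x'
      ⟨p0, hp0, hcompl p0 hp0 (hcon p0 hp0)⟩
    exact hb2 (hcompl q (edge_right_mem' he) (hcon q (edge_right_mem' he)))
  obtain ⟨p, q, he, hb1, hb2⟩ := exists_crossing hE P h z hz x hex
  refine ⟨p, q, he, ?_, ?_⟩
  · rcases hb1 with h' | h' <;> linarith
  · have hpq : 0 < ori z p q := by
      have := hz p q he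
      unfold ori at this ⊢
      linarith
    unfold Before at hb2
    push Not at hb2
    obtain ⟨c1, c2⟩ := hb2
    have e : ori z x q = -ori z q x := by unfold ori; ring
    rw [e]
    rcases lt_or_eq_of_le c1 with h' | h'
    · linarith
    · exfalso
      have h5 := hopp q (hneB q (edge_right_mem' he)) h' (not_lt.mpr (c2 h'))
      have hp0 : 0 ≤ ori z p x := by rcases hb1 with h'' | h'' <;> linarith
      have e2 : ori z p q * ((x.1 - z.1) * (x.1 - z.1) + (x.2 - z.2) * (x.2 - z.2))
          = ((q.1 - z.1) * (x.1 - z.1) + (q.2 - z.2) * (x.2 - z.2)) * ori z p x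
            - ori z q x * ((p.1 - z.1) * (x.1 - z.1) + (p.2 - z.2) * (x.2 - z.2)) := by
        unfold ori; ring
      rw [h', zero_mul, sub_zero] at e2
      have h6 := mul_pos hpq hd
      have h7 : ((q.1 - z.1) * (x.1 - z.1) + (q.2 - z.2) * (x.2 - z.2)) * ori z p x ≤ 0 :=
        mul_nonpos_of_nonpos_of_nonneg h5.le hp0
      linarith

/-- The successor `y` of `x` comes before any other boundary point `y'`. -/
theorem succ_between (P : Finset (ℝ × ℝ)) (z : ℝ × ℝ) (hzP : z ∈ P)
    (hz : ∀ p q, Edge P p q → 0 < ori p q z) (x y y' : ℝ × ℝ) (hy' : y' ∈ Bd P)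
    (hxy' : 0 < ori z x y') (he : Edge P x y) : 0 < ori z x y ∧ 0 ≤ ori z y y' := by
  have hxyz := hz x y he
  have h1 : 0 < ori z x y := by
    have e : ori z x y = ori x y z := by unfold ori; ring
    rw [e]; exact hxyz
  refine ⟨h1, ?_⟩
  by_contra hcon
  push Not at hcon
  unfold Bd at hy'
  rw [mem_fil] at hy'
  obtain ⟨hy'P, f, hf, hmin⟩ := hy'
  -- barycentric coordinates with respect to z, x, y
  set D := ori z x y with hD
  have hleft := he.left y' hy'P
  -- D y' = γ z + a x + b y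
  have c1 : D * y'.1 = ori x y y' * z.1 + (-ori z y y') * x.1 + ori z x y' * y.1 := by
    rw [hD]; unfold ori; ring
  have c2 : D * y'.2 = ori x y y' * z.2 + (-ori z y y') * x.2 + ori z x y' * y.2 := by
    rw [hD]; unfold ori; ring
  have c3 : D = ori x y y' + (-ori z y y') + ori z x y' := by
    rw [hD]; unfold ori; ring
  have mz := hmin z hzP
  have mx := hmin x he.hp
  have my := hmin y he.hq
  set L : ℝ := f.1 * y'.1 + f.2 * y'.2 with hL
  have hsum : ori x y y' * (f.1 * z.1 + f.2 * z.2 - L) + (-ori z y y') * (f.1 * x.1 + f.2 * x.2 - L)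
      + ori z x y' * (f.1 * y.1 + f.2 * y.2 - L) = 0 := by
    have : D * L = ori x y y' * (f.1 * z.1 + f.2 * z.2) + (-ori z y y') * (f.1 * x.1 + f.2 * x.2)
        + ori z x y' * (f.1 * y.1 + f.2 * y.2) := by
      rw [hL]; linear_combination f.1 * c1 + f.2 * c2
    rw [c3] at this
    linarith
  have hn : 0 < -ori z y y' := by linarith
  have t1 : 0 ≤ ori x y y' * (f.1 * z.1 + f.2 * z.2 - L) := mul_nonneg hleft (by linarith)
  have t2 : 0 ≤ (-ori z y y') * (f.1 * x.1 + f.2 * x.2 - L) := mul_nonneg hn.le (by linarith)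
  have t3 : 0 ≤ ori z x y' * (f.1 * y.1 + f.2 * y.2 - L) := mul_nonneg hxy'.le (by linarith)
  have s2 : (-ori z y y') * (f.1 * x.1 + f.2 * x.2 - L) = 0 := by linarith
  have s3 : ori z x y' * (f.1 * y.1 + f.2 * y.2 - L) = 0 := by linarith
  have s1 : ori x y y' * (f.1 * z.1 + f.2 * z.2 - L) = 0 := by linarith
  have fx : f.1 * x.1 + f.2 * x.2 - L = 0 := by
    rcases mul_eq_zero.mp s2 with h | h
    · linarith
    · exact h
  have fy : f.1 * y.1 + f.2 * y.2 - L = 0 := by
    rcases mul_eq_zero.mp s3 with h | h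
    · linarith
    · exact h
  rcases mul_eq_zero.mp s1 with h | h
  · -- y' on the open segment x y
    apply he.empty y' hy'P
    refine ⟨(-ori z y y') / D, ori z x y' / D, div_pos hn h1, div_pos hxy' h1, ?_, ?_⟩
    · rw [← add_div, div_eq_one_iff_eq h1.ne']
      linarith
    · rw [h, zero_mul, zero_add] at c1 c2
      ext
      · simp only [Prod.fst_add, Prod.smul_fst, smul_eq_mul]
        field_simp
        linarith
      · simp only [Prod.snd_add, Prod.smul_snd, smul_eq_mul]
        field_simp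
        linarith
  · -- f constant on z, x, y: f = 0
    apply hf
    have g1 : f.1 * (x.1 - z.1) + f.2 * (x.2 - z.2) = 0 := by linarith
    have g2 : f.1 * (y.1 - z.1) + f.2 * (y.2 - z.2) = 0 := by linarith
    have k1 : f.1 * D = 0 := by
      rw [hD]; unfold ori
      linear_combination (y.2 - z.2) * g1 - (x.2 - z.2) * g2
    have k2 : f.2 * D = 0 := by
      rw [hD]; unfold ori
      linear_combination (x.1 - z.1) * g2 - (y.1 - z.1) * g1
    have z1 : f.1 = 0 := by
      rcases mul_eq_zero.mp k1 with h | h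
      · exact h
      · exact absurd h h1.ne'
    have z2 : f.2 = 0 := by
      rcases mul_eq_zero.mp k2 with h | h
      · exact h
      · exact absurd h h1.ne'
    exact Prod.ext z1 z2

end Pool.Agent.helper47.Vis
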