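import Mathlib

set_option autoImplicit false

/-!
# A two-dimensional sieve (III.1 of the visibility plan, MP_6b3417_co)
-/

namespace Pool.Agent.helper47.Vis

open Finset

/-- One step of the Chinese remainder choice: nine candidates, at most eight forbidden. -/
lemma step_prime {ι : Type} [Fintype ι] (hι : Fintype.card ι ≤ 8) (N : ℤ) (X : ι → ℤ × ℤ)
    (hX : ∀ i, Int.gcd (Int.gcd (X i).1 (X i).2) N = 1)
    (p : ℕ) (hp : p.Prime) (hp2 : p ≠ 2) (Q : ℤ) (hQ : ¬ (p : ℤ) ∣ Q) (r : ℤ × ℤ) :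
    ∃ k : ℤ × ℤ, ∀ i, ¬ ((p : ℤ) ∣ (X i).1 - N * (r.1 + Q * k.1) ∧
      (p : ℤ) ∣ (X i).2 - N * (r.2 + Q * k.2)) := by
  classical
  by_contra hcon
  push Not at hcon
  have hpp : Prime (p : ℤ) := Nat.prime_iff_prime_int.mp hp
  have hp3 : 3 ≤ p := by
    have := hp.two_le
    omega
  choose f hf using fun k : Fin 3 × Fin 3 => hcon ((k.1 : ℕ), (k.2 : ℕ))
  have hinj : Function.Injective f := by
    intro k k' hkk
    have h1 := hf k
    have h2 := hf k'
    rw [← hkk] at h2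
    have hN : ¬ (p : ℤ) ∣ N := by
      intro hN
      have hx1 : (p : ℤ) ∣ (X (f k)).1 := by
        have := h1.1
        have h3 : (p : ℤ) ∣ N * (r.1 + Q * ((k.1 : ℕ) : ℤ)) := Dvd.dvd.mul_right hN _
        have := dvd_add this h3
        simpa using this
      have hx2 : (p : ℤ) ∣ (X (f k)).2 := by
        have := h1.2
        have h3 : (p : ℤ) ∣ N * (r.2 + Q * ((k.2 : ℕ) : ℤ)) := Dvd.dvd.mul_right hN _
        have := dvd_add this h3
        simpa using this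
      have h4 : (p : ℤ) ∣ (Int.gcd (Int.gcd (X (f k)).1 (X (f k)).2) N : ℤ) := by
        apply Int.dvd_coe_gcd
        · exact Int.dvd_coe_gcd hx1 hx2
        · exact hN
      rw [hX] at h4
      exact hpp.not_isUnit (isUnit_of_dvd_one (by simpa using h4))
    have key : ∀ (x s a b : ℤ), (p : ℤ) ∣ x - N * (s + Q * a) → (p : ℤ) ∣ x - N * (s + Q * b) →
        (p : ℤ) ∣ a - b := by
      intro x s a b ha hb
      have h5 := dvd_sub hb ha
      have h6 : x - N * (s + Q * b) - (x - N * (s + Q * a)) = N * (Q * (a - b)) := by ring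
      rw [h6] at h5
      rcases hpp.dvd_or_dvd h5 with h | h
      · exact absurd h hN
      · rcases hpp.dvd_or_dvd h with h | h
        · exact absurd h hQ
        · exact h
    have e1 := key _ _ _ _ h1.1 h2.1
    have e2 := key _ _ _ _ h1.2 h2.2
    have small : ∀ a b : Fin 3, (p : ℤ) ∣ ((a : ℕ) : ℤ) - ((b : ℕ) : ℤ) → a = b := by
      intro a b hab
      have h7 : ((a : ℕ) : ℤ) - ((b : ℕ) : ℤ) = 0 := by
        apply Int.eq_zero_of_abs_lt_dvd hab
        rw [abs_lt]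
        have := a.2
        have := b.2
        constructor <;> omega
      apply Fin.ext
      omega
    exact Prod.ext (small _ _ e1) (small _ _ e2)
  have h8 := Fintype.card_le_of_injective f hinj
  simp at h8
  omega

/-- Chinese remainder choice for a finite set of odd primes. -/
lemma crt_choice {ι : Type} [Fintype ι] (hι : Fintype.card ι ≤ 8) (N : ℤ) (X : ι → ℤ × ℤ)
    (hX : ∀ i, Int.gcd (Int.gcd (X i).1 (X i).2) N = 1) (e : ℤ × ℤ)
    (S : Finset ℕ) (hS : ∀ p ∈ S, p.Prime ∧ p ≠ 2) :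
    ∃ r : ℤ × ℤ, ∀ k : ℤ × ℤ,
      (4 : ℤ) ∣ (r.1 + (4 * ∏ p ∈ S, (p : ℤ)) * k.1) - e.1 ∧
      (4 : ℤ) ∣ (r.2 + (4 * ∏ p ∈ S, (p : ℤ)) * k.2) - e.2 ∧
      ∀ p ∈ S, ∀ i, ¬ ((p : ℤ) ∣ (X i).1 - N * (r.1 + (4 * ∏ p ∈ S, (p : ℤ)) * k.1) ∧
        (p : ℤ) ∣ (X i).2 - N * (r.2 + (4 * ∏ p ∈ S, (p : ℤ)) * k.2)) := by
  classical
  induction S using Finset.induction_on with
  | empty =>
    refine ⟨e, fun k => ⟨?_, ?_, ?_⟩⟩
    · simp
    · simp
    · simp
  | insert q S hq ih =>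
    obtain ⟨r, hr⟩ := ih (fun p hp => hS p (Finset.mem_insert_of_mem hp))
    have hq1 := hS q (Finset.mem_insert_self _ _)
    have hqp : Prime (q : ℤ) := Nat.prime_iff_prime_int.mp hq1.1
    have hQ : ¬ (q : ℤ) ∣ 4 * ∏ p ∈ S, (p : ℤ) := by
      intro h
      rcases hqp.dvd_or_dvd h with h | h
      · have h4 : (q : ℤ) ∣ 2 * 2 := by simpa using h
        have h2 : (q : ℤ) ∣ 2 := by
          rcases hqp.dvd_or_dvd h4 with h | h <;> exact h
        have h2' : q ∣ 2 := by exact_mod_cast h2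
        exact hq1.2 ((Nat.prime_dvd_prime_iff_eq hq1.1 Nat.prime_two).mp h2')
      · rw [hqp.dvd_finsetProd_iff] at h
        obtain ⟨p, hp, hqp'⟩ := h
        have h2' : q ∣ p := by exact_mod_cast hqp'
        have := (Nat.prime_dvd_prime_iff_eq hq1.1 (hS p (Finset.mem_insert_of_mem hp)).1).mp h2'
        subst this
        exact hq hp
    obtain ⟨k0, hk0⟩ := step_prime hι N X hX q hq1.1 hq1.2 (4 * ∏ p ∈ S, (p : ℤ)) hQ r
    refine ⟨(r.1 + (4 * ∏ p ∈ S, (p : ℤ)) * k0.1, r.2 + (4 * ∏ p ∈ S, (p : ℤ)) * k0.2), ?_⟩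
    intro k
    rw [Finset.prod_insert hq]
    set P : ℤ := 4 * ∏ p ∈ S, (p : ℤ) with hP
    have e1 : r.1 + P * k0.1 + 4 * ((q : ℤ) * ∏ p ∈ S, (p : ℤ)) * k.1
        = r.1 + P * (k0.1 + q * k.1) := by rw [hP]; ring
    have e2 : r.2 + P * k0.2 + 4 * ((q : ℤ) * ∏ p ∈ S, (p : ℤ)) * k.2
        = r.2 + P * (k0.2 + q * k.2) := by rw [hP]; ring
    simp only
    rw [e1, e2]
    obtain ⟨g1, g2, g3⟩ := hr (k0.1 + q * k.1, k0.2 + q * k.2)
    refine ⟨g1, g2, ?_⟩
    intro p hp i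
    rcases Finset.mem_insert.mp hp with rfl | hp
    · rintro ⟨a1, a2⟩
      apply hk0 i
      constructor
      · have : (X i).1 - N * (r.1 + P * k0.1)
            = (X i).1 - N * (r.1 + P * (k0.1 + p * k.1)) + p * (N * P * k.1) := by ring
        rw [this]
        exact dvd_add a1 (dvd_mul_right _ _)
      · have : (X i).2 - N * (r.2 + P * k0.2)
            = (X i).2 - N * (r.2 + P * (k0.2 + p * k.2)) + p * (N * P * k.2) := by ring
        rw [this]
        exact dvd_add a2 (dvd_mul_right _ _)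
    · exact g3 p hp i

/-- The number of `u < n` in a fixed residue class given by a linear congruence. -/
lemma card_class (p : ℕ) (hp : p.Prime) (x β : ℤ) (hβ : ¬ (p : ℤ) ∣ β) (n : ℕ) :
    ((Finset.range n).filter (fun u : ℕ => (p : ℤ) ∣ x - β * u)).card ≤ n / p + 1 := by
  classical
  have hpp : Prime (p : ℤ) := Nat.prime_iff_prime_int.mp hp
  rcases ((Finset.range n).filter (fun u : ℕ => (p : ℤ) ∣ x - β * u)).eq_empty_or_nonempty with h | h
  · rw [h]; simp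
  · obtain ⟨u0, hu0⟩ := h
    rw [Finset.mem_filter] at hu0
    have hsub : ((Finset.range n).filter (fun u : ℕ => (p : ℤ) ∣ x - β * u)) ⊆
        (Finset.range n).filter (fun u : ℕ => u ≡ u0 [MOD p]) := by
      intro u hu
      rw [Finset.mem_filter] at hu ⊢
      refine ⟨hu.1, ?_⟩
      have h1 := dvd_sub hu.2 hu0.2
      have h2 : x - β * (u : ℤ) - (x - β * (u0 : ℤ)) = β * ((u0 : ℤ) - u) := by ring
      rw [h2] at h1
      rcases hpp.dvd_or_dvd h1 with h | h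
      · exact absurd h hβ
      · exact (Nat.modEq_iff_dvd).mpr h
    refine (Finset.card_le_card hsub).trans ?_
    have h3 := Nat.count_modEq_card n hp.pos u0
    rw [Nat.count_eq_card_filter_range] at h3
    rw [h3]
    split_ifs <;> omega

lemma card_class_large (p : ℕ) (hp : p.Prime) (x β : ℤ) (hβ : ¬ (p : ℤ) ∣ β) (n : ℕ) (hn : n < p) :
    ((Finset.range n).filter (fun u : ℕ => (p : ℤ) ∣ x - β * u)).card ≤ 1 := by
  have := card_class p hp x β hβ n
  rwa [Nat.div_eq_of_lt hn] at this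

lemma card_primeFactors_lt (n : ℤ) (K : ℕ) (h0 : n ≠ 0) (hK : |n| < 2 ^ K) :
    n.natAbs.primeFactors.card ≤ K := by
  have h1 : 2 ^ n.natAbs.primeFactors.card ≤ ∏ p ∈ n.natAbs.primeFactors, p := by
    apply Finset.pow_card_le_prod
    intro p hp
    exact (Nat.prime_of_mem_primeFactors hp).two_le
  have h2 : ∏ p ∈ n.natAbs.primeFactors, p ≤ n.natAbs :=
    Nat.le_of_dvd (Int.natAbs_pos.mpr h0) (Nat.prod_primeFactors_dvd _)
  have h3 : n.natAbs < 2 ^ K := by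
    have : ((n.natAbs : ℕ) : ℤ) < ((2 ^ K : ℕ) : ℤ) := by
      rw [Int.natCast_natAbs]; push_cast; exact hK
    exact_mod_cast this
  have h4 : 2 ^ n.natAbs.primeFactors.card < 2 ^ K := lt_of_le_of_lt (h1.trans h2) h3
  exact ((Nat.pow_lt_pow_iff_right (by norm_num)).mp h4).le


open scoped Classical in
/-- For a fixed value of one coordinate, at most `K` values of the other one are hit by primes `> n`. -/
lemma large_fiber (N Q x y a' b' : ℤ) (n K : ℕ)
    (hgcd : ∀ p : ℕ, p.Prime → (p : ℤ) ∣ N → (p : ℤ) ∣ x → (p : ℤ) ∣ y → False)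
    (hQ : ∀ p : ℕ, p.Prime → n < p → ¬ (p : ℤ) ∣ Q) (u : ℕ)
    (h0 : x - N * (a' + Q * u) ≠ 0) (hK : |x - N * (a' + Q * u)| < 2 ^ K) :
    ((Finset.range n).filter (fun v : ℕ => ∃ p : ℕ, p.Prime ∧ n < p ∧
      (p : ℤ) ∣ x - N * (a' + Q * u) ∧ (p : ℤ) ∣ y - N * (b' + Q * v))).card ≤ K := by
  classical
  set m : ℤ := x - N * (a' + Q * u) with hm
  have hsub : ((Finset.range n).filter (fun v : ℕ => ∃ p : ℕ, p.Prime ∧ n < p ∧
      (p : ℤ) ∣ m ∧ (p : ℤ) ∣ y - N * (b' + Q * v))) ⊆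
      (m.natAbs.primeFactors.filter (fun p => n < p)).biUnion
        (fun p => (Finset.range n).filter (fun v : ℕ => (p : ℤ) ∣ y - N * (b' + Q * v))) := by
    intro v hv
    rw [Finset.mem_filter] at hv
    obtain ⟨hv1, p, hp, hnp, hpm, hpy⟩ := hv
    rw [Finset.mem_biUnion]
    refine ⟨p, ?_, ?_⟩
    · rw [Finset.mem_filter, Nat.mem_primeFactors]
      exact ⟨⟨hp, Int.natCast_dvd.mp hpm, Int.natAbs_ne_zero.mpr h0⟩, hnp⟩
    · rw [Finset.mem_filter]; exact ⟨hv1, hpy⟩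
  refine (Finset.card_le_card hsub).trans ?_
  refine (Finset.card_biUnion_le).trans ?_
  have h1 : ∀ p ∈ m.natAbs.primeFactors.filter (fun p => n < p),
      ((Finset.range n).filter (fun v : ℕ => (p : ℤ) ∣ y - N * (b' + Q * v))).card ≤ 1 := by
    intro p hp
    rw [Finset.mem_filter, Nat.mem_primeFactors] at hp
    obtain ⟨⟨hp, hpm, -⟩, hnp⟩ := hp
    have hpm' : (p : ℤ) ∣ m := Int.natCast_dvd.mpr hpm
    have hpp : Prime (p : ℤ) := Nat.prime_iff_prime_int.mp hp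
    by_cases hN : (p : ℤ) ∣ N
    · -- nothing
      have : ((Finset.range n).filter (fun v : ℕ => (p : ℤ) ∣ y - N * (b' + Q * v))) = ∅ := by
        rw [Finset.filter_eq_empty_iff]
        intro v _ hv
        have hx : (p : ℤ) ∣ x := by
          have := dvd_add hpm' (Dvd.dvd.mul_right hN (a' + Q * u))
          rw [hm] at this
          simpa using this
        have hy : (p : ℤ) ∣ y := by
          have := dvd_add hv (Dvd.dvd.mul_right hN (b' + Q * v))
          simpa using this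
        exact hgcd p hp hN hx hy
      rw [this]; simp
    · have hNQ : ¬ (p : ℤ) ∣ N * Q := by
        intro h
        rcases hpp.dvd_or_dvd h with h | h
        · exact hN h
        · exact hQ p hp hnp h
      have := card_class_large p hp (y - N * b') (N * Q) hNQ n hnp
      refine le_trans (le_of_eq ?_) this
      congr 1
      apply Finset.filter_congr
      intro v _
      have : y - N * (b' + Q * (v : ℤ)) = y - N * b' - N * Q * v := by ring
      rw [this]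
  refine (Finset.sum_le_sum h1).trans ?_
  simp only [Finset.sum_const, smul_eq_mul, mul_one]
  exact (Finset.card_filter_le _ _).trans (card_primeFactors_lt m K h0 hK)

open scoped Classical in
lemma large_count_left (N Q x y a' b' : ℤ) (n K : ℕ)
    (hgcd : ∀ p : ℕ, p.Prime → (p : ℤ) ∣ N → (p : ℤ) ∣ x → (p : ℤ) ∣ y → False)
    (hQ : ∀ p : ℕ, p.Prime → n < p → ¬ (p : ℤ) ∣ Q)
    (h : (∀ u : ℕ, u < n → x - N * (a' + Q * u) ≠ 0 ∧ |x - N * (a' + Q * u)| < 2 ^ K) ∨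
      (∀ v : ℕ, v < n → y - N * (b' + Q * v) ≠ 0 ∧ |y - N * (b' + Q * v)| < 2 ^ K)) :
    ((Finset.range n ×ˢ Finset.range n).filter (fun w : ℕ × ℕ => ∃ p : ℕ, p.Prime ∧ n < p ∧
      (p : ℤ) ∣ x - N * (a' + Q * w.1) ∧ (p : ℤ) ∣ y - N * (b' + Q * w.2))).card ≤ n * K := by
  classical
  rw [Finset.card_filter]
  rcases h with h | h
  · rw [Finset.sum_product]
    calc _ ≤ ∑ u ∈ Finset.range n, K := by
          apply Finset.sum_le_sum
          intro u hu
          rw [← Finset.card_filter]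
          exact large_fiber N Q x y a' b' n K hgcd hQ u (h u (Finset.mem_range.mp hu)).1
            (h u (Finset.mem_range.mp hu)).2
      _ = n * K := by simp
  · rw [Finset.sum_product_right]
    calc _ ≤ ∑ u ∈ Finset.range n, K := by
          apply Finset.sum_le_sum
          intro v hv
          rw [← Finset.card_filter]
          have := large_fiber N Q y x b' a' n K (fun p h1 h2 h3 h4 => hgcd p h1 h2 h4 h3) hQ v
            (h v (Finset.mem_range.mp hv)).1 (h v (Finset.mem_range.mp hv)).2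
          refine le_trans (le_of_eq ?_) this
          congr 1
          apply Finset.filter_congr
          intro u _
          constructor
          · rintro ⟨p, h1, h2, h3, h4⟩; exact ⟨p, h1, h2, h4, h3⟩
          · rintro ⟨p, h1, h2, h3, h4⟩; exact ⟨p, h1, h2, h4, h3⟩
      _ = n * K := by simp

open scoped Classical in
lemma small_count (N Q x y a' b' : ℤ) (n p : ℕ) (hp : p.Prime)
    (hgcd : (p : ℤ) ∣ N → (p : ℤ) ∣ x → (p : ℤ) ∣ y → False)
    (hQ : ¬ (p : ℤ) ∣ Q) :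
    ((Finset.range n ×ˢ Finset.range n).filter (fun w : ℕ × ℕ =>
      (p : ℤ) ∣ x - N * (a' + Q * w.1) ∧ (p : ℤ) ∣ y - N * (b' + Q * w.2))).card
      ≤ (n / p + 1) ^ 2 := by
  classical
  have hpp : Prime (p : ℤ) := Nat.prime_iff_prime_int.mp hp
  by_cases hN : (p : ℤ) ∣ N
  · have : ((Finset.range n ×ˢ Finset.range n).filter (fun w : ℕ × ℕ =>
      (p : ℤ) ∣ x - N * (a' + Q * w.1) ∧ (p : ℤ) ∣ y - N * (b' + Q * w.2))) = ∅ := by
      rw [Finset.filter_eq_empty_iff]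
      rintro w _ ⟨h1, h2⟩
      have hx : (p : ℤ) ∣ x := by
        have := dvd_add h1 (Dvd.dvd.mul_right hN (a' + Q * w.1))
        simpa using this
      have hy : (p : ℤ) ∣ y := by
        have := dvd_add h2 (Dvd.dvd.mul_right hN (b' + Q * w.2))
        simpa using this
      exact hgcd hN hx hy
    rw [this]; simp
  · have hNQ : ¬ (p : ℤ) ∣ N * Q := by
      intro h
      rcases hpp.dvd_or_dvd h with h | h
      · exact hN h
      · exact hQ h
    have e1 := card_class p hp (x - N * a') (N * Q) hNQ n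
    have e2 := card_class p hp (y - N * b') (N * Q) hNQ n
    have hs : ((Finset.range n ×ˢ Finset.range n).filter (fun w : ℕ × ℕ =>
      (p : ℤ) ∣ x - N * (a' + Q * w.1) ∧ (p : ℤ) ∣ y - N * (b' + Q * w.2))) =
      ((Finset.range n).filter (fun u : ℕ => (p : ℤ) ∣ x - N * a' - N * Q * u)) ×ˢ
      ((Finset.range n).filter (fun v : ℕ => (p : ℤ) ∣ y - N * b' - N * Q * v)) := by
      ext ⟨u, v⟩
      simp only [Finset.mem_filter, Finset.mem_product]
      have t1 : x - N * (a' + Q * (u : ℤ)) = x - N * a' - N * Q * u := by ring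
      have t2 : y - N * (b' + Q * (v : ℤ)) = y - N * b' - N * Q * v := by ring
      rw [t1, t2]
      tauto
    rw [hs, Finset.card_product, pow_two]
    exact Nat.mul_le_mul e1 e2


/-- The product of the odd primes `≤ 128`, times `4`. -/
noncomputable def SQ : ℕ := 4 * ∏ p ∈ (Finset.range 129).filter (fun p => p.Prime ∧ p ≠ 2), p

lemma SQ_pos : 0 < SQ := by
  unfold SQ
  apply Nat.mul_pos (by norm_num)
  apply Finset.prod_pos
  intro p hp
  exact (Finset.mem_filter.mp hp).2.1.pos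

lemma not_dvd_SQ (p : ℕ) (hp : p.Prime) (h : 128 < p) : ¬ (p : ℤ) ∣ (SQ : ℤ) := by
  intro hd
  have hd' : p ∣ SQ := by exact_mod_cast hd
  unfold SQ at hd'
  rcases (Nat.Prime.dvd_mul hp).mp hd' with h4 | h4
  · have := Nat.le_of_dvd (by norm_num) h4
    omega
  · rw [Prime.dvd_finsetProd_iff hp.prime] at h4
    obtain ⟨q, hq, hpq⟩ := h4
    have h1 := (Finset.mem_filter.mp hq)
    have h2 := Nat.le_of_dvd h1.2.1.pos hpq
    have h3 := Finset.mem_range.mp h1.1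
    omega

lemma SQ_cast : ((4 : ℤ) * ∏ p ∈ (Finset.range 129).filter (fun p => p.Prime ∧ p ≠ 2), (p : ℤ))
      = (SQ : ℤ) := by
  unfold SQ; push_cast; rfl

attribute [irreducible] SQ

/-- **Two-dimensional sieve.** -/
theorem sieve (R K : ℕ) (hRK : (128 * SQ) * (K + 1) ≤ R)
    {ι : Type} [Fintype ι] (hι : Fintype.card ι ≤ 8) (N : ℤ) (X : ι → ℤ × ℤ)
    (hX : ∀ i, Int.gcd (Int.gcd (X i).1 (X i).2) N = 1) (e : ℤ × ℤ) (a b : ℤ)
    (hh : ∀ i, (∀ c : ℤ, a ≤ c → c < a + R → (X i).1 - N * c ≠ 0 ∧ |(X i).1 - N * c| < 2 ^ K) ∨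
      (∀ c : ℤ, b ≤ c → c < b + R → (X i).2 - N * c ≠ 0 ∧ |(X i).2 - N * c| < 2 ^ K)) :
    ∃ c : ℤ × ℤ, a ≤ c.1 ∧ c.1 < a + R ∧ b ≤ c.2 ∧ c.2 < b + R ∧
      (4 : ℤ) ∣ c.1 - e.1 ∧ (4 : ℤ) ∣ c.2 - e.2 ∧
      ∀ i, ∀ p : ℕ, p.Prime → p ≠ 2 →
        ¬ ((p : ℤ) ∣ (X i).1 - N * c.1 ∧ (p : ℤ) ∣ (X i).2 - N * c.2) := by
  classical
  have hQpos := SQ_pos
  have hgcd : ∀ i, ∀ p : ℕ, p.Prime → (p : ℤ) ∣ N → (p : ℤ) ∣ (X i).1 → (p : ℤ) ∣ (X i).2 →
      False := by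
    intro i p hp h1 h2 h3
    have h4 : (p : ℤ) ∣ (Int.gcd (Int.gcd (X i).1 (X i).2) N : ℤ) :=
      Int.dvd_coe_gcd (Int.dvd_coe_gcd h2 h3) h1
    rw [hX] at h4
    exact (Nat.prime_iff_prime_int.mp hp).not_isUnit (isUnit_of_dvd_one (by simpa using h4))
  set n : ℕ := R / SQ with hn
  have hn1 : 128 * (K + 1) ≤ n := by
    rw [hn, Nat.le_div_iff_mul_le hQpos]
    calc 128 * (K + 1) * SQ = (128 * SQ) * (K + 1) := by ring
      _ ≤ R := hRK
  have hnR : SQ * n ≤ R := Nat.mul_div_le R SQ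
  -- class of the point
  obtain ⟨r, hr⟩ := crt_choice hι N X hX e ((Finset.range 129).filter (fun p => p.Prime ∧ p ≠ 2))
    (fun p hp => (Finset.mem_filter.mp hp).2)
  rw [SQ_cast] at hr
  have hQZ : (0 : ℤ) < (SQ : ℤ) := by exact_mod_cast hQpos
  -- shift the representative into the box
  obtain ⟨k1, hk1a, hk1b⟩ : ∃ k : ℤ, a ≤ r.1 + SQ * k ∧ r.1 + SQ * k < a + SQ := by
    refine ⟨-((r.1 - a) / SQ), ?_, ?_⟩
    · have := Int.emod_nonneg (r.1 - a) hQZ.ne'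
      have h2 := Int.emod_def (r.1 - a) SQ
      linarith [mul_neg (SQ : ℤ) ((r.1 - a) / SQ)]
    · have := Int.emod_lt_of_pos (r.1 - a) hQZ
      have h2 := Int.emod_def (r.1 - a) SQ
      linarith [mul_neg (SQ : ℤ) ((r.1 - a) / SQ)]
  obtain ⟨k2, hk2a, hk2b⟩ : ∃ k : ℤ, b ≤ r.2 + SQ * k ∧ r.2 + SQ * k < b + SQ := by
    refine ⟨-((r.2 - b) / SQ), ?_, ?_⟩
    · have := Int.emod_nonneg (r.2 - b) hQZ.ne'
      have h2 := Int.emod_def (r.2 - b) SQ
      linarith [mul_neg (SQ : ℤ) ((r.2 - b) / SQ)]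
    · have := Int.emod_lt_of_pos (r.2 - b) hQZ
      have h2 := Int.emod_def (r.2 - b) SQ
      linarith [mul_neg (SQ : ℤ) ((r.2 - b) / SQ)]
  set a' : ℤ := r.1 + SQ * k1 with ha'
  set b' : ℤ := r.2 + SQ * k2 with hb'
  have hbox : ∀ (s s' : ℤ), s ≤ s' → s' < s + SQ → ∀ u : ℕ, u < n →
      s ≤ s' + SQ * u ∧ s' + SQ * u < s + R := by
    intro s s' h1 h2 u hu
    constructor
    · have : (0 : ℤ) ≤ SQ * u := by positivity
      linarith
    · have h3 : (SQ : ℤ) * (u + 1) ≤ R := by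
        have : SQ * (u + 1) ≤ R := (Nat.mul_le_mul_left _ hu).trans hnR
        exact_mod_cast this
      nlinarith
  -- the bad sets
  set G : Finset (ℕ × ℕ) := Finset.range n ×ˢ Finset.range n with hG
  let Bs : ι → ℕ → Finset (ℕ × ℕ) := fun i p => G.filter (fun w : ℕ × ℕ =>
      (p : ℤ) ∣ (X i).1 - N * (a' + SQ * w.1) ∧ (p : ℤ) ∣ (X i).2 - N * (b' + SQ * w.2))
  let Bl : ι → Finset (ℕ × ℕ) := fun i => G.filter (fun w : ℕ × ℕ => ∃ p : ℕ, p.Prime ∧ n < p ∧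
      (p : ℤ) ∣ (X i).1 - N * (a' + SQ * w.1) ∧ (p : ℤ) ∣ (X i).2 - N * (b' + SQ * w.2))
  let Bad : Finset (ℕ × ℕ) :=
    (Finset.univ.biUnion fun i => ((Finset.Ioc 128 n).filter Nat.Prime).biUnion (Bs i)) ∪
      Finset.univ.biUnion Bl
  have hBl : ∀ i, (Bl i).card ≤ n * K := by
    intro i
    have h1 := large_count_left N SQ (X i).1 (X i).2 a' b' n K (hgcd i)
      (fun p hp hnp => not_dvd_SQ p hp (by omega)) (by
        rcases hh i with h | h
        · left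
          intro u hu
          have := hbox a a' hk1a hk1b u hu
          exact h _ this.1 this.2
        · right
          intro u hu
          have := hbox b b' hk2a hk2b u hu
          exact h _ this.1 this.2)
    convert h1 using 2
  have hBs : ∀ i, ∀ p ∈ (Finset.Ioc 128 n).filter Nat.Prime,
      ((Bs i p).card : ℝ) ≤ 4 * (n : ℝ) ^ 2 * ((p : ℝ) ^ 2)⁻¹ := by
    intro i p hp
    rw [Finset.mem_filter, Finset.mem_Ioc] at hp
    have h1 := small_count N SQ (X i).1 (X i).2 a' b' n p hp.2 (hgcd i p hp.2)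
      (not_dvd_SQ p hp.2 hp.1.1)
    have h1' : (Bs i p).card ≤ (n / p + 1) ^ 2 := by
      convert h1 using 2
    have h2 : ((n / p : ℕ) : ℝ) ≤ (n : ℝ) / p := Nat.cast_div_le
    have hp0 : (0 : ℝ) < p := by exact_mod_cast hp.2.pos
    have h3 : (1 : ℝ) ≤ (n : ℝ) / p := by
      rw [le_div_iff₀ hp0, one_mul]; exact_mod_cast hp.1.2
    have h4 : (((n / p : ℕ) : ℝ) + 1) ^ 2 ≤ (2 * ((n : ℝ) / p)) ^ 2 := by
      apply pow_le_pow_left₀ (by positivity)
      linarith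
    have h5 : ((Bs i p).card : ℝ) ≤ (((n / p : ℕ) : ℝ) + 1) ^ 2 := by exact_mod_cast h1'
    calc ((Bs i p).card : ℝ) ≤ _ := h5
      _ ≤ _ := h4
      _ = 4 * (n : ℝ) ^ 2 * ((p : ℝ) ^ 2)⁻¹ := by field_simp; ring
  have hcardι : (Fintype.card ι : ℝ) ≤ 8 := by exact_mod_cast hι
  have hsum : ∀ i, ∑ p ∈ (Finset.Ioc 128 n).filter Nat.Prime, ((Bs i p).card : ℝ)
      ≤ 4 * (n : ℝ) ^ 2 * (1 / 128) := by
    intro i
    calc ∑ p ∈ (Finset.Ioc 128 n).filter Nat.Prime, ((Bs i p).card : ℝ)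
        ≤ ∑ p ∈ (Finset.Ioc 128 n).filter Nat.Prime, 4 * (n : ℝ) ^ 2 * ((p : ℝ) ^ 2)⁻¹ :=
          Finset.sum_le_sum (hBs i)
      _ ≤ ∑ p ∈ (Finset.Ioc 128 n), 4 * (n : ℝ) ^ 2 * ((p : ℝ) ^ 2)⁻¹ := by
          apply Finset.sum_le_sum_of_subset_of_nonneg (Finset.filter_subset _ _)
          intros; positivity
      _ = 4 * (n : ℝ) ^ 2 * ∑ p ∈ (Finset.Ioc 128 n), ((p : ℝ) ^ 2)⁻¹ := by
          rw [Finset.mul_sum]
      _ ≤ 4 * (n : ℝ) ^ 2 * (1 / 128) := by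
          apply mul_le_mul_of_nonneg_left _ (by positivity)
          have := sum_Ioc_inv_sq_le_sub (α := ℝ) (k := 128) (n := n) (by norm_num) (by omega)
          have h0 : (0 : ℝ) ≤ (n : ℝ)⁻¹ := by positivity
          push_cast at this
          linarith
  have hBad : (Bad.card : ℝ) < (n : ℝ) ^ 2 := by
    have h1 : (Bad.card : ℝ) ≤ ∑ i : ι, ∑ p ∈ (Finset.Ioc 128 n).filter Nat.Prime,
        ((Bs i p).card : ℝ) + ∑ i : ι, ((Bl i).card : ℝ) := by
      have h2 : Bad.card ≤ ∑ i : ι, ∑ p ∈ (Finset.Ioc 128 n).filter Nat.Prime, (Bs i p).card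
          + ∑ i : ι, (Bl i).card := by
        refine (Finset.card_union_le _ _).trans (Nat.add_le_add ?_ Finset.card_biUnion_le)
        refine Finset.card_biUnion_le.trans (Finset.sum_le_sum fun i _ => Finset.card_biUnion_le)
      exact_mod_cast h2
    have h3 : ∑ i : ι, ∑ p ∈ (Finset.Ioc 128 n).filter Nat.Prime, ((Bs i p).card : ℝ)
        ≤ 8 * (4 * (n : ℝ) ^ 2 * (1 / 128)) := by
      calc _ ≤ ∑ i : ι, 4 * (n : ℝ) ^ 2 * (1 / 128) := Finset.sum_le_sum fun i _ => hsum i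
        _ = (Fintype.card ι : ℝ) * (4 * (n : ℝ) ^ 2 * (1 / 128)) := by
          rw [Finset.sum_const, nsmul_eq_mul, Finset.card_univ]
        _ ≤ _ := by
          apply mul_le_mul_of_nonneg_right hcardι (by positivity)
    have h4 : ∑ i : ι, ((Bl i).card : ℝ) ≤ 8 * ((n : ℝ) * K) := by
      calc _ ≤ ∑ i : ι, (n : ℝ) * K := Finset.sum_le_sum fun i _ => by exact_mod_cast hBl i
        _ = (Fintype.card ι : ℝ) * ((n : ℝ) * K) := by
          rw [Finset.sum_const, nsmul_eq_mul, Finset.card_univ]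
        _ ≤ _ := by
          apply mul_le_mul_of_nonneg_right hcardι (by positivity)
    have h5 : (128 : ℝ) * (K + 1) ≤ n := by exact_mod_cast hn1
    have hK0 : (0 : ℝ) ≤ K := by positivity
    have hnpos : (0 : ℝ) < n := by linarith
    nlinarith
  -- a good point
  have hex : ∃ w ∈ G, w ∉ Bad := by
    by_contra hcon
    push Not at hcon
    have h1 : G.card ≤ Bad.card := Finset.card_le_card hcon
    have h2 : G.card = n ^ 2 := by
      rw [hG, Finset.card_product, Finset.card_range, pow_two]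
    rw [h2] at h1
    have h3 : ((n ^ 2 : ℕ) : ℝ) ≤ (Bad.card : ℝ) := by exact_mod_cast h1
    push_cast at h3
    linarith
  obtain ⟨w, hwG, hwB⟩ := hex
  have hw1 : w.1 < n := by
    have := (Finset.mem_product.mp hwG).1; exact Finset.mem_range.mp this
  have hw2 : w.2 < n := by
    have := (Finset.mem_product.mp hwG).2; exact Finset.mem_range.mp this
  obtain ⟨f1, f2⟩ := hbox a a' hk1a hk1b w.1 hw1
  obtain ⟨f3, f4⟩ := hbox b b' hk2a hk2b w.2 hw2
  refine ⟨(a' + SQ * w.1, b' + SQ * w.2), f1, f2, f3, f4, ?_⟩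
  have hr' := hr (k1 + w.1, k2 + w.2)
  have t1 : r.1 + (SQ : ℤ) * (k1 + w.1) = a' + SQ * w.1 := by rw [ha']; ring
  have t2 : r.2 + (SQ : ℤ) * (k2 + w.2) = b' + SQ * w.2 := by rw [hb']; ring
  simp only at hr'
  rw [t1, t2] at hr'
  refine ⟨hr'.1, hr'.2.1, ?_⟩
  intro i p hp hp2 hdvd
  by_cases hp128 : p ≤ 128
  · exact hr'.2.2 p (by rw [Finset.mem_filter, Finset.mem_range]; exact ⟨by omega, hp, hp2⟩) i hdvd
  · push Not at hp128
    apply hwB
    by_cases hpn : p ≤ n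
    · apply Finset.mem_union_left
      rw [Finset.mem_biUnion]
      refine ⟨i, Finset.mem_univ _, ?_⟩
      rw [Finset.mem_biUnion]
      refine ⟨p, ?_, ?_⟩
      · rw [Finset.mem_filter, Finset.mem_Ioc]; exact ⟨⟨hp128, hpn⟩, hp⟩
      · exact Finset.mem_filter.mpr ⟨hwG, hdvd⟩
    · push Not at hpn
      apply Finset.mem_union_right
      rw [Finset.mem_biUnion]
      exact ⟨i, Finset.mem_univ _, Finset.mem_filter.mpr ⟨hwG, p, hp, hpn, hdvd⟩⟩


lemma gcd_eq_one_of_primes (x y z : ℤ)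
    (h : ∀ p : ℕ, p.Prime → (p : ℤ) ∣ x → (p : ℤ) ∣ y → (p : ℤ) ∣ z → False) :
    Int.gcd (Int.gcd x y) z = 1 := by
  by_contra hne
  obtain ⟨p, hp, hd⟩ := Nat.exists_prime_and_dvd hne
  have hd' : (p : ℤ) ∣ (Int.gcd (Int.gcd x y) z : ℤ) := by exact_mod_cast hd
  have h1 : (p : ℤ) ∣ (Int.gcd x y : ℤ) := hd'.trans (Int.gcd_dvd_left _ _)
  exact h p hp (h1.trans (Int.gcd_dvd_left _ _)) (h1.trans (Int.gcd_dvd_right _ _))
    (hd'.trans (Int.gcd_dvd_right _ _))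

lemma eq_one_or_two_of (g : ℕ) (h0 : g ≠ 0) (h : ∀ p : ℕ, p.Prime → p ≠ 2 → ¬ p ∣ g)
    (h4 : ¬ 4 ∣ g) : g = 1 ∨ g = 2 := by
  have h1 : ∃ k, g = 2 ^ k := by
    refine ⟨_, Nat.eq_prime_pow_of_unique_prime_dvd h0 ?_⟩
    intro d hd hdg
    by_contra hne
    exact h d hd hne hdg
  obtain ⟨k, rfl⟩ := h1
  have h2 : k ≤ 1 := by
    by_contra hlt
    push Not at hlt
    apply h4
    exact (pow_dvd_pow 2 hlt)
  interval_cases k
  · left; norm_num
  · right; norm_num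

/-- **SA**: a common primitive observer for at most eight targets, in a prescribed class mod 2. -/
theorem SA (R K : ℕ) (hRK : (128 * SQ) * (K + 1) ≤ R)
    {ι : Type} [Fintype ι] (hι : Fintype.card ι ≤ 8) (y : ι → ℤ × ℤ) (e : ℤ × ℤ)
    (he : ∀ i, ¬ ((2 : ℤ) ∣ (y i).1 - e.1 ∧ (2 : ℤ) ∣ (y i).2 - e.2)) (a b : ℤ)
    (hh : ∀ i, (∀ c : ℤ, a ≤ c → c < a + R → (y i).1 - c ≠ 0 ∧ |(y i).1 - c| < 2 ^ K) ∨
      (∀ c : ℤ, b ≤ c → c < b + R → (y i).2 - c ≠ 0 ∧ |(y i).2 - c| < 2 ^ K)) :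
    ∃ w : ℤ × ℤ, a ≤ w.1 ∧ w.1 < a + R ∧ b ≤ w.2 ∧ w.2 < b + R ∧
      (2 : ℤ) ∣ w.1 - e.1 ∧ (2 : ℤ) ∣ w.2 - e.2 ∧
      ∀ i, Int.gcd ((y i).1 - w.1) ((y i).2 - w.2) = 1 := by
  obtain ⟨c, h1, h2, h3, h4, h5, h6, h7⟩ := sieve R K hRK hι 1 y (fun i => by simp) e a b
    (fun i => by simpa using hh i)
  have h5' : (2 : ℤ) ∣ c.1 - e.1 := (by norm_num : (2 : ℤ) ∣ 4).trans h5
  have h6' : (2 : ℤ) ∣ c.2 - e.2 := (by norm_num : (2 : ℤ) ∣ 4).trans h6
  refine ⟨c, h1, h2, h3, h4, h5', h6', ?_⟩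
  intro i
  by_contra hne
  obtain ⟨p, hp, hd⟩ := Nat.exists_prime_and_dvd hne
  have hd' : (p : ℤ) ∣ (Int.gcd ((y i).1 - c.1) ((y i).2 - c.2) : ℤ) := by exact_mod_cast hd
  have g1 := hd'.trans (Int.gcd_dvd_left _ _)
  have g2 := hd'.trans (Int.gcd_dvd_right _ _)
  by_cases hp2 : p = 2
  · subst hp2
    apply he i
    constructor
    · have := dvd_add g1 h5'
      simpa using this
    · have := dvd_add g2 h6'
      simpa using this
  · apply h7 i p hp hp2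
    simpa using ⟨g1, g2⟩

/-- **SB**: a unit square all of whose corners see `X / N` with gcd `1` or `2`. -/
theorem SB (R K : ℕ) (hRK : (128 * SQ) * (K + 1) ≤ R) (N : ℤ) (X : ℤ × ℤ)
    (hX : Int.gcd (Int.gcd X.1 X.2) N = 1) (a b : ℤ)
    (hh : (∀ c : ℤ, a ≤ c → c ≤ a + R → X.1 - N * c ≠ 0 ∧ |X.1 - N * c| < 2 ^ K) ∨
      (∀ c : ℤ, b ≤ c → c ≤ b + R → X.2 - N * c ≠ 0 ∧ |X.2 - N * c| < 2 ^ K)) :
    ∃ w : ℤ × ℤ, a ≤ w.1 ∧ w.1 < a + R ∧ b ≤ w.2 ∧ w.2 < b + R ∧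
      ∀ ε₁ ε₂ : ℤ, (ε₁ = 0 ∨ ε₁ = 1) → (ε₂ = 0 ∨ ε₂ = 1) →
        Int.gcd (X.1 - N * (w.1 + ε₁)) (X.2 - N * (w.2 + ε₂)) = 1 ∨
        Int.gcd (X.1 - N * (w.1 + ε₁)) (X.2 - N * (w.2 + ε₂)) = 2 := by
  have hXp : ∀ p : ℕ, p.Prime → (p : ℤ) ∣ X.1 → (p : ℤ) ∣ X.2 → (p : ℤ) ∣ N → False := by
    intro p hp h1 h2 h3
    have h4 : (p : ℤ) ∣ (Int.gcd (Int.gcd X.1 X.2) N : ℤ) :=
      Int.dvd_coe_gcd (Int.dvd_coe_gcd h1 h2) h3
    rw [hX] at h4
    exact (Nat.prime_iff_prime_int.mp hp).not_isUnit (isUnit_of_dvd_one (by simpa using h4))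
  obtain ⟨c, h1, h2, h3, h4, h5, h6, h7⟩ := sieve R K hRK (ι := Fin 2 × Fin 2) (by simp) N
    (fun i => (X.1 - N * ((i.1 : ℕ) : ℤ), X.2 - N * ((i.2 : ℕ) : ℤ))) (by
      intro i
      apply gcd_eq_one_of_primes
      intro p hp g1 g2 g3
      apply hXp p hp _ _ g3
      · have := dvd_add g1 (Dvd.dvd.mul_right g3 ((i.1 : ℕ) : ℤ))
        simpa using this
      · have := dvd_add g2 (Dvd.dvd.mul_right g3 ((i.2 : ℕ) : ℤ))
        simpa using this) (N * X.1 + 1, N * X.2 + 1) a b (by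
      intro i
      have i1 := i.1.2
      have i2 := i.2.2
      rcases hh with h | h
      · left
        intro c hc1 hc2
        have := h (c + ((i.1 : ℕ) : ℤ)) (by omega) (by omega)
        have e1 : X.1 - N * ((i.1 : ℕ) : ℤ) - N * c = X.1 - N * (c + ((i.1 : ℕ) : ℤ)) := by ring
        simp only
        rw [e1]
        exact this
      · right
        intro c hc1 hc2
        have := h (c + ((i.2 : ℕ) : ℤ)) (by omega) (by omega)
        have e1 : X.2 - N * ((i.2 : ℕ) : ℤ) - N * c = X.2 - N * (c + ((i.2 : ℕ) : ℤ)) := by ring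
        simp only
        rw [e1]
        exact this)
  refine ⟨c, h1, h2, h3, h4, ?_⟩
  intro ε₁ ε₂ hε₁ hε₂
  -- index of the corner
  obtain ⟨i, hi1, hi2⟩ : ∃ i : Fin 2 × Fin 2, ((i.1 : ℕ) : ℤ) = ε₁ ∧ ((i.2 : ℕ) : ℤ) = ε₂ := by
    rcases hε₁ with rfl | rfl <;> rcases hε₂ with rfl | rfl
    · exact ⟨(0, 0), by simp⟩
    · exact ⟨(0, 1), by simp⟩
    · exact ⟨(1, 0), by simp⟩
    · exact ⟨(1, 1), by simp⟩
  have h8 := h7 i
  simp only at h8
  rw [hi1, hi2] at h8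
  have e1 : X.1 - N * ε₁ - N * c.1 = X.1 - N * (c.1 + ε₁) := by ring
  have e2 : X.2 - N * ε₂ - N * c.2 = X.2 - N * (c.2 + ε₂) := by ring
  rw [e1, e2] at h8
  apply eq_one_or_two_of
  · intro h0
    rw [Int.gcd_eq_zero_iff] at h0
    rcases hh with h | h
    · exact (h (c.1 + ε₁) (by rcases hε₁ with rfl | rfl <;> omega)
        (by rcases hε₁ with rfl | rfl <;> omega)).1 h0.1
    · exact (h (c.2 + ε₂) (by rcases hε₂ with rfl | rfl <;> omega)
        (by rcases hε₂ with rfl | rfl <;> omega)).1 h0.2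
  · intro p hp hp2 hd
    have hd' : (p : ℤ) ∣ (Int.gcd (X.1 - N * (c.1 + ε₁)) (X.2 - N * (c.2 + ε₂)) : ℤ) := by
      exact_mod_cast hd
    exact h8 p hp hp2 ⟨hd'.trans (Int.gcd_dvd_left _ _), hd'.trans (Int.gcd_dvd_right _ _)⟩
  · intro hd
    have hd' : (4 : ℤ) ∣ (Int.gcd (X.1 - N * (c.1 + ε₁)) (X.2 - N * (c.2 + ε₂)) : ℤ) := by
      exact_mod_cast hd
    have g1 := hd'.trans (Int.gcd_dvd_left _ _)
    have g2 := hd'.trans (Int.gcd_dvd_right _ _)
    rcases Int.even_or_odd N with hev | hodd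
    · have h2N : (2 : ℤ) ∣ N := hev.two_dvd
      have g1' : (2 : ℤ) ∣ X.1 - N * (c.1 + ε₁) := (by norm_num : (2 : ℤ) ∣ 4).trans g1
      have g2' : (2 : ℤ) ∣ X.2 - N * (c.2 + ε₂) := (by norm_num : (2 : ℤ) ∣ 4).trans g2
      apply hXp 2 Nat.prime_two _ _ (by exact_mod_cast h2N)
      · have := dvd_add g1' (Dvd.dvd.mul_right h2N (c.1 + ε₁))
        simpa using this
      · have := dvd_add g2' (Dvd.dvd.mul_right h2N (c.2 + ε₂))
        simpa using this
    · obtain ⟨m, hm⟩ := hodd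
      obtain ⟨q, hq⟩ := h5
      obtain ⟨t, ht⟩ := g1
      simp only at hq
      have hc : c.1 = N * X.1 + 1 + 4 * q := by linarith
      rw [hc, hm] at ht
      rcases hε₁ with rfl | rfl
      · have : (4 : ℤ) * (t + (m ^ 2 + m) * X.1 + (2 * m + 1) * q) + 2 * m + 1 = 0 := by
          nlinarith
        omega
      · have : (4 : ℤ) * (t + (m ^ 2 + m) * X.1 + (2 * m + 1) * q + m) + 2 = 0 := by
          nlinarith
        omega

end Pool.Agent.helper47.Vis
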