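import Pool.Agent.helper47.Vis.Rows

set_option autoImplicit false

/-!
# MP_6b3417_co, module II-P3c: the rows of a trapezoid are long
-/

namespace Pool.Agent.helper47.Vis

/-- Statement of `noEmptyTrap`. -/
def NoEmptyTrapStmt : Prop :=
  ∀ (V : Set (ℝ × ℝ)), V.Finite → K5free V → ∀ (p p' q q' z : ℝ × ℝ),
    p ∈ V → p' ∈ V → q ∈ V → q' ∈ V → z ∈ V →
    p.2 = p'.2 → q.2 = q'.2 → p.1 < p'.1 → q.1 < q'.1 → p.2 < z.2 → z.2 < q.2 →
    (∀ r ∈ V, r ∈ convexHull ℝ ({p, p', q, q'} : Set (ℝ × ℝ)) →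
      r = p ∨ r = p' ∨ r = q ∨ r = q') → False

/-- Statement of `singleChain`. -/
def SingleChainStmt : Prop :=
  ∀ (W : Set (ℝ × ℝ)), W.Finite → K5free W → ∀ (a : ℝ) (J : ℕ)
    (u : ℕ → ℝ), (∀ j k, j < k → k < 2 * J + 6 → u j < u k) →
    (∀ j, j < 2 * J + 6 → (u j, a) ∈ W) →
    (∀ j, j + 1 < 2 * J + 6 → ∀ t : ℝ, u j < t → t < u (j + 1) → (t, a) ∉ W) →
    Set.ncard {h : ℝ | a < h ∧ ∃ w ∈ W, w.2 = h} ≤ J →
    ∀ (c₀ : ℝ × ℝ), c₀ ∈ W → a < c₀.2 →
    (∀ w ∈ W, a < w.2 → w = c₀ ∨ c₀.2 < w.2) →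
    ∀ w ∈ W, ∀ w' ∈ W, a < w.2 → a < w'.2 →
      (w.1 - c₀.1) * (w'.2 - c₀.2) = (w'.1 - c₀.1) * (w.2 - c₀.2)

/-- Size inequality for three consecutive rows. -/
def SizeStmt : Prop :=
  ∀ (V : Set (ℝ × ℝ)), K5free V → ∀ (η : ℕ → ℝ) (n : ℕ → ℕ) (x : ℕ → ℕ → ℝ),
    Rows V 2 η n x → 1 ≤ n 0 → 2 ≤ n 1 → 1 ≤ n 2 → n 0 + n 2 ≤ 2 * n 1 + 2

lemma K5free_inter {V T : Set (ℝ × ℝ)} (hK : K5free V) (hT : Convex ℝ T) : K5free (V ∩ T) := by
  rintro ⟨f, hf, hs⟩
  apply hK
  refine ⟨f, fun i => (hf i).1, fun i j hij => ⟨(hs i j hij).1, fun r hr hro => ?_⟩⟩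
  exact (hs i j hij).2 r ⟨hr, hT.openSegment_subset (hf i).2 (hf j).2 hro⟩ hro

lemma exists_cut (n : ℕ) (P : ℕ → Prop) (hP : ∀ j k, j < k → k < n → P k → P j) :
    ∃ c ≤ n, ∀ j, j < n → (P j ↔ j < c) := by
  induction n with
  | zero => exact ⟨0, le_refl _, fun j hj => absurd hj (by omega)⟩
  | succ n ih =>
    obtain ⟨c, hc, hc'⟩ := ih (fun j k h1 h2 h3 => hP j k h1 (by omega) h3)
    by_cases hn : P n
    · refine ⟨n + 1, le_refl _, fun j hj => ⟨fun _ => hj, fun _ => ?_⟩⟩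
      rcases Nat.lt_succ_iff_lt_or_eq.mp hj with h | h
      · exact hP j n h (by omega) hn
      · rw [h]; exact hn
    · refine ⟨c, by omega, fun j hj => ?_⟩
      rcases Nat.lt_succ_iff_lt_or_eq.mp hj with h | h
      · exact hc' j h
      · subst h
        exact ⟨fun h => absurd h hn, fun h => absurd h (by omega)⟩

lemma concave_min (f : ℕ → ℤ) (J : ℕ) (h : ∀ k, k + 2 ≤ J → f k + f (k + 2) ≤ 2 * f (k + 1)) :
    ∀ i, i ≤ J → min (f 0) (f J) ≤ f i := by
  by_contra hcon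
  push Not at hcon
  classical
  have hex : ∃ i, i ≤ J ∧ f i < min (f 0) (f J) := hcon
  set i := Nat.find hex with hi
  obtain ⟨h1, h2⟩ := Nat.find_spec hex
  rw [← hi] at h1 h2
  have hi0 : i ≠ 0 := by
    intro h0
    rw [h0] at h2
    exact absurd (lt_of_lt_of_le h2 (min_le_left _ _)) (lt_irrefl _)
  obtain ⟨k, hk⟩ := Nat.exists_eq_succ_of_ne_zero hi0
  have hprev : min (f 0) (f J) ≤ f k := by
    by_contra hlt
    push Not at hlt
    have := Nat.find_min hex (m := k) (by omega)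
    exact this ⟨by omega, hlt⟩
  -- differences are negative from `k` on
  have hneg : ∀ s, k + s + 1 ≤ J → f (k + s + 1) < f (k + s) := by
    intro s
    induction s with
    | zero =>
      intro _
      have : i = k + 1 := hk
      rw [this] at h2
      simpa using lt_of_lt_of_le h2 hprev
    | succ s ih =>
      intro hs
      have h3 := ih (by omega)
      have h4 := h (k + s) (by omega)
      have e1 : k + (s + 1) + 1 = k + s + 2 := by ring
      have e2 : k + (s + 1) = k + s + 1 := by ring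
      rw [e1, e2]
      linarith
  have hdec : ∀ s, i + s ≤ J → f (i + s) ≤ f i := by
    intro s
    induction s with
    | zero => intro _; simp
    | succ s ih =>
      intro hs
      have h3 := ih (by omega)
      have h4 := hneg (s + 1) (by omega)
      have e1 : k + (s + 1) + 1 = i + (s + 1) := by omega
      have e2 : k + (s + 1) = i + s := by omega
      rw [e1, e2] at h4
      linarith
  have h5 := hdec (J - i) (by omega)
  rw [show i + (J - i) = J by omega] at h5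
  exact absurd (lt_of_lt_of_le (lt_of_le_of_lt h5 h2) (min_le_right _ _)) (lt_irrefl _)

lemma Rows.η_lt {V : Set (ℝ × ℝ)} {J : ℕ} {η : ℕ → ℝ} {n : ℕ → ℕ} {x : ℕ → ℕ → ℝ}
    (hR : Rows V J η n x) {a b : ℕ} (hab : a < b) (hb : b ≤ J) : η a < η b := by
  induction b with
  | zero => omega
  | succ b ih =>
    rcases Nat.lt_succ_iff_lt_or_eq.mp hab with h | h
    · exact (ih h (by omega)).trans (hR.hη b (by omega))
    · subst h; exact hR.hη a (by omega)

lemma Rows.η_le {V : Set (ℝ × ℝ)} {J : ℕ} {η : ℕ → ℝ} {n : ℕ → ℕ} {x : ℕ → ℕ → ℝ}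
    (hR : Rows V J η n x) {a b : ℕ} (hab : a ≤ b) (hb : b ≤ J) : η a ≤ η b := by
  rcases Nat.lt_or_eq_of_le hab with h | h
  · exact (hR.η_lt h hb).le
  · rw [h]

lemma Rows.η_inj {V : Set (ℝ × ℝ)} {J : ℕ} {η : ℕ → ℝ} {n : ℕ → ℕ} {x : ℕ → ℕ → ℝ}
    (hR : Rows V J η n x) {a b : ℕ} (ha : a ≤ J) (hb : b ≤ J) (h : η a = η b) : a = b := by
  rcases lt_trichotomy a b with h' | h' | h'
  · exact absurd h (hR.η_lt h' hb).ne
  · exact h'
  · exact absurd h (hR.η_lt h' ha).ne'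

lemma Rows.lt_of_η {V : Set (ℝ × ℝ)} {J : ℕ} {η : ℕ → ℝ} {n : ℕ → ℕ} {x : ℕ → ℕ → ℝ}
    (hR : Rows V J η n x) {a b : ℕ} (ha : a ≤ J) (h : η a < η b) : a < b := by
  by_contra hcon
  push Not at hcon
  exact absurd h (not_lt.mpr (hR.η_le hcon ha))

lemma Rows.x_inj {V : Set (ℝ × ℝ)} {J : ℕ} {η : ℕ → ℝ} {n : ℕ → ℕ} {x : ℕ → ℕ → ℝ}
    (hR : Rows V J η n x) {i j k : ℕ} (hi : i ≤ J) (hj : j < n i)
    (h : x i j < x i k) : j < k := by
  by_contra hcon
  push Not at hcon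
  rcases Nat.lt_or_eq_of_le hcon with h' | h'
  · exact absurd h (not_lt.mpr (hR.hx i hi k j h' hj).le)
  · rw [h'] at h; exact lt_irrefl _ h

/-- The closed trapezoid (strip between two lines). -/
def trap (η₀ η₁ a c b d : ℝ) : Set (ℝ × ℝ) :=
  {p | η₀ ≤ p.2 ∧ p.2 ≤ η₁ ∧ side η₀ η₁ a c p.2 ≤ p.1 ∧ p.1 ≤ side η₀ η₁ b d p.2}

lemma side_affine (η₀ η₁ a c h h' s t : ℝ) (hst : s + t = 1) :
    side η₀ η₁ a c (s * h + t * h') = s * side η₀ η₁ a c h + t * side η₀ η₁ a c h' := by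
  unfold side
  have : s = 1 - t := by linarith
  subst this
  ring

lemma trap_convex (η₀ η₁ a c b d : ℝ) : Convex ℝ (trap η₀ η₁ a c b d) := by
  rintro p ⟨p1, p2, p3, p4⟩ q ⟨q1, q2, q3, q4⟩ s t hs ht hst
  simp only [trap, Set.mem_ofPred_eq, Prod.snd_add, Prod.smul_snd, smul_eq_mul, Prod.fst_add,
    Prod.smul_fst]
  rw [side_affine _ _ _ _ _ _ _ _ hst, side_affine _ _ _ _ _ _ _ _ hst]
  have e0 : s * η₀ + t * η₀ = η₀ := by rw [← add_mul, hst, one_mul]
  have e1 : s * η₁ + t * η₁ = η₁ := by rw [← add_mul, hst, one_mul]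
  have a1 := mul_le_mul_of_nonneg_left p1 hs
  have a2 := mul_le_mul_of_nonneg_left p2 hs
  have a3 := mul_le_mul_of_nonneg_left p3 hs
  have a4 := mul_le_mul_of_nonneg_left p4 hs
  have b1 := mul_le_mul_of_nonneg_left q1 ht
  have b2 := mul_le_mul_of_nonneg_left q2 ht
  have b3 := mul_le_mul_of_nonneg_left q3 ht
  have b4 := mul_le_mul_of_nonneg_left q4 ht
  refine ⟨?_, ?_, ?_, ?_⟩ <;> linarith

lemma side_left (η₀ η₁ a c : ℝ) (h : η₀ < η₁) : side η₀ η₁ a c η₀ = a := by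
  unfold side
  have : η₁ - η₀ ≠ 0 := (sub_pos.mpr h).ne'
  field_simp
  ring

lemma side_right (η₀ η₁ a c : ℝ) (h : η₀ < η₁) : side η₀ η₁ a c η₁ = c := by
  unfold side
  have : η₁ - η₀ ≠ 0 := (sub_pos.mpr h).ne'
  field_simp
  ring

lemma side_lt (η₀ η₁ a c b d h : ℝ) (h0 : η₀ ≤ h) (h1 : h ≤ η₁) (hη : η₀ < η₁) (hab : a < b)
    (hcd : c < d) : side η₀ η₁ a c h < side η₀ η₁ b d h := by
  unfold side
  apply div_lt_div_of_pos_right _ (sub_pos.mpr hη)
  rcases eq_or_lt_of_le h0 with h' | h'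
  · subst h'
    have : 0 < (η₁ - η₀) := sub_pos.mpr hη
    nlinarith
  · nlinarith


/-- Selection of three rows. -/
def sel {α : Type} (f : ℕ → α) (a b c : ℕ) : ℕ → α := fun i => if i = 0 then f a else if i = 1 then f b else f c

lemma hull_bottom (p p' q q' : ℝ × ℝ) (h1 : p.2 = p'.2) (h2 : q.2 = q'.2) (h3 : p.1 < p'.1)
    (h4 : p.2 < q.2) (r : ℝ × ℝ) (hr : r ∈ convexHull ℝ ({p, p', q, q'} : Set (ℝ × ℝ))) :
    p.2 ≤ r.2 ∧ (r.2 = p.2 → p.1 ≤ r.1 ∧ r.1 ≤ p'.1) := by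
  have hsub : convexHull ℝ ({p, p', q, q'} : Set (ℝ × ℝ)) ⊆
      {r : ℝ × ℝ | p.2 ≤ r.2 ∧ (r.2 = p.2 → p.1 ≤ r.1 ∧ r.1 ≤ p'.1)} := by
    apply convexHull_min
    · intro r hr
      simp only [Set.mem_insert_iff, Set.mem_singleton_iff] at hr
      rcases hr with rfl | rfl | rfl | rfl
      · exact ⟨le_refl _, fun _ => ⟨le_refl _, h3.le⟩⟩
      · exact ⟨h1.le, fun _ => ⟨h3.le, le_refl _⟩⟩
      · exact ⟨h4.le, fun h => absurd h h4.ne'⟩
      · exact ⟨by rw [← h2]; exact h4.le, fun h => absurd h (by rw [← h2]; exact h4.ne')⟩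
    · rintro u ⟨u1, u2⟩ v ⟨v1, v2⟩ s t hs ht hst
      simp only [Set.mem_ofPred_eq, Prod.snd_add, Prod.smul_snd, smul_eq_mul, Prod.fst_add,
        Prod.smul_fst]
      have e0 : s * p.2 + t * p.2 = p.2 := by rw [← add_mul, hst, one_mul]
      have a1 := mul_le_mul_of_nonneg_left u1 hs
      have b1 := mul_le_mul_of_nonneg_left v1 ht
      refine ⟨by linarith, fun h => ?_⟩
      have k1 : s * u.2 = s * p.2 := by linarith
      have k2 : t * v.2 = t * p.2 := by linarith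
      have l1 : s * p.1 ≤ s * u.1 ∧ s * u.1 ≤ s * p'.1 := by
        rcases eq_or_lt_of_le hs with h0 | h0
        · rw [← h0]; simp
        · have := mul_left_cancel₀ h0.ne' k1
          obtain ⟨g1, g2⟩ := u2 this
          exact ⟨mul_le_mul_of_nonneg_left g1 hs, mul_le_mul_of_nonneg_left g2 hs⟩
      have l2 : t * p.1 ≤ t * v.1 ∧ t * v.1 ≤ t * p'.1 := by
        rcases eq_or_lt_of_le ht with h0 | h0
        · rw [← h0]; simp
        · have := mul_left_cancel₀ h0.ne' k2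
          obtain ⟨g1, g2⟩ := v2 this
          exact ⟨mul_le_mul_of_nonneg_left g1 ht, mul_le_mul_of_nonneg_left g2 ht⟩
      have f0 : s * p.1 + t * p.1 = p.1 := by rw [← add_mul, hst, one_mul]
      have f1 : s * p'.1 + t * p'.1 = p'.1 := by rw [← add_mul, hst, one_mul]
      constructor
      · linarith [l1.1, l2.1]
      · linarith [l1.2, l2.2]
  exact hsub hr

lemma hull_top (p p' q q' : ℝ × ℝ) (h1 : p.2 = p'.2) (h2 : q.2 = q'.2) (h3 : q.1 < q'.1)
    (h4 : p.2 < q.2) (r : ℝ × ℝ) (hr : r ∈ convexHull ℝ ({p, p', q, q'} : Set (ℝ × ℝ))) :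
    r.2 ≤ q.2 ∧ (r.2 = q.2 → q.1 ≤ r.1 ∧ r.1 ≤ q'.1) := by
  have hsub : convexHull ℝ ({p, p', q, q'} : Set (ℝ × ℝ)) ⊆
      {r : ℝ × ℝ | r.2 ≤ q.2 ∧ (r.2 = q.2 → q.1 ≤ r.1 ∧ r.1 ≤ q'.1)} := by
    apply convexHull_min
    · intro r hr
      simp only [Set.mem_insert_iff, Set.mem_singleton_iff] at hr
      rcases hr with rfl | rfl | rfl | rfl
      · exact ⟨h4.le, fun h => absurd h h4.ne⟩
      · exact ⟨by rw [← h1]; exact h4.le, fun h => absurd h (by rw [← h1]; exact h4.ne)⟩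
      · exact ⟨le_refl _, fun _ => ⟨le_refl _, h3.le⟩⟩
      · exact ⟨h2.ge, fun _ => ⟨h3.le, le_refl _⟩⟩
    · rintro u ⟨u1, u2⟩ v ⟨v1, v2⟩ s t hs ht hst
      simp only [Set.mem_ofPred_eq, Prod.snd_add, Prod.smul_snd, smul_eq_mul, Prod.fst_add,
        Prod.smul_fst]
      have e0 : s * q.2 + t * q.2 = q.2 := by rw [← add_mul, hst, one_mul]
      have a1 := mul_le_mul_of_nonneg_left u1 hs
      have b1 := mul_le_mul_of_nonneg_left v1 ht
      refine ⟨by linarith, fun h => ?_⟩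
      have k1 : s * u.2 = s * q.2 := by linarith
      have k2 : t * v.2 = t * q.2 := by linarith
      have l1 : s * q.1 ≤ s * u.1 ∧ s * u.1 ≤ s * q'.1 := by
        rcases eq_or_lt_of_le hs with h0 | h0
        · rw [← h0]; simp
        · have := mul_left_cancel₀ h0.ne' k1
          obtain ⟨g1, g2⟩ := u2 this
          exact ⟨mul_le_mul_of_nonneg_left g1 hs, mul_le_mul_of_nonneg_left g2 hs⟩
      have l2 : t * q.1 ≤ t * v.1 ∧ t * v.1 ≤ t * q'.1 := by
        rcases eq_or_lt_of_le ht with h0 | h0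
        · rw [← h0]; simp
        · have := mul_left_cancel₀ h0.ne' k2
          obtain ⟨g1, g2⟩ := v2 this
          exact ⟨mul_le_mul_of_nonneg_left g1 ht, mul_le_mul_of_nonneg_left g2 ht⟩
      have f0 : s * q.1 + t * q.1 = q.1 := by rw [← add_mul, hst, one_mul]
      have f1 : s * q'.1 + t * q'.1 = q'.1 := by rw [← add_mul, hst, one_mul]
      constructor
      · linarith [l1.1, l2.1]
      · linarith [l1.2, l2.2]
  exact hsub hr


/-- Sub-rows inside a convex set. -/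
structure Sub (V T : Set (ℝ × ℝ)) (J : ℕ) (η : ℕ → ℝ) (n : ℕ → ℕ) (x : ℕ → ℕ → ℝ)
    (l m : ℕ → ℕ) : Prop where
  le : ∀ i, i ≤ J → l i + m i ≤ n i
  iff : ∀ i, i ≤ J → ∀ j, j < n i → ((x i j, η i) ∈ T ↔ l i ≤ j ∧ j < l i + m i)

lemma Sub.rows3 {V T : Set (ℝ × ℝ)} {J : ℕ} {η : ℕ → ℝ} {n : ℕ → ℕ} {x : ℕ → ℕ → ℝ}
    {l m : ℕ → ℕ} (hR : Rows V J η n x) (hS : Sub V T J η n x l m) {a b c : ℕ}
    (hab : a < b) (hbc : b < c) (hc : c ≤ J) (h1 : ∀ k, a < k → k < b → m k = 0)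
    (h2 : ∀ k, b < k → k < c → m k = 0) :
    Rows (V ∩ T) 2 (sel η a b c) (sel m a b c) (sel (fun i j => x i (l i + j)) a b c) := by
  have hsel : ∀ i, i ≤ 2 → ∃ k, k ≤ J ∧ sel η a b c i = η k ∧ sel m a b c i = m k ∧
      (sel (fun i j => x i (l i + j)) a b c) i = fun j => x k (l k + j) := by
    intro i hi
    interval_cases i
    · exact ⟨a, by omega, rfl, rfl, rfl⟩
    · exact ⟨b, by omega, rfl, rfl, rfl⟩
    · exact ⟨c, by omega, rfl, rfl, rfl⟩
  refine ⟨?_, ?_, ?_, ?_⟩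
  · intro i hi
    interval_cases i
    · exact hR.η_lt hab (by omega)
    · exact hR.η_lt hbc hc
  · intro i hi j k hjk hk
    obtain ⟨r, hr, e1, e2, e3⟩ := hsel i hi
    rw [e3]
    rw [e2] at hk
    have := hS.le r hr
    exact hR.hx r hr _ _ (by omega) (by omega)
  · intro i hi j hj
    obtain ⟨r, hr, e1, e2, e3⟩ := hsel i hi
    rw [e3, e1]
    rw [e2] at hj
    have := hS.le r hr
    exact ⟨hR.mem r hr _ (by omega), (hS.iff r hr _ (by omega)).mpr ⟨by omega, by omega⟩⟩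
  · rintro p ⟨hpV, hpT⟩ hp1 hp2
    have hp1' : η a ≤ p.2 := hp1
    have hp2' : p.2 ≤ η c := hp2
    obtain ⟨k, hk, j, hj, rfl⟩ := hR.only p hpV ((hR.η_le (Nat.zero_le a) (by omega)).trans hp1')
      (hp2'.trans (hR.η_le hc (le_refl _)))
    have hjm := (hS.iff k hk j hj).mp hpT
    have hak : a ≤ k := by
      by_contra hlt
      push Not at hlt
      exact absurd hp1' (not_le.mpr (hR.η_lt hlt (by omega)))
    have hkc : k ≤ c := by
      by_contra hlt
      push Not at hlt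
      exact absurd hp2' (not_le.mpr (hR.η_lt hlt hk))
    have hm : m k ≠ 0 := by
      intro h0
      rw [h0] at hjm
      omega
    have hcases : k = a ∨ k = b ∨ k = c := by
      by_contra hcon
      push Not at hcon
      obtain ⟨n1, n2, n3⟩ := hcon
      rcases lt_or_gt_of_ne n2 with h | h
      · exact hm (h1 k (by omega) h)
      · exact hm (h2 k h (by omega))
    rcases hcases with rfl | rfl | rfl
    · refine ⟨0, by omega, j - l k, ?_, ?_⟩
      · show j - l k < m k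
        omega
      · show (x k j, η k) = (x k (l k + (j - l k)), η k)
        rw [Nat.add_sub_of_le hjm.1]
    · refine ⟨1, by omega, j - l k, ?_, ?_⟩
      · show j - l k < m k
        omega
      · show (x k j, η k) = (x k (l k + (j - l k)), η k)
        rw [Nat.add_sub_of_le hjm.1]
    · refine ⟨2, by omega, j - l k, ?_, ?_⟩
      · show j - l k < m k
        omega
      · show (x k j, η k) = (x k (l k + (j - l k)), η k)
        rw [Nat.add_sub_of_le hjm.1]

/-- All rows of a long trapezoid have at least two points. -/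
lemma sub_two (hN : NoEmptyTrapStmt) (hSC : SingleChainStmt) (hZ : SizeStmt)
    {V T : Set (ℝ × ℝ)} {J B : ℕ} {η : ℕ → ℝ} {n : ℕ → ℕ} {x : ℕ → ℕ → ℝ}
    {l m : ℕ → ℕ} (hJ : 3 ≤ J) (hB : 100 * J ^ 2 ≤ B) (hfin : V.Finite) (hK : K5free V)
    (hR : Rows V J η n x) (hn : ∀ i, i ≤ J → 1 ≤ n i) (hT : Convex ℝ T)
    (hS : Sub V T J η n x l m) (hT0 : ∀ p ∈ T, p.2 ≤ η J)
    (h0 : B ≤ m 0) (h1 : B / 4 ≤ m J) : ∀ i, i ≤ J → 2 ≤ m i := by
  classical
  by_contra hcon
  push Not at hcon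
  have hex : ∃ i, i ≤ J ∧ m i < 2 := hcon
  obtain ⟨i, ⟨hiJ, him⟩, hmin⟩ : ∃ i, (i ≤ J ∧ m i < 2) ∧ ∀ k, k < i → ¬ (k ≤ J ∧ m k < 2) :=
    ⟨Nat.find hex, Nat.find_spec hex, fun k hk => Nat.find_min hex hk⟩
  have hbig : ∀ k, k < i → 2 ≤ m k := by
    intro k hk
    by_contra hlt
    exact hmin k hk ⟨by omega, by omega⟩
  have hJ2 : 900 ≤ 100 * J ^ 2 := by nlinarith
  have hB4 : 25 * J ^ 2 ≤ B / 4 := by
    rw [Nat.le_div_iff_mul_le (by norm_num)]
    linarith
  have hJJ : 3 * J ≤ J ^ 2 := by nlinarith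
  have hi0 : i ≠ 0 := by
    rintro rfl
    omega
  have hiJ' : i ≠ J := by
    rintro rfl
    omega
  have hKT : K5free (V ∩ T) := K5free_inter hK hT
  have hfinT : (V ∩ T).Finite := hfin.subset Set.inter_subset_left
  -- next nonempty row
  have hexc : ∃ c, i - 1 < c ∧ c ≤ J ∧ 1 ≤ m c := ⟨J, by omega, le_refl _, by omega⟩
  obtain ⟨c, ⟨hc1, hc2, hc3⟩, hcmin⟩ : ∃ c, (i - 1 < c ∧ c ≤ J ∧ 1 ≤ m c) ∧
      ∀ k, k < c → ¬ (i - 1 < k ∧ k ≤ J ∧ 1 ≤ m k) :=
    ⟨Nat.find hexc, Nat.find_spec hexc, fun k hk => Nat.find_min hexc hk⟩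
  have hempty : ∀ k, i - 1 < k → k < c → m k = 0 := by
    intro k h1 h2
    by_contra h3
    exact hcmin k h2 ⟨h1, by omega, by omega⟩
  -- the size inequality
  have hsize : ∀ a b d, a < b → b < d → d ≤ J → (∀ k, a < k → k < b → m k = 0) →
      (∀ k, b < k → k < d → m k = 0) → 1 ≤ m a → 2 ≤ m b → 1 ≤ m d →
      m a + m d ≤ 2 * m b + 2 := by
    intro a b d hab hbd hd g1 g2 g3 g4 g5
    exact hZ (V ∩ T) hKT _ _ _ (hS.rows3 hR hab hbd hd g1 g2) g3 g4 g5
  -- row i - 1 is long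
  have hlong : 2 * J + 6 ≤ m (i - 1) := by
    by_contra hlt
    push Not at hlt
    rcases Nat.lt_or_ge 1 i with hi1 | hi1
    · have hstep : ∀ s, s + 1 ≤ i - 1 → (m (i - 1 - (s + 1)) : ℤ) - m (i - 1 - s)
          ≤ (2 * J + 7) + 2 * s := by
        intro s
        induction s with
        | zero =>
          intro hs
          have := hsize (i - 2) (i - 1) c (by omega) hc1 hc2 (by omega) hempty
            (by have := hbig (i - 2) (by omega); omega) (hbig (i - 1) (by omega)) hc3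
          have e : i - 1 - (0 + 1) = i - 2 := by omega
          rw [e]
          simp only [Nat.sub_zero]
          push_cast
          omega
        | succ s ih =>
          intro hs
          have h3 := ih (by omega)
          have := hsize (i - 1 - (s + 2)) (i - 1 - (s + 1)) (i - 1 - s) (by omega) (by omega)
            (by omega) (by omega) (by omega)
            (by have := hbig (i - 1 - (s + 2)) (by omega); omega) (hbig (i - 1 - (s + 1)) (by omega))
            (by have := hbig (i - 1 - s) (by omega); omega)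
          have e : i - 1 - (s + 1 + 1) = i - 1 - (s + 2) := by omega
          rw [e]
          push_cast at h3 ⊢
          omega
      have hsum : ∀ s, s ≤ i - 1 → (m (i - 1 - s) : ℤ) ≤ m (i - 1) + s * (2 * J + 7) + s * s := by
        intro s
        induction s with
        | zero => intro _; simp
        | succ s ih =>
          intro hs
          have h3 := ih (by omega)
          have h4 := hstep s hs
          push_cast
          nlinarith
      have h5 := hsum (i - 1) (le_refl _)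
      rw [Nat.sub_self] at h5
      have h6 : ((i - 1 : ℕ) : ℤ) ≤ J := by
        have : i - 1 ≤ J := by omega
        exact_mod_cast this
      have h7 : (0 : ℤ) ≤ ((i - 1 : ℕ) : ℤ) := by positivity
      have h8 : (100 : ℤ) * J ^ 2 ≤ B := by exact_mod_cast hB
      have h9 : (B : ℤ) ≤ m 0 := by exact_mod_cast h0
      have h10 : (m (i - 1) : ℤ) < 2 * J + 6 := by exact_mod_cast hlt
      have h11 : (3 : ℤ) ≤ J := by exact_mod_cast hJ
      nlinarith
    · have : i - 1 = 0 := by omega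
      rw [this] at hlt
      nlinarith
  have hli := hS.le (i - 1) (by omega)
  have hlc := hS.le c hc2
  rcases Nat.lt_or_ge (m c) 2 with hmc | hmc
  · -- one point: singleChain
    have hmc1 : m c = 1 := by omega
    have hcJ : c ≠ J := by
      rintro rfl
      omega
    have hη1 : η (i - 1) < η c := hR.η_lt hc1 hc2
    have hηJ : η c < η J := hR.η_lt (by omega) (le_refl _)
    have hlJ := hS.le J (le_refl _)
    have habove : ∀ w ∈ V ∩ T, η (i - 1) < w.2 → ∃ k, c ≤ k ∧ k ≤ J ∧ ∃ j, l k ≤ j ∧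
        j < l k + m k ∧ w = (x k j, η k) := by
      rintro w ⟨hwV, hwT⟩ hw
      obtain ⟨k, hk, j, hj, rfl⟩ := hR.only w hwV
        ((hR.η_le (Nat.zero_le (i - 1)) (by omega)).trans hw.le) (hT0 w hwT)
      have hkk : i - 1 < k := hR.lt_of_η (by omega) hw
      have hjm := (hS.iff k hk j hj).mp hwT
      have : ¬ k < c := by
        intro hlt
        have := hempty k hkk hlt
        omega
      exact ⟨k, by omega, hk, j, hjm.1, hjm.2, rfl⟩
    have hcol := hSC (V ∩ T) hfinT hKT (η (i - 1)) J (fun j => x (i - 1) (l (i - 1) + j))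
      (fun j k hjk hk => hR.hx (i - 1) (by omega) _ _ (by omega) (by omega))
      (fun j hj => ⟨hR.mem (i - 1) (by omega) _ (by omega),
        (hS.iff (i - 1) (by omega) _ (by omega)).mpr ⟨by omega, by omega⟩⟩)
      (by
        rintro j hj t ht1 ht2 ⟨htV, -⟩
        obtain ⟨k, hk, j', hj', he⟩ := hR.only _ htV (hR.η_le (Nat.zero_le (i - 1)) (by omega))
          (hR.η_le (by omega : i - 1 ≤ J) (le_refl _))
        have he1 : t = x k j' := congrArg Prod.fst he
        have he2 : η (i - 1) = η k := congrArg Prod.snd he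
        have := hR.η_inj (by omega) hk he2
        subst this
        rw [he1] at ht1 ht2
        have a1 := hR.x_inj (by omega) (by omega) ht1
        have a2 := hR.x_inj (by omega) hj' ht2
        omega)
      (by
        have hsub : {h : ℝ | η (i - 1) < h ∧ ∃ w ∈ V ∩ T, w.2 = h} ⊆
            (fun k => η k) '' (Set.Ioc 0 J) := by
          rintro h ⟨hh, w, hw, rfl⟩
          obtain ⟨k, hk1, hk2, j, -, -, rfl⟩ := habove w hw hh
          exact ⟨k, ⟨by omega, hk2⟩, rfl⟩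
        calc _ ≤ Set.ncard ((fun k => η k) '' (Set.Ioc 0 J)) :=
              Set.ncard_le_ncard hsub ((Set.finite_Ioc _ _).image _)
          _ ≤ Set.ncard (Set.Ioc 0 J) := Set.ncard_image_le (Set.finite_Ioc _ _)
          _ = J := by
            rw [← Finset.coe_Ioc, Set.ncard_coe_finset, Nat.card_Ioc]; omega)
      (x c (l c), η c)
      ⟨hR.mem c hc2 _ (by omega), (hS.iff c hc2 _ (by omega)).mpr ⟨le_refl _, by omega⟩⟩ hη1
      (by
        intro w hw hw'
        obtain ⟨k, hk1, hk2, j, hj1, hj2, rfl⟩ := habove w hw hw'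
        rcases Nat.lt_or_eq_of_le hk1 with h | h
        · right; exact hR.η_lt h hk2
        · left
          subst h
          have : j = l c := by omega
          rw [this])
      (x J (l J), η J)
      ⟨hR.mem J (le_refl _) _ (by omega), (hS.iff J (le_refl _) _ (by omega)).mpr
        ⟨le_refl _, by omega⟩⟩
      (x J (l J + 1), η J)
      ⟨hR.mem J (le_refl _) _ (by omega), (hS.iff J (le_refl _) _ (by omega)).mpr
        ⟨by omega, by omega⟩⟩ (hη1.trans hηJ) (hη1.trans hηJ)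
    simp only at hcol
    have hne : η J - η c ≠ 0 := (sub_pos.mpr hηJ).ne'
    have heq := mul_right_cancel₀ hne hcol
    have hlt := hR.hx J (le_refl _) (l J) (l J + 1) (by omega) (by omega)
    linarith
  · -- two points: noEmptyTrap
    have hic : i < c := by
      by_contra hge
      have : c = i := by omega
      subst this
      omega
    have hη1 : η (i - 1) < η i := hR.η_lt (by omega) hiJ
    have hη2 : η i < η c := hR.η_lt hic hc2
    have hη3 : η (i - 1) < η c := hη1.trans hη2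
    have hPT : ∀ j, l (i - 1) ≤ j → j < l (i - 1) + m (i - 1) → (x (i - 1) j, η (i - 1)) ∈ T :=
      fun j h1 h2 => (hS.iff (i - 1) (by omega) j (by omega)).mpr ⟨h1, h2⟩
    have hQT : ∀ j, l c ≤ j → j < l c + m c → (x c j, η c) ∈ T :=
      fun j h1 h2 => (hS.iff c hc2 j (by omega)).mpr ⟨h1, h2⟩
    have hx1 := hR.hx (i - 1) (by omega) (l (i - 1)) (l (i - 1) + 1) (by omega) (by omega)
    have hx2 := hR.hx c hc2 (l c) (l c + 1) (by omega) (by omega)
    apply hN V hfin hK (x (i - 1) (l (i - 1)), η (i - 1)) (x (i - 1) (l (i - 1) + 1), η (i - 1))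
      (x c (l c), η c) (x c (l c + 1), η c) (x i 0, η i)
      (hR.mem _ (by omega) _ (by omega)) (hR.mem _ (by omega) _ (by omega))
      (hR.mem _ hc2 _ (by omega)) (hR.mem _ hc2 _ (by omega))
      (hR.mem _ hiJ _ (by have := hn i hiJ; omega)) rfl rfl hx1 hx2 hη1 hη2
    intro r hrV hr
    have hrT : r ∈ T := by
      apply convexHull_min _ hT hr
      intro y hy
      simp only [Set.mem_insert_iff, Set.mem_singleton_iff] at hy
      rcases hy with rfl | rfl | rfl | rfl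
      · exact hPT _ (le_refl _) (by omega)
      · exact hPT _ (by omega) (by omega)
      · exact hQT _ (le_refl _) (by omega)
      · exact hQT _ (by omega) (by omega)
    obtain ⟨b1, b2⟩ := hull_bottom (x (i - 1) (l (i - 1)), η (i - 1))
      (x (i - 1) (l (i - 1) + 1), η (i - 1)) (x c (l c), η c) (x c (l c + 1), η c) rfl rfl hx1
      hη3 r hr
    obtain ⟨t1, t2⟩ := hull_top (x (i - 1) (l (i - 1)), η (i - 1))
      (x (i - 1) (l (i - 1) + 1), η (i - 1)) (x c (l c), η c) (x c (l c + 1), η c) rfl rfl hx2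
      hη3 r hr
    simp only at b1 b2 t1 t2
    obtain ⟨k, hk, j, hj, rfl⟩ := hR.only r hrV
      ((hR.η_le (Nat.zero_le (i - 1)) (by omega)).trans b1) (hT0 r hrT)
    have hjm := (hS.iff k hk j hj).mp hrT
    simp only at b1 b2 t1 t2
    have hk1 : i - 1 ≤ k := by
      by_contra hlt
      exact absurd b1 (not_le.mpr (hR.η_lt (by omega : k < i - 1) (by omega)))
    have hk2 : k ≤ c := by
      by_contra hlt
      exact absurd t1 (not_le.mpr (hR.η_lt (by omega : c < k) hk))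
    have hkk : k = i - 1 ∨ k = c := by
      by_contra hcon
      push Not at hcon
      have := hempty k (by omega) (by omega)
      omega
    rcases hkk with h | h
    · subst h
      obtain ⟨g1, g2⟩ := b2 rfl
      have : j = l (i - 1) ∨ j = l (i - 1) + 1 := by
        by_contra hcon
        push Not at hcon
        have hgt : l (i - 1) + 1 < j := by omega
        exact absurd g2 (not_le.mpr (hR.hx (i - 1) (by omega) _ _ hgt hj))
      rcases this with h | h
      · left; rw [h]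
      · right; left; rw [h]
    · subst h
      obtain ⟨g1, g2⟩ := t2 rfl
      have : j = l k ∨ j = l k + 1 := by
        by_contra hcon
        push Not at hcon
        have hgt : l k + 1 < j := by omega
        exact absurd g2 (not_le.mpr (hR.hx k hk _ _ hgt hj))
      rcases this with h | h
      · right; right; left; rw [h]
      · right; right; right; rw [h]


/-- Module II-P3c. -/
theorem trap_rows_of (hN : NoEmptyTrapStmt) (hSC : SingleChainStmt) (hZ : SizeStmt)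
    (J B : ℕ) (hJ : 3 ≤ J) (hB : 100 * J ^ 2 ≤ B) (V : Set (ℝ × ℝ))
    (hfin : V.Finite) (hK : K5free V) (η : ℕ → ℝ) (n : ℕ → ℕ) (x : ℕ → ℕ → ℝ)
    (hR : Rows V J η n x) (hn : ∀ i, i ≤ J → 1 ≤ n i) (p₀ q₀ p₁ q₁ : ℕ)
    (hq₀ : q₀ < n 0) (hq₁ : q₁ < n J) (h₀ : p₀ + B ≤ q₀ + 1) (h₁ : p₁ + B / 4 ≤ q₁ + 1) :
    ∃ l r : ℕ → ℕ, l 0 = p₀ ∧ r 0 = q₀ ∧ l J = p₁ ∧ r J = q₁ ∧ ∀ i, i ≤ J →
      l i + B / 5 ≤ r i ∧ r i < n i ∧ ∀ j, j < n i → ((l i ≤ j ∧ j ≤ r i) ↔
        (side (η 0) (η J) (x 0 p₀) (x J p₁) (η i) ≤ x i j ∧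
          x i j ≤ side (η 0) (η J) (x 0 q₀) (x J q₁) (η i))) := by
  classical
  have hJ2 : 900 ≤ 100 * J ^ 2 := by nlinarith
  have hB4 : 25 * J ^ 2 ≤ B / 4 := by
    rw [Nat.le_div_iff_mul_le (by norm_num)]
    linarith
  have hη : η 0 < η J := hR.η_lt (by omega) (le_refl _)
  have hx0 : x 0 p₀ < x 0 q₀ := hR.hx 0 (by omega) _ _ (by omega) hq₀
  have hxJ : x J p₁ < x J q₁ := hR.hx J (le_refl _) _ _ (by omega) hq₁
  set L : ℝ → ℝ := side (η 0) (η J) (x 0 p₀) (x J p₁) with hL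
  set Rr : ℝ → ℝ := side (η 0) (η J) (x 0 q₀) (x J q₁) with hRr
  have hLR : ∀ i, i ≤ J → L (η i) < Rr (η i) := fun i hi =>
    side_lt _ _ _ _ _ _ _ (hR.η_le (Nat.zero_le i) hi) (hR.η_le hi (le_refl _)) hη hx0 hxJ
  have hcutL : ∀ i, ∃ c, i ≤ J → (c ≤ n i ∧ ∀ j, j < n i → (x i j < L (η i) ↔ j < c)) := by
    intro i
    by_cases hi : i ≤ J
    · obtain ⟨c, h1, h2⟩ := exists_cut (n i) (fun j => x i j < L (η i))
        (fun j k h1 h2 h3 => (hR.hx i hi j k h1 h2).trans h3)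
      exact ⟨c, fun _ => ⟨h1, h2⟩⟩
    · exact ⟨0, fun h => absurd h hi⟩
  have hcutR : ∀ i, ∃ c, i ≤ J → (c ≤ n i ∧ ∀ j, j < n i → (x i j ≤ Rr (η i) ↔ j < c)) := by
    intro i
    by_cases hi : i ≤ J
    · obtain ⟨c, h1, h2⟩ := exists_cut (n i) (fun j => x i j ≤ Rr (η i))
        (fun j k h1 h2 h3 => (hR.hx i hi j k h1 h2).le.trans h3)
      exact ⟨c, fun _ => ⟨h1, h2⟩⟩
    · exact ⟨0, fun h => absurd h hi⟩
  choose l hl using hcutL
  choose e he using hcutR
  have hle : ∀ i, i ≤ J → l i ≤ e i := by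
    intro i hi
    by_contra hlt
    push Not at hlt
    have h1 := (hl i hi).1
    have h2 := ((hl i hi).2 (e i) (by omega)).mpr hlt
    have h3 := ((he i hi).2 (e i) (by omega)).mp (h2.le.trans (hLR i hi).le)
    omega
  have hL0 : L (η 0) = x 0 p₀ := side_left _ _ _ _ hη
  have hR0 : Rr (η 0) = x 0 q₀ := side_left _ _ _ _ hη
  have hLJ : L (η J) = x J p₁ := side_right _ _ _ _ hη
  have hRJ : Rr (η J) = x J q₁ := side_right _ _ _ _ hη
  -- identification of the end rows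
  have hid : ∀ i, i ≤ J → ∀ p q, p < q → q < n i → L (η i) = x i p → Rr (η i) = x i q →
      l i = p ∧ e i = q + 1 := by
    intro i hi p q hpq hq h1 h2
    have a1 := (hl i hi).2 p (by omega)
    have a2 := (he i hi).2 q hq
    have b1 := (hl i hi).1
    have b2 := (he i hi).1
    rw [h1] at a1
    rw [h2] at a2
    have a1' : ¬ p < l i := fun h => lt_irrefl _ (a1.mpr h)
    have a2' : q < e i := a2.mp (le_refl _)
    constructor
    · by_contra hne
      have hlt : l i < p := by omega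
      have := (hl i hi).2 (l i) (by omega)
      rw [h1] at this
      exact absurd (this.mp (hR.hx i hi _ _ hlt (by omega))) (lt_irrefl _)
    · by_contra hne
      have hlt : q + 1 < e i := by omega
      have := ((he i hi).2 (q + 1) (by omega)).mpr hlt
      rw [h2] at this
      exact absurd this (not_le.mpr (hR.hx i hi _ _ (by omega) (by omega)))
  obtain ⟨l0, e0⟩ := hid 0 (by omega) p₀ q₀ (by omega) hq₀ hL0 hR0
  obtain ⟨lJ, eJ⟩ := hid J (le_refl _) p₁ q₁ (by omega) hq₁ hLJ hRJ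
  set m : ℕ → ℕ := fun i => e i - l i with hm
  have hlm : ∀ i, i ≤ J → l i + m i = e i := fun i hi => by
    have := hle i hi
    simp only [hm]; omega
  have hS : Sub V (trap (η 0) (η J) (x 0 p₀) (x J p₁) (x 0 q₀) (x J q₁)) J η n x l m := by
    refine ⟨fun i hi => by rw [hlm i hi]; exact (he i hi).1, ?_⟩
    intro i hi j hj
    rw [hlm i hi]
    have g1 := (hl i hi).2 j hj
    have g2 := (he i hi).2 j hj
    constructor
    · rintro ⟨-, -, h3, h4⟩
      refine ⟨?_, g2.mp h4⟩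
      by_contra hlt
      push Not at hlt
      exact absurd h3 (not_le.mpr (g1.mpr hlt))
    · rintro ⟨h3, h4⟩
      refine ⟨hR.η_le (Nat.zero_le i) hi, hR.η_le hi (le_refl _), ?_, g2.mpr h4⟩
      by_contra hlt
      push Not at hlt
      have := g1.mp hlt
      omega
  have hm0 : m 0 = q₀ + 1 - p₀ := by simp only [hm]; rw [l0, e0]
  have hmJ : m J = q₁ + 1 - p₁ := by simp only [hm]; rw [lJ, eJ]
  have htwo := sub_two hN hSC hZ hJ hB hfin hK hR hn (trap_convex _ _ _ _ _ _) hS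
    (fun p hp => hp.2.1) (by omega) (by omega)
  -- concavity
  have hconc := concave_min (fun k => (m k : ℤ) - (k : ℤ) ^ 2) J (by
    intro k hk
    have h3 := hZ _ (K5free_inter hK (trap_convex _ _ _ _ _ _)) _ _ _
      (hS.rows3 hR (a := k) (b := k + 1) (c := k + 2) (by omega) (by omega) hk
        (fun r h1 h2 => by omega) (fun r h1 h2 => by omega))
      (by show 1 ≤ m k; have := htwo k (by omega); omega)
      (htwo (k + 1) (by omega))
      (by show 1 ≤ m (k + 2); have := htwo (k + 2) hk; omega)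
    have h3' : m k + m (k + 2) ≤ 2 * m (k + 1) + 2 := h3
    have h4 : (m k : ℤ) + m (k + 2) ≤ 2 * m (k + 1) + 2 := by exact_mod_cast h3'
    push_cast
    nlinarith)
  have hmin : ∀ i, i ≤ J → B / 5 + 1 ≤ m i := by
    intro i hi
    have h5 := hconc i hi
    have hB5 : 20 * (B / 5) ≤ 4 * B := by omega
    have hB4' : 4 * B ≤ 16 * (B / 4) + 12 := by omega
    have hJ9 : 9 ≤ J ^ 2 := by nlinarith
    have hJZ : (9 : ℤ) ≤ (J : ℤ) ^ 2 := by exact_mod_cast hJ9
    have e1 : (B / 4 : ℕ) ≤ m J := by omega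
    have e2 : (B : ℕ) ≤ m 0 := by omega
    have e1' : ((B / 4 : ℕ) : ℤ) ≤ m J := by exact_mod_cast e1
    have e2' : (B : ℤ) ≤ m 0 := by exact_mod_cast e2
    have hJ0 : (0 : ℤ) ≤ (J : ℤ) ^ 2 := by positivity
    have hB4le : ((B / 4 : ℕ) : ℤ) ≤ B := by exact_mod_cast Nat.div_le_self B 4
    have e3 : ((B / 4 : ℕ) : ℤ) - (J : ℤ) ^ 2 ≤ min ((m 0 : ℤ) - ((0 : ℕ) : ℤ) ^ 2)
        ((m J : ℤ) - (J : ℤ) ^ 2) := by
      rw [le_min_iff]
      refine ⟨?_, by linarith⟩
      rw [Nat.cast_zero, zero_pow (by norm_num), sub_zero]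
      linarith
    have h6 : ((B / 4 : ℕ) : ℤ) - (J : ℤ) ^ 2 ≤ (m i : ℤ) - (i : ℤ) ^ 2 := e3.trans h5
    have h7 : (0 : ℤ) ≤ (i : ℤ) ^ 2 := by positivity
    have a1 : (20 : ℤ) * ((B / 5 : ℕ) : ℤ) ≤ 4 * B := by exact_mod_cast hB5
    have a2 : (4 : ℤ) * B ≤ 16 * ((B / 4 : ℕ) : ℤ) + 12 := by exact_mod_cast hB4'
    have a3 : (25 : ℤ) * (J : ℤ) ^ 2 ≤ ((B / 4 : ℕ) : ℤ) := by exact_mod_cast hB4
    have h8 : ((B / 5 + 1 : ℕ) : ℤ) ≤ ((B / 4 : ℕ) : ℤ) - (J : ℤ) ^ 2 := by
      rw [Nat.cast_add, Nat.cast_one]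
      linarith
    have h9 : ((B / 5 + 1 : ℕ) : ℤ) ≤ (m i : ℤ) := by linarith
    exact_mod_cast h9
  refine ⟨l, fun i => e i - 1, l0, by simp only; omega, lJ, by simp only; omega, ?_⟩
  intro i hi
  have h1 := hmin i hi
  have h2 := hlm i hi
  have h3 := (he i hi).1
  refine ⟨by simp only; omega, by simp only; omega, fun j hj => ?_⟩
  have g1 := (hl i hi).2 j hj
  have g2 := (he i hi).2 j hj
  constructor
  · rintro ⟨h4, h5⟩
    simp only at h5
    refine ⟨?_, g2.mpr (by omega)⟩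
    by_contra hlt
    push Not at hlt
    have := g1.mp hlt
    omega
  · rintro ⟨h4, h5⟩
    have := g2.mp h5
    refine ⟨?_, by show j ≤ e i - 1; omega⟩
    by_contra hlt
    push Not at hlt
    exact absurd h4 (not_le.mpr (g1.mpr hlt))

end Pool.Agent.helper47.Vis
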